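import Mathlib
import Pool.Agent.Helper472.Lat_Chars

set_option autoImplicit false
set_option linter.unusedSectionVars false

namespace Pool.Agent.H694R3.Bridge

open MeasureTheory Topology Set
open scoped ComplexConjugate

universe u v

variable {K : Type u} [CommGroup K] [TopologicalSpace K] [IsTopologicalGroup K] [CompactSpace K]

theorem char_cont (χ : K →ₜ* Circle) : Continuous (fun x => (χ x : ℂ)) :=
  continuous_subtype_val.comp χ.continuous_toFun

section Haar

variable [MeasurableSpace K] [BorelSpace K] (μ : Measure K) [μ.IsHaarMeasure] [IsProbabilityMeasure μ]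

theorem cont_int {H : Type*} [NormedAddCommGroup H] {g : K → H} (hg : Continuous g) : Integrable g μ :=
  hg.integrable_of_hasCompactSupport (HasCompactSupport.of_compactSpace _)

theorem integral_char (χ : K →ₜ* Circle) (hχ : χ ≠ 1) : ∫ x, (χ x : ℂ) ∂μ = 0 := by
  obtain ⟨g, hg⟩ : ∃ g, χ g ≠ 1 := by
    by_contra h
    push Not at h
    exact hχ (by ext x; rw [h x]; rfl)
  have h1 : ∫ x, (χ (g * x) : ℂ) ∂μ = ∫ x, (χ x : ℂ) ∂μ :=
    integral_mul_left_eq_self (fun x => (χ x : ℂ)) g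
  have h2 : ∫ x, (χ (g * x) : ℂ) ∂μ = (χ g : ℂ) * ∫ x, (χ x : ℂ) ∂μ := by
    rw [← integral_const_mul]
    congr 1
    ext x
    rw [map_mul, Circle.coe_mul]
  rw [h1] at h2
  have h3 : (1 - (χ g : ℂ)) * ∫ x, (χ x : ℂ) ∂μ = 0 := by
    rw [sub_mul, one_mul, ← h2, sub_self]
  rcases mul_eq_zero.1 h3 with h | h
  · exfalso
    apply hg
    apply Subtype.coe_injective
    change (χ g : ℂ) = ((1 : Circle) : ℂ)
    rw [Circle.coe_one]
    linear_combination -h
  · exact h

open scoped Classical in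
theorem integral_char_mul_conj (χ ψ : K →ₜ* Circle) :
    ∫ x, (χ x : ℂ) * conj (ψ x : ℂ) ∂μ = if χ = ψ then 1 else 0 := by
  have h1 : (fun x => (χ x : ℂ) * conj (ψ x : ℂ)) = fun x => ((χ * ψ⁻¹ : K →ₜ* Circle) x : ℂ) := by
    funext x
    have h : (ψ⁻¹ : K →ₜ* Circle) x = (ψ x)⁻¹ := rfl
    have h' : (χ * ψ⁻¹ : K →ₜ* Circle) x = χ x * (ψ⁻¹ : K →ₜ* Circle) x := rfl
    rw [h', h, Circle.coe_mul, Circle.coe_inv_eq_conj]
  rw [h1]
  by_cases h : χ = ψ
  · subst h
    rw [if_pos rfl, mul_inv_cancel]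
    have h2 : (fun x => ((1 : K →ₜ* Circle) x : ℂ)) = fun _ => 1 := by
      funext x
      rfl
    rw [h2]
    simp
  · rw [if_neg h]
    apply integral_char
    intro h2
    exact h (mul_inv_eq_one.1 h2)

theorem integral_normSq_sum (A : Finset (K →ₜ* Circle)) (b : (K →ₜ* Circle) → ℂ) :
    ∫ x, ‖∑ χ ∈ A, b χ * (χ x : ℂ)‖ ^ 2 ∂μ = ∑ χ ∈ A, ‖b χ‖ ^ 2 := by
  classical
  have hc : ∀ χ : K →ₜ* Circle, Continuous (fun x => (χ x : ℂ)) := fun χ => char_cont χ
  have h1 : ((∫ x, ‖∑ χ ∈ A, b χ * (χ x : ℂ)‖ ^ 2 ∂μ : ℝ) : ℂ) =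
      ∑ χ ∈ A, ∑ ψ ∈ A, (b χ * conj (b ψ)) * ∫ x, (χ x : ℂ) * conj (ψ x : ℂ) ∂μ := by
    rw [← integral_complex_ofReal]
    have h2 : (fun x : K => ((‖∑ χ ∈ A, b χ * (χ x : ℂ)‖ ^ 2 : ℝ) : ℂ)) = fun x =>
        ∑ χ ∈ A, ∑ ψ ∈ A, (b χ * conj (b ψ)) * ((χ x : ℂ) * conj (ψ x : ℂ)) := by
      funext x
      push_cast
      rw [← Complex.mul_conj', map_sum, Finset.sum_mul_sum]
      refine Finset.sum_congr rfl fun χ _ => Finset.sum_congr rfl fun ψ _ => ?_
      rw [map_mul]
      ring
    rw [h2, integral_finsetSum]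
    · refine Finset.sum_congr rfl fun χ _ => ?_
      rw [integral_finsetSum]
      · refine Finset.sum_congr rfl fun ψ _ => ?_
        rw [integral_const_mul]
      · intro ψ _
        apply cont_int
        exact continuous_const.mul ((hc χ).mul (Complex.continuous_conj.comp (hc ψ)))
    · intro χ _
      apply cont_int
      refine continuous_finsetSum _ fun ψ _ => ?_
      exact continuous_const.mul ((hc χ).mul (Complex.continuous_conj.comp (hc ψ)))
  have h3 : ∑ χ ∈ A, ∑ ψ ∈ A, (b χ * conj (b ψ)) * ∫ x, (χ x : ℂ) * conj (ψ x : ℂ) ∂μ =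
      ((∑ χ ∈ A, ‖b χ‖ ^ 2 : ℝ) : ℂ) := by
    push_cast
    refine Finset.sum_congr rfl fun χ hχ => ?_
    rw [Finset.sum_eq_single χ]
    · rw [integral_char_mul_conj, if_pos rfl, mul_one, Complex.mul_conj']
    · intro ψ _ hne
      rw [integral_char_mul_conj, if_neg (Ne.symm hne), mul_zero]
    · intro h
      exact absurd hχ h
  rw [h3] at h1
  exact_mod_cast h1

/-- comparison of measures from containment of quotients -/
theorem measure_le_of_div {E D : Set K} (h : ∀ w ∈ E, ∀ w' ∈ E, w * w'⁻¹ ∈ D) : μ E ≤ μ D := by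
  rcases E.eq_empty_or_nonempty with rfl | ⟨w0, hw0⟩
  · simp
  · have h1 : E ⊆ (fun x => w0⁻¹ * x) ⁻¹' D := by
      intro w hw
      have := h w hw w0 hw0
      rw [mul_comm] at this
      exact this
    calc μ E ≤ μ ((fun x => w0⁻¹ * x) ⁻¹' D) := measure_mono h1
      _ = μ D := measure_preimage_mul μ w0⁻¹ D

/-- **first inequality**, in the form of a volume bound. -/
theorem card_mul_measure_le {S : Type v} (γ : S → K →ₜ* K) (F : Finset S) (X : Finset (K →ₜ* Circle))
    (ε : ℝ) (hε : 0 ≤ ε) (E : Set K) (hE : MeasurableSet E)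
    (hEb : ∀ y ∈ E, ∀ s ∈ F, ∀ x ∈ X, ‖(x (γ s y) : ℂ) - 1‖ ≤ ε)
    (A : Finset (K →ₜ* Circle))
    (hA : ∀ χ ∈ A, ∃ x : S → (K →ₜ* Circle), (∀ s ∈ F, x s ∈ X) ∧ ∀ y, χ y = ∏ s ∈ F, x s (γ s y)) :
    (A.card : ℝ) * μ.real E ≤ (1 + X.card * ε) ^ (2 * F.card) := by
  classical
  choose! ξ hξ1 hξ2 using hA
  set C : ℝ := (1 + X.card * ε) ^ F.card with hC
  have hC1 : 1 ≤ C := one_le_pow₀ (by
    have : (0 : ℝ) ≤ X.card * ε := by positivity
    linarith)
  have hC2 : (1 + X.card * ε) ^ (2 * F.card) = C ^ 2 := by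
    rw [hC, ← pow_mul]
    congr 1
    ring
  rw [hC2]
  rcases (measureReal_nonneg (μ := μ) (s := E)).eq_or_lt with h0 | hpos
  · rw [← h0]
    simp
    positivity
  set t : ℝ := C / μ.real E with ht
  have htpos : 0 < t := by positivity
  -- the functions δ
  set δ : S → (K →ₜ* Circle) → K → ℂ := fun s x y => (x (γ s y) : ℂ) - 1 with hδ
  have hcx : ∀ s (x : K →ₜ* Circle), Continuous (fun y => (x (γ s y) : ℂ)) := fun s x =>
    (char_cont x).comp (γ s).continuous_toFun
  have hδc : ∀ s x, Continuous (δ s x) := fun s x => (hcx s x).sub continuous_const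
  set I : (K →ₜ* Circle) → Finset S → ℂ := fun χ B =>
    ∫ y in E, conj (χ y : ℂ) * ∏ s ∈ B, δ s (ξ χ s) y ∂μ with hI
  have hone : ∀ χ ∈ A, ((μ.real E : ℝ) : ℂ) = ∑ B ∈ F.powerset, I χ B := by
    intro χ hχ
    have h1 : ∀ y, (1 : ℂ) = ∑ B ∈ F.powerset, conj (χ y : ℂ) * ∏ s ∈ B, δ s (ξ χ s) y := by
      intro y
      rw [← Finset.mul_sum, ← Finset.prod_one_add]
      have h2 : ∏ s ∈ F, (1 + δ s (ξ χ s) y) = (χ y : ℂ) := by
        have h3 : ∀ s, 1 + δ s (ξ χ s) y = ((ξ χ s (γ s y) : Circle) : ℂ) := by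
          intro s; simp only [hδ]; ring
        rw [Finset.prod_congr rfl (fun s _ => h3 s), hξ2 χ hχ y]
        exact (map_prod Circle.coeHom _ _).symm
      rw [h2, ← Complex.normSq_eq_conj_mul_self]
      simp
    have h4 : ((μ.real E : ℝ) : ℂ) = ∫ y in E, (1 : ℂ) ∂μ := by simp
    rw [h4]
    have h5 : ∫ y in E, (1 : ℂ) ∂μ =
        ∫ y in E, ∑ B ∈ F.powerset, conj (χ y : ℂ) * ∏ s ∈ B, δ s (ξ χ s) y ∂μ := by
      congr 1
      funext y
      exact h1 y
    rw [h5, integral_finsetSum]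
    intro B _
    apply Integrable.integrableOn
    apply cont_int
    exact (Complex.continuous_conj.comp (char_cont χ)).mul
      (continuous_finsetProd _ fun s _ => hδc s _)
  -- bound for one group
  have hgroup : ∀ B ∈ F.powerset, ∀ g ∈ B.pi (fun _ => X),
      ‖∑ χ ∈ A with (fun s (_ : s ∈ B) => ξ χ s) = g, I χ B‖ ≤
        ε ^ B.card * ((t * μ.real E + A.card / t) / 2) := by
    intro B hB g hg
    rw [Finset.mem_powerset] at hB
    rw [Finset.mem_pi] at hg
    set Ag := A.filter (fun χ => (fun s (_ : s ∈ B) => ξ χ s) = g) with hAg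
    set P : K → ℂ := fun y => ∏ s ∈ B.attach, δ s.1 (g s.1 s.2) y with hP
    have hPc : Continuous P := continuous_finsetProd _ fun s _ => hδc _ _
    have h1 : ∑ χ ∈ Ag, I χ B = ∫ y in E, (∑ χ ∈ Ag, conj (χ y : ℂ)) * P y ∂μ := by
      have h2 : ∀ χ ∈ Ag, I χ B = ∫ y in E, conj (χ y : ℂ) * P y ∂μ := by
        intro χ hχ
        rw [hAg, Finset.mem_filter] at hχ
        simp only [hI, hP]
        congr 1
        funext y
        congr 1
        rw [← Finset.prod_attach]
        refine Finset.prod_congr rfl fun s _ => ?_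
        have h3 := congrFun (congrFun hχ.2 s.1) s.2
        rw [← h3]
      rw [Finset.sum_congr rfl h2, ← integral_finsetSum]
      · congr 1
        funext y
        rw [Finset.sum_mul]
      · intro χ _
        apply Integrable.integrableOn
        apply cont_int
        exact (Complex.continuous_conj.comp (char_cont χ)).mul hPc
    rw [h1]
    set G : K → ℂ := fun y => ∑ χ ∈ Ag, (χ y : ℂ) with hG
    have hGc : Continuous G := continuous_finsetSum _ fun χ _ => char_cont χ
    have h4 : ∀ y ∈ E, ‖(∑ χ ∈ Ag, conj (χ y : ℂ)) * P y‖ ≤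
        ε ^ B.card * ((t + ‖G y‖ ^ 2 / t) / 2) := by
      intro y hy
      rw [norm_mul]
      have h5 : ‖∑ χ ∈ Ag, conj (χ y : ℂ)‖ = ‖G y‖ := by
        rw [← map_sum, Complex.norm_conj]
      have h6 : ‖P y‖ ≤ ε ^ B.card := by
        simp only [hP]
        rw [norm_prod]
        calc ∏ s ∈ B.attach, ‖δ s.1 (g s.1 s.2) y‖ ≤ ∏ s ∈ B.attach, ε := by
              apply Finset.prod_le_prod
              · intro s _; positivity
              · intro s _
                exact hEb y hy s.1 (hB s.2) _ (hg s.1 s.2)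
          _ = ε ^ B.card := by simp
      rw [h5, mul_comm]
      have h7 : ‖G y‖ ≤ (t + ‖G y‖ ^ 2 / t) / 2 := by
        have h8 : 0 ≤ (t - ‖G y‖) ^ 2 / t := by positivity
        have h9 : (t - ‖G y‖) ^ 2 / t = t - 2 * ‖G y‖ + ‖G y‖ ^ 2 / t := by
          field_simp
          ring
        linarith
      exact mul_le_mul h6 h7 (norm_nonneg _) (by positivity)
    have h10 : Continuous (fun y => ε ^ B.card * ((t + ‖G y‖ ^ 2 / t) / 2)) := by
      fun_prop
    calc ‖∫ y in E, (∑ χ ∈ Ag, conj (χ y : ℂ)) * P y ∂μ‖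
        ≤ ∫ y in E, ε ^ B.card * ((t + ‖G y‖ ^ 2 / t) / 2) ∂μ := by
          apply norm_integral_le_of_norm_le ((cont_int μ h10).integrableOn)
          rw [ae_restrict_iff' hE]
          exact Filter.Eventually.of_forall h4
      _ = ε ^ B.card * ((t * μ.real E + (∫ y in E, ‖G y‖ ^ 2 ∂μ) / t) / 2) := by
          have i1 : IntegrableOn (fun _ : K => t) E μ := (cont_int μ continuous_const).integrableOn
          have i2 : IntegrableOn (fun y => ‖G y‖ ^ 2 / t) E μ :=
            (cont_int μ (by fun_prop)).integrableOn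
          have i3 : ∫ y in E, ‖G y‖ ^ 2 / t ∂μ = (∫ y in E, ‖G y‖ ^ 2 ∂μ) / t := integral_div _ _
          have i4 : ∫ y in E, t ∂μ = t * μ.real E := by
            simp only [integral_const, smul_eq_mul, measureReal_restrict_apply_univ]
            rw [mul_comm]
          have i5 : ∫ y in E, (t + ‖G y‖ ^ 2 / t) / 2 ∂μ = (∫ y in E, (t + ‖G y‖ ^ 2 / t) ∂μ) / 2 :=
            integral_div _ _
          rw [integral_const_mul, i5, integral_add i1 i2, i3, i4]
      _ ≤ ε ^ B.card * ((t * μ.real E + A.card / t) / 2) := by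
          have h11 : ∫ y in E, ‖G y‖ ^ 2 ∂μ ≤ A.card := by
            calc ∫ y in E, ‖G y‖ ^ 2 ∂μ ≤ ∫ y, ‖G y‖ ^ 2 ∂μ := by
                  apply setIntegral_le_integral (cont_int μ (by fun_prop))
                  exact Filter.Eventually.of_forall fun y => by positivity
              _ = Ag.card := by
                  have := integral_normSq_sum μ Ag (fun _ => 1)
                  simpa using this
              _ ≤ A.card := by exact_mod_cast Finset.card_filter_le _ _
          gcongr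
  -- conclusion
  have hsum : ((A.card : ℝ) * μ.real E) ≤ C * ((t * μ.real E + A.card / t) / 2) := by
    have h1 : (((A.card : ℝ) * μ.real E : ℝ) : ℂ) = ∑ B ∈ F.powerset, ∑ χ ∈ A, I χ B := by
      rw [Finset.sum_comm]
      rw [Finset.sum_congr rfl (fun χ hχ => (hone χ hχ).symm)]
      simp
    have h2 : ((A.card : ℝ) * μ.real E) = ‖∑ B ∈ F.powerset, ∑ χ ∈ A, I χ B‖ := by
      rw [← h1, Complex.norm_real, Real.norm_of_nonneg (by positivity)]
    rw [h2]
    calc ‖∑ B ∈ F.powerset, ∑ χ ∈ A, I χ B‖ ≤ ∑ B ∈ F.powerset, ‖∑ χ ∈ A, I χ B‖ := norm_sum_le _ _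
      _ ≤ ∑ B ∈ F.powerset, (X.card * ε) ^ B.card * ((t * μ.real E + A.card / t) / 2) := by
          apply Finset.sum_le_sum
          intro B hB
          have h3 : ∑ χ ∈ A, I χ B = ∑ g ∈ B.pi (fun _ => X),
              ∑ χ ∈ A with (fun s (_ : s ∈ B) => ξ χ s) = g, I χ B := by
            rw [Finset.sum_fiberwise_of_maps_to]
            intro χ hχ
            rw [Finset.mem_pi]
            intro s hs
            exact hξ1 χ hχ s ((Finset.mem_powerset.1 hB) hs)
          rw [h3]
          calc ‖∑ g ∈ B.pi (fun _ => X), ∑ χ ∈ A with (fun s (_ : s ∈ B) => ξ χ s) = g, I χ B‖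
              ≤ ∑ g ∈ B.pi (fun _ => X), ‖∑ χ ∈ A with (fun s (_ : s ∈ B) => ξ χ s) = g, I χ B‖ :=
                norm_sum_le _ _
            _ ≤ ∑ g ∈ B.pi (fun _ => X), ε ^ B.card * ((t * μ.real E + A.card / t) / 2) :=
                Finset.sum_le_sum fun g hg => hgroup B hB g hg
            _ = (X.card * ε) ^ B.card * ((t * μ.real E + A.card / t) / 2) := by
                rw [Finset.sum_const, Finset.card_pi]
                simp [mul_pow]
                ring
      _ = C * ((t * μ.real E + A.card / t) / 2) := by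
          rw [← Finset.sum_mul]
          congr 1
          rw [hC]
          have h4 := Finset.sum_pow_mul_eq_add_pow ((X.card : ℝ) * ε) (1 : ℝ) F
          simp only [one_pow, mul_one] at h4
          rw [h4, add_comm]
  have h5 : t * μ.real E = C := by
    rw [ht]
    field_simp
  have h6 : (A.card : ℝ) / t = A.card * μ.real E / C := by
    rw [ht]
    field_simp
  rw [h5, h6] at hsum
  have h7 : C * ((C + A.card * μ.real E / C) / 2) = (C ^ 2 + A.card * μ.real E) / 2 := by
    field_simp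
  rw [h7] at hsum
  linarith

end Haar

end Pool.Agent.H694R3.Bridge
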