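import Pool.Agent.H694R3.Br1

set_option autoImplicit false
set_option linter.unusedSectionVars false

namespace Pool.Agent.H694R3.Bridge

open MeasureTheory Topology Set
open scoped ComplexConjugate

universe u v

variable {K : Type u} [CommGroup K] [TopologicalSpace K] [IsTopologicalGroup K] [CompactSpace K]

section SW

variable [T2Space K]

/-- complex function of a continuous character -/
noncomputable def cf (χ : K →ₜ* Circle) : C(K, ℂ) :=
  ⟨fun x => (χ x : ℂ), continuous_subtype_val.comp χ.continuous_toFun⟩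

theorem cf_apply (χ : K →ₜ* Circle) (x : K) : cf χ x = (χ x : ℂ) := rfl

theorem cf_mul (χ ψ : K →ₜ* Circle) : cf (χ * ψ) = cf χ * cf ψ := by
  ext x; simp [cf_apply]

theorem cf_one : cf (1 : K →ₜ* Circle) = 1 := by
  ext x; simp [cf_apply]

theorem star_cf (χ : K →ₜ* Circle) : star (cf χ) = cf χ⁻¹ := by
  ext x
  have h : (χ⁻¹ : K →ₜ* Circle) x = (χ x)⁻¹ := rfl
  rw [cf_apply, h, Circle.coe_inv_eq_conj]
  simp [cf_apply]

/-- star subalgebra generated by characters -/
noncomputable def alg : StarSubalgebra ℂ C(K, ℂ) where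
  toSubalgebra := Algebra.adjoin ℂ (range (cf (K := K)))
  star_mem' := by
    change Algebra.adjoin ℂ (range (cf (K := K))) ≤ star (Algebra.adjoin ℂ (range (cf (K := K))))
    refine Algebra.adjoin_le ?_
    rintro - ⟨χ, rfl⟩
    exact Algebra.subset_adjoin ⟨χ⁻¹, (star_cf χ).symm⟩

theorem alg_coe : Subalgebra.toSubmodule (alg (K := K)).toSubalgebra =
      Submodule.span ℂ (range (cf (K := K))) := by
  apply Algebra.adjoin_eq_span_of_subset
  refine Set.Subset.trans ?_ Submodule.subset_span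
  intro x hx
  refine Submonoid.closure_induction (fun _ => id) ⟨1, cf_one⟩ ?_ hx
  rintro - - - - ⟨m, rfl⟩ ⟨n, rfl⟩
  exact ⟨m * n, cf_mul _ _⟩

theorem alg_dense : (alg (K := K)).topologicalClosure = ⊤ := by
  apply ContinuousMap.starSubalgebra_topologicalClosure_eq_top_of_separatesPoints
  intro x y hxy
  obtain ⟨χ, hχ⟩ := Pool.LatH472.chars (x * y⁻¹) (by
    intro h
    exact hxy (mul_inv_eq_one.1 h))
  refine ⟨_, ⟨cf χ, Algebra.subset_adjoin ⟨χ, rfl⟩, rfl⟩, ?_⟩
  intro h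
  apply hχ
  have h1 : χ x = χ y := Subtype.coe_injective (by simpa [cf_apply] using h)
  rw [map_mul, h1, ← map_mul, mul_inv_cancel, map_one]

/-- trigonometric polynomials are dense -/
theorem exists_trig (g : C(K, ℂ)) {ε : ℝ} (hε : 0 < ε) :
    ∃ (X : Finset (K →ₜ* Circle)) (a : (K →ₜ* Circle) → ℂ),
      ∀ y, ‖∑ x ∈ X, a x * (x y : ℂ) - g y‖ ≤ ε := by
  have hg : g ∈ ((alg (K := K)).topologicalClosure : Set C(K, ℂ)) := by rw [alg_dense]; trivial
  rw [StarSubalgebra.topologicalClosure_coe, Metric.mem_closure_iff] at hg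
  obtain ⟨p, hp, hd⟩ := hg ε hε
  have hp' : p ∈ Submodule.span ℂ (range (cf (K := K))) := by
    rw [← alg_coe]
    exact hp
  rw [Finsupp.mem_span_range_iff_exists_finsupp] at hp'
  obtain ⟨c, hc⟩ := hp'
  refine ⟨c.support, c, ?_⟩
  intro y
  have h1 : ∑ x ∈ c.support, c x * (x y : ℂ) = p y := by
    rw [← hc, Finsupp.sum, ContinuousMap.coe_sum, Finset.sum_apply]
    rfl
  rw [h1, ← dist_eq_norm, dist_comm]
  exact (ContinuousMap.dist_apply_le_dist y).trans hd.le

end SW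

section Haar

variable [MeasurableSpace K] [BorelSpace K] (μ : Measure K) [μ.IsHaarMeasure] [IsProbabilityMeasure μ]

/-- lower bound of the integral of a product kernel -/
theorem kernel_lower {S : Type v} (γ : S → K →ₜ* K) (F : Finset S) (X : Finset (K →ₜ* Circle))
    (a : (K →ₜ* Circle) → ℂ) (T : Finset (K →ₜ* Circle))
    (hT : ∀ x : S → (K →ₜ* Circle), (∀ s ∈ F, x s ∈ X) →
      ∃ χ ∈ T, ∀ y, χ y = ∏ s ∈ F, x s (γ s y)) :
    (‖∑ x ∈ X, a x‖ ^ 2) ^ F.card ≤
      T.card * ∫ y, ∏ s ∈ F, ‖∑ x ∈ X, a x * (x (γ s y) : ℂ)‖ ^ 2 ∂μ := by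
  classical
  have hT' : ∀ g ∈ F.pi (fun _ => X), ∃ χ ∈ T, ∀ y,
      (χ y : ℂ) = ∏ s ∈ F.attach, ((g s.1 s.2 (γ s.1 y) : Circle) : ℂ) := by
    intro g hg
    rw [Finset.mem_pi] at hg
    obtain ⟨χ, hχ, h⟩ := hT (fun s => if h : s ∈ F then g s h else 1) (by
      intro s hs
      simp only [dif_pos hs]
      exact hg s hs)
    refine ⟨χ, hχ, ?_⟩
    intro y
    rw [h y, ← Finset.prod_attach]
    have : ∀ s : F, (if h : s.1 ∈ F then g s.1 h else 1) = g s.1 s.2 := by
      intro s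
      rw [dif_pos s.2]
    simp only [this]
    exact map_prod Circle.coeHom _ _
  choose! Ψ hΨ1 hΨ2 using hT'
  set b : (K →ₜ* Circle) → ℂ := fun χ =>
    ∑ g ∈ F.pi (fun _ => X) with Ψ g = χ, ∏ s ∈ F.attach, a (g s.1 s.2) with hb
  have hexp : ∀ y, ∏ s ∈ F, (∑ x ∈ X, a x * (x (γ s y) : ℂ)) = ∑ χ ∈ T, b χ * (χ y : ℂ) := by
    intro y
    rw [Finset.prod_sum]
    rw [← Finset.sum_fiberwise_of_maps_to (t := T) (g := Ψ) (fun g hg => hΨ1 g hg)]
    refine Finset.sum_congr rfl fun χ _ => ?_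
    rw [hb]
    simp only
    rw [Finset.sum_mul]
    refine Finset.sum_congr rfl fun g hg => ?_
    rw [Finset.mem_filter] at hg
    rw [Finset.prod_mul_distrib]
    rw [← hΨ2 g hg.1 y, hg.2]
  have h1 : ∫ y, ∏ s ∈ F, ‖∑ x ∈ X, a x * (x (γ s y) : ℂ)‖ ^ 2 ∂μ = ∑ χ ∈ T, ‖b χ‖ ^ 2 := by
    rw [← integral_normSq_sum μ T b]
    congr 1
    funext y
    rw [← hexp y, norm_prod, Finset.prod_pow]
  have h2 : ∑ χ ∈ T, b χ = (∑ x ∈ X, a x) ^ F.card := by
    have h3 := hexp 1
    simp only [map_one, Circle.coe_one, mul_one, Finset.prod_const] at h3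
    exact h3.symm
  rw [h1]
  calc (‖∑ x ∈ X, a x‖ ^ 2) ^ F.card = ‖∑ χ ∈ T, b χ‖ ^ 2 := by
        rw [h2, norm_pow]
        ring
    _ ≤ (∑ χ ∈ T, ‖b χ‖) ^ 2 := by
        gcongr
        exact norm_sum_le _ _
    _ ≤ T.card * ∑ χ ∈ T, ‖b χ‖ ^ 2 := sq_sum_le_card_mul_sum_sq

/-- upper bound of the integral of a product kernel -/
theorem kernel_upper {S : Type v} {ι : Type u} (γ : S → K →ₜ* K) (F : Finset S) (φ : K → ℝ)
    (hφc : Continuous φ) (hφ0 : ∀ z, 0 ≤ φ z) (J : Finset ι) (C : ι → Set K) (hC : ∀ i, IsOpen (C i))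
    (η : ι → ℝ) (hη : ∀ i, 0 ≤ η i) (hle : ∀ z, φ z ≤ ∑ i ∈ J, η i * (C i).indicator 1 z)
    (Q : Set K) (hQ : ∀ i, ∀ w ∈ C i, ∀ w' ∈ C i, w * w'⁻¹ ∈ Q) :
    ∫ y, ∏ s ∈ F, φ (γ s y) ∂μ ≤ (∑ i ∈ J, η i) ^ F.card * μ.real {y | ∀ s ∈ F, γ s y ∈ Q} := by
  classical
  set E : (∀ s ∈ F, ι) → Set K := fun g => {y | ∀ s, ∀ h : s ∈ F, γ s y ∈ C (g s h)} with hE
  have hEo : ∀ g, IsOpen (E g) := by
    intro g
    have h1 : E g = ⋂ s ∈ F.attach, (γ s.1) ⁻¹' (C (g s.1 s.2)) := by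
      ext y
      simp [hE]
    rw [h1]
    apply isOpen_biInter_finset
    intro s _
    exact (hC _).preimage (γ s.1).continuous_toFun
  have hprod : ∀ y, ∏ s ∈ F, (∑ i ∈ J, η i * (C i).indicator (1 : K → ℝ) (γ s y)) =
      ∑ g ∈ F.pi (fun _ => J), (∏ s ∈ F.attach, η (g s.1 s.2)) * (E g).indicator (1 : K → ℝ) y := by
    intro y
    rw [Finset.prod_sum]
    refine Finset.sum_congr rfl fun g hg => ?_
    rw [Finset.prod_mul_distrib]
    congr 1
    by_cases hy : y ∈ E g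
    · rw [indicator_of_mem hy]
      simp only [Pi.one_apply]
      apply Finset.prod_eq_one
      intro s _
      rw [indicator_of_mem (hy s.1 s.2)]
      rfl
    · rw [indicator_of_notMem hy]
      simp only [hE, mem_setOf_eq] at hy
      push Not at hy
      obtain ⟨s, hs, hns⟩ := hy
      apply Finset.prod_eq_zero (Finset.mem_attach F ⟨s, hs⟩)
      rw [indicator_of_notMem hns]
  have hbound : ∀ y, ∏ s ∈ F, φ (γ s y) ≤
      ∑ g ∈ F.pi (fun _ => J), (∏ s ∈ F.attach, η (g s.1 s.2)) * (E g).indicator (1 : K → ℝ) y := by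
    intro y
    rw [← hprod y]
    apply Finset.prod_le_prod
    · intro s _
      exact hφ0 _
    · intro s _
      exact hle _
  have hint1 : ∀ g, Integrable (fun y => (E g).indicator (1 : K → ℝ) y) μ := by
    intro g
    exact (integrable_const (1 : ℝ)).indicator (hEo g).measurableSet
  have hint : Integrable (fun y => ∑ g ∈ F.pi (fun _ => J),
      (∏ s ∈ F.attach, η (g s.1 s.2)) * (E g).indicator (1 : K → ℝ) y) μ := by
    apply integrable_finsetSum
    intro g _
    exact (hint1 g).const_mul _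
  calc ∫ y, ∏ s ∈ F, φ (γ s y) ∂μ
      ≤ ∫ y, ∑ g ∈ F.pi (fun _ => J), (∏ s ∈ F.attach, η (g s.1 s.2)) *
          (E g).indicator (1 : K → ℝ) y ∂μ := by
        apply integral_mono _ hint hbound
        apply cont_int
        apply continuous_finsetProd
        intro s _
        exact hφc.comp (γ s).continuous_toFun
    _ = ∑ g ∈ F.pi (fun _ => J), (∏ s ∈ F.attach, η (g s.1 s.2)) * μ.real (E g) := by
        rw [integral_finsetSum]
        · refine Finset.sum_congr rfl fun g _ => ?_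
          rw [integral_const_mul]
          congr 1
          exact integral_indicator_one (hEo g).measurableSet
        · intro g _
          exact (hint1 g).const_mul _
    _ ≤ ∑ g ∈ F.pi (fun _ => J), (∏ s ∈ F.attach, η (g s.1 s.2)) *
          μ.real {y | ∀ s ∈ F, γ s y ∈ Q} := by
        apply Finset.sum_le_sum
        intro g _
        apply mul_le_mul_of_nonneg_left _ (Finset.prod_nonneg fun s _ => hη _)
        have h1 : μ (E g) ≤ μ {y | ∀ s ∈ F, γ s y ∈ Q} := by
          apply measure_le_of_div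
          intro w hw w' hw' s hs
          rw [map_mul, map_inv]
          exact hQ _ _ (hw s hs) _ (hw' s hs)
        exact ENNReal.toReal_mono (measure_ne_top _ _) h1
    _ = (∑ i ∈ J, η i) ^ F.card * μ.real {y | ∀ s ∈ F, γ s y ∈ Q} := by
        rw [← Finset.sum_mul]
        congr 1
        rw [← Finset.prod_const, Finset.prod_sum]

end Haar

end Pool.Agent.H694R3.Bridge
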