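import Pool.Agent.H694R3.Br2

set_option autoImplicit false
set_option linter.unusedSectionVars false

namespace Pool.Agent.H694R3.Bridge

open MeasureTheory Topology Set
open scoped ComplexConjugate

universe u v

variable {K : Type u} [CommGroup K] [TopologicalSpace K] [IsTopologicalGroup K] [CompactSpace K]

theorem exists_open_div {Q : Set K} (hQ : Q ∈ 𝓝 (1 : K)) :
    ∃ R : Set K, IsOpen R ∧ (1 : K) ∈ R ∧ ∀ w ∈ R, ∀ w' ∈ R, w * w'⁻¹ ∈ Q := by
  obtain ⟨V, hV, h⟩ := exists_nhds_split_inv hQ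
  refine ⟨interior V, isOpen_interior, mem_interior_iff_mem_nhds.2 hV, ?_⟩
  intro w hw w' hw'
  rw [← div_eq_mul_inv]
  exact h w (interior_subset hw) w' (interior_subset hw')

theorem exists_translates {R : Set K} (hR : IsOpen R) (h1 : (1 : K) ∈ R) :
    ∃ c : Finset K, ∀ z, ∃ k ∈ c, k⁻¹ * z ∈ R := by
  obtain ⟨c, _, hc⟩ := (isCompact_univ (X := K)).elim_nhds_subcover (fun k => {z | k⁻¹ * z ∈ R}) (by
    intro k _
    apply IsOpen.mem_nhds
    · exact hR.preimage (by fun_prop : Continuous fun z : K => k⁻¹ * z)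
    · show k⁻¹ * k ∈ R
      rw [inv_mul_cancel]
      exact h1)
  refine ⟨c, ?_⟩
  intro z
  have := hc (mem_univ z)
  rw [mem_iUnion₂] at this
  obtain ⟨k, hk, hz⟩ := this
  exact ⟨k, hk, hz⟩

section Haar

variable [MeasurableSpace K] [BorelSpace K] (μ : Measure K) [μ.IsHaarMeasure] [IsProbabilityMeasure μ]

/-- **second inequality**, as a volume bound -/
theorem volume_upper [T2Space K] {Q : Set K} (hQ : Q ∈ 𝓝 (1 : K)) {κ : ℝ} (hκ : 0 < κ) :
    ∃ X : Finset (K →ₜ* Circle), X.Nonempty ∧ ∀ {S : Type v} (γ : S → K →ₜ* K) (F : Finset S)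
      (T : Finset (K →ₜ* Circle)) (_ : ∀ x : S → (K →ₜ* Circle), (∀ s ∈ F, x s ∈ X) →
        ∃ χ ∈ T, ∀ y, χ y = ∏ s ∈ F, x s (γ s y)),
      1 ≤ T.card * Real.exp κ ^ F.card * μ.real {y | ∀ s ∈ F, γ s y ∈ Q} := by
  classical
  obtain ⟨R, hRo, hR1, hRQ⟩ := exists_open_div hQ
  obtain ⟨c, hc⟩ := exists_translates hRo hR1
  obtain ⟨ε, hε0, hε1, hε⟩ : ∃ ε : ℝ, 0 < ε ∧ ε < 1 / 2 ∧
      (1 + ε) ^ 2 + c.card * ε ^ 2 < Real.exp κ * (1 - ε) ^ 2 := by
    have hopen : IsOpen {ε : ℝ | (1 + ε) ^ 2 + c.card * ε ^ 2 < Real.exp κ * (1 - ε) ^ 2} :=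
      isOpen_lt (by fun_prop) (by fun_prop)
    have h0 : (0 : ℝ) ∈ {ε : ℝ | (1 + ε) ^ 2 + c.card * ε ^ 2 < Real.exp κ * (1 - ε) ^ 2} := by
      have := Real.one_lt_exp_iff.2 hκ
      show (1 + (0 : ℝ)) ^ 2 + c.card * (0 : ℝ) ^ 2 < Real.exp κ * (1 - (0 : ℝ)) ^ 2
      norm_num
      exact hκ
    obtain ⟨δ, hδ, hball⟩ := Metric.isOpen_iff.1 hopen 0 h0
    refine ⟨min (δ / 2) (1 / 4), by positivity, ?_, ?_⟩
    · have := min_le_right (δ / 2) (1 / 4 : ℝ)
      linarith
    · apply hball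
      rw [Metric.mem_ball, Real.dist_eq, sub_zero, abs_of_nonneg (by positivity)]
      have := min_le_left (δ / 2) (1 / 4 : ℝ)
      linarith
  obtain ⟨g, hg0, hg1, hg01⟩ := exists_continuous_zero_one_of_isClosed
    (s := Rᶜ) (t := {(1 : K)}) hRo.isClosed_compl isClosed_singleton
    (by
      rw [Set.disjoint_singleton_right]
      intro h
      exact h hR1)
  let gc : C(K, ℂ) := ⟨fun x => (g x : ℂ), by fun_prop⟩
  obtain ⟨X, a, hXa⟩ := exists_trig gc hε0
  set p : K → ℂ := fun y => ∑ x ∈ X, a x * (x y : ℂ) with hp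
  have hpc : Continuous p := continuous_finsetSum _ fun x _ => continuous_const.mul (char_cont x)
  have hp1 : p 1 = ∑ x ∈ X, a x := by
    simp [hp]
  have hp1n : 1 - ε ≤ ‖p 1‖ := by
    have h1 := hXa 1
    have h2 : gc 1 = 1 := by
      show ((g 1 : ℝ) : ℂ) = 1
      rw [hg1 (mem_singleton _)]
      simp
    rw [h2] at h1
    have h3 : ‖(1 : ℂ)‖ ≤ ‖p 1‖ + ‖p 1 - 1‖ := by
      have := norm_sub_norm_le (1 : ℂ) (p 1)
      rw [norm_sub_rev] at this
      linarith
    rw [norm_one] at h3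
    have h4 : ‖p 1 - 1‖ ≤ ε := h1
    linarith
  have hbig : ∀ z, ‖p z‖ ≤ 1 + ε := by
    intro z
    have h1 : ‖p z - gc z‖ ≤ ε := hXa z
    have h2 : ‖gc z‖ ≤ 1 := by
      show ‖((g z : ℝ) : ℂ)‖ ≤ 1
      rw [Complex.norm_real, Real.norm_of_nonneg (hg01 z).1]
      exact (hg01 z).2
    have h3 := norm_sub_norm_le (p z) (gc z)
    linarith
  have hsmall : ∀ z, z ∉ R → ‖p z‖ ≤ ε := by
    intro z hz
    have h1 : ‖p z - gc z‖ ≤ ε := hXa z
    have h2 : gc z = 0 := by
      show ((g z : ℝ) : ℂ) = 0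
      rw [hg0 hz]
      simp
    rw [h2, sub_zero] at h1
    exact h1
  refine ⟨X, ?_, ?_⟩
  · by_contra hX
    rw [Finset.not_nonempty_iff_eq_empty] at hX
    rw [hp1, hX] at hp1n
    simp at hp1n
    linarith
  · intro S γ F T hT
    set C : Option K → Set K := fun i => match i with
      | none => R
      | some k => {z | k⁻¹ * z ∈ R} with hC
    set η : Option K → ℝ := fun i => match i with
      | none => (1 + ε) ^ 2
      | some _ => ε ^ 2 with hη
    have hup := kernel_upper μ γ F (fun z => ‖p z‖ ^ 2) (by fun_prop) (fun z => by positivity)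
      c.insertNone C (by
        rintro (_ | k)
        · exact hRo
        · exact hRo.preimage (by fun_prop : Continuous fun z : K => k⁻¹ * z)) η (by
        rintro (_ | k)
        · simp only [hη]; positivity
        · simp only [hη]; positivity) (by
        intro z
        have hnn : ∀ i ∈ c.insertNone, 0 ≤ η i * (C i).indicator (1 : K → ℝ) z := by
          rintro (_ | k) _
          · simp only [hη]
            apply mul_nonneg (by positivity)
            exact indicator_nonneg (fun _ _ => zero_le_one) _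
          · simp only [hη]
            apply mul_nonneg (by positivity)
            exact indicator_nonneg (fun _ _ => zero_le_one) _
        by_cases hz : z ∈ R
        · have h1 : ‖p z‖ ^ 2 ≤ η none * (C none).indicator (1 : K → ℝ) z := by
            have : z ∈ C none := hz
            rw [indicator_of_mem this]
            simp only [hη, Pi.one_apply, mul_one]
            have := hbig z
            gcongr
          exact h1.trans (Finset.single_le_sum hnn (Finset.none_mem_insertNone))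
        · obtain ⟨k, hk, hkz⟩ := hc z
          have h1 : ‖p z‖ ^ 2 ≤ η (some k) * (C (some k)).indicator (1 : K → ℝ) z := by
            have : z ∈ C (some k) := hkz
            rw [indicator_of_mem this]
            simp only [hη, Pi.one_apply, mul_one]
            have := hsmall z hz
            gcongr
          exact h1.trans (Finset.single_le_sum hnn (Finset.some_mem_insertNone.2 hk)))
      Q (by
        rintro (_ | k) w hw w' hw'
        · exact hRQ w hw w' hw'
        · have h1 := hRQ (k⁻¹ * w) hw (k⁻¹ * w') hw'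
          have h2 : k⁻¹ * w * (k⁻¹ * w')⁻¹ = w * w'⁻¹ := by
            rw [mul_inv_rev, inv_inv, mul_comm w'⁻¹ k, ← mul_assoc, mul_comm (k⁻¹ * w) k, ← mul_assoc,
              mul_inv_cancel, one_mul]
          rw [h2] at h1
          exact h1)
    have hlow := kernel_lower μ γ F X a T hT
    have hsum : ∑ i ∈ c.insertNone, η i = (1 + ε) ^ 2 + c.card * ε ^ 2 := by
      rw [Finset.sum_insertNone]
      simp [hη]
    rw [hsum] at hup
    set m := μ.real {y | ∀ s ∈ F, γ s y ∈ Q} with hm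
    have hm0 : 0 ≤ m := measureReal_nonneg
    have hpos : 0 < ((1 - ε) ^ 2) ^ F.card := by
      have : 0 < 1 - ε := by linarith
      positivity
    have h1 : ((1 - ε) ^ 2) ^ F.card ≤
        T.card * ((Real.exp κ * (1 - ε) ^ 2) ^ F.card * m) := by
      calc ((1 - ε) ^ 2) ^ F.card ≤ (‖∑ x ∈ X, a x‖ ^ 2) ^ F.card := by
            rw [← hp1]
            have : 0 ≤ 1 - ε := by linarith
            gcongr
        _ ≤ T.card * ∫ y, ∏ s ∈ F, ‖∑ x ∈ X, a x * (x (γ s y) : ℂ)‖ ^ 2 ∂μ := hlow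
        _ ≤ T.card * (((1 + ε) ^ 2 + c.card * ε ^ 2) ^ F.card * m) := by
            gcongr
        _ ≤ T.card * ((Real.exp κ * (1 - ε) ^ 2) ^ F.card * m) := by
            gcongr
    have h2 : (T.card : ℝ) * ((Real.exp κ * (1 - ε) ^ 2) ^ F.card * m) =
        (T.card * Real.exp κ ^ F.card * m) * ((1 - ε) ^ 2) ^ F.card := by
      rw [mul_pow]
      ring
    rw [h2] at h1
    by_contra hcon
    push Not at hcon
    have := mul_lt_mul_of_pos_right hcon hpos
    rw [one_mul] at this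
    linarith

/-- packing: a set of translates covering `K` of size at most the inverse volume -/
theorem exists_cover_translates {D D' : Set K} (hD : IsOpen D) (h1 : (1 : K) ∈ D)
    (hDD : ∀ w ∈ D, ∀ w' ∈ D, w * w'⁻¹ ∈ D') :
    ∃ P : Finset K, (∀ z, ∃ y ∈ P, y⁻¹ * z ∈ D') ∧ (P.card : ℝ) * μ.real D ≤ 1 := by
  classical
  have hbd : ∀ P : Finset K, (∀ y ∈ P, ∀ y' ∈ P, y ≠ y' →
      Disjoint ((fun z => y⁻¹ * z) ⁻¹' D) ((fun z => y'⁻¹ * z) ⁻¹' D)) →
      (P.card : ℝ) * μ.real D ≤ 1 := by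
    intro P hP
    have hm : ∀ y : K, MeasurableSet ((fun z => y⁻¹ * z) ⁻¹' D) := by
      intro y
      exact (hD.preimage (by fun_prop : Continuous fun z : K => y⁻¹ * z)).measurableSet
    have h2 : μ.real (⋃ y ∈ P, (fun z => y⁻¹ * z) ⁻¹' D) = ∑ y ∈ P, μ.real ((fun z => y⁻¹ * z) ⁻¹' D) := by
      apply measureReal_biUnion_finset
      · intro y hy y' hy' hne
        exact hP y hy y' hy' hne
      · intro y _
        exact hm y
      · intro y _
        exact measure_ne_top _ _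
    have h3 : ∀ y ∈ P, μ.real ((fun z => y⁻¹ * z) ⁻¹' D) = μ.real D := by
      intro y _
      unfold Measure.real
      rw [measure_preimage_mul]
    rw [Finset.sum_congr rfl h3, Finset.sum_const, nsmul_eq_mul] at h2
    rw [← h2]
    exact measureReal_le_one
  by_contra hcon
  push Not at hcon
  have hext : ∀ n : ℕ, ∃ P : Finset K, P.card = n ∧ (∀ y ∈ P, ∀ y' ∈ P, y ≠ y' →
      Disjoint ((fun z => y⁻¹ * z) ⁻¹' D) ((fun z => y'⁻¹ * z) ⁻¹' D)) := by
    intro n
    induction n with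
    | zero => exact ⟨∅, rfl, by simp⟩
    | succ n ih =>
      obtain ⟨P, hPn, hP⟩ := ih
      by_cases hcov : ∀ z, ∃ y ∈ P, y⁻¹ * z ∈ D'
      · exact absurd (hbd P hP) (not_le.2 (hcon P hcov))
      · push Not at hcov
        obtain ⟨z, hz⟩ := hcov
        have hdis : ∀ y ∈ P, Disjoint ((fun x => z⁻¹ * x) ⁻¹' D) ((fun x => y⁻¹ * x) ⁻¹' D) := by
          intro y hy
          rw [Set.disjoint_left]
          intro x hx hx'
          apply hz y hy
          have h2 := hDD _ hx' _ hx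
          have h3 : y⁻¹ * x * (z⁻¹ * x)⁻¹ = y⁻¹ * z := by
            rw [mul_inv_rev, inv_inv, mul_assoc, ← mul_assoc x, mul_inv_cancel, one_mul]
          rw [h3] at h2
          exact h2
        have hzP : z ∉ P := by
          intro h
          have h2 := hdis z h
          rw [disjoint_self] at h2
          have h3 : z ∈ ((fun x => z⁻¹ * x) ⁻¹' D) := by
            show z⁻¹ * z ∈ D
            rw [inv_mul_cancel]
            exact h1
          have h4 : z ∈ (∅ : Set K) := by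
            rw [← Set.bot_eq_empty, ← h2]
            exact h3
          exact h4
        refine ⟨insert z P, by rw [Finset.card_insert_of_notMem hzP, hPn], ?_⟩
        intro y hy y' hy' hne
        rw [Finset.mem_insert] at hy hy'
        rcases hy with rfl | hy
        · rcases hy' with rfl | hy'
          · exact absurd rfl hne
          · exact hdis y' hy'
        · rcases hy' with rfl | hy'
          · exact (hdis y hy).symm
          · exact hP y hy y' hy' hne
  have hpos : 0 < μ.real D := by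
    have := hD.measure_pos μ ⟨1, h1⟩
    exact ENNReal.toReal_pos this.ne' (measure_ne_top _ _)
  obtain ⟨n, hn⟩ := exists_nat_gt (1 / μ.real D)
  obtain ⟨P, hPn, hP⟩ := hext n
  have h2 := hbd P hP
  rw [hPn] at h2
  rw [div_lt_iff₀ hpos] at hn
  linarith

/-- Lebesgue number of a finite open cover of a compact group -/
theorem lebesgue {𝒰 : Set (Set K)} (hop : ∀ U ∈ 𝒰, IsOpen U) (hcov : ⋃₀ 𝒰 = univ) :
    ∃ Q : Set K, Q ∈ 𝓝 (1 : K) ∧ ∀ y, ∃ U ∈ 𝒰, ∀ q ∈ Q, y * q ∈ U := by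
  classical
  have h1 : ∀ y : K, ∃ V : Set K, IsOpen V ∧ (1 : K) ∈ V ∧ ∃ U ∈ 𝒰, ∀ v ∈ V, ∀ w ∈ V, y * (v * w) ∈ U := by
    intro y
    have hy : y ∈ ⋃₀ 𝒰 := by rw [hcov]; trivial
    obtain ⟨U, hU, hyU⟩ := hy
    have h2 : (fun z => y * z) ⁻¹' U ∈ 𝓝 (1 : K) := by
      apply IsOpen.mem_nhds
      · exact (hop U hU).preimage (by fun_prop)
      · show y * 1 ∈ U
        rw [mul_one]
        exact hyU
    obtain ⟨V, hVo, hV1, hV⟩ := exists_open_nhds_one_split h2
    exact ⟨V, hVo, hV1, U, hU, fun v hv w hw => hV v hv w hw⟩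
  choose V hVo hV1 U hU hVU using h1
  obtain ⟨c, _, hc⟩ := (isCompact_univ (X := K)).elim_nhds_subcover (fun k => {z | k⁻¹ * z ∈ V k}) (by
    intro k _
    apply IsOpen.mem_nhds
    · exact (hVo k).preimage (by fun_prop : Continuous fun z : K => k⁻¹ * z)
    · show k⁻¹ * k ∈ V k
      rw [inv_mul_cancel]
      exact hV1 k)
  refine ⟨⋂ k ∈ c, V k, ?_, ?_⟩
  · rw [Filter.biInter_finset_mem]
    intro k _
    exact (hVo k).mem_nhds (hV1 k)
  · intro y
    have := hc (mem_univ y)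
    rw [mem_iUnion₂] at this
    obtain ⟨k, hk, hz⟩ := this
    refine ⟨U k, hU k, ?_⟩
    intro q hq
    rw [mem_iInter₂] at hq
    have h2 := hVU k _ hz _ (hq k hk)
    rw [← mul_assoc, ← mul_assoc, mul_inv_cancel, one_mul] at h2
    exact h2

include μ in
/-- **second inequality** for covers -/
theorem cover_upper [T2Space K] {𝒰 : Set (Set K)} (hop : ∀ U ∈ 𝒰, IsOpen U) (hcov : ⋃₀ 𝒰 = univ)
    {κ : ℝ} (hκ : 0 < κ) :
    ∃ X : Finset (K →ₜ* Circle), X.Nonempty ∧ ∀ {S : Type v} (γ : S → K →ₜ* K) (F : Finset S)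
      (T : Finset (K →ₜ* Circle)) (_ : ∀ x : S → (K →ₜ* Circle), (∀ s ∈ F, x s ∈ X) →
        ∃ χ ∈ T, ∀ y, χ y = ∏ s ∈ F, x s (γ s y)),
      ∃ 𝒱 : Finset (Set K), (∀ W ∈ 𝒱, ∃ c : S → Set K, (∀ s ∈ F, c s ∈ 𝒰) ∧
        W = ⋂ s ∈ F, (γ s) ⁻¹' (c s)) ∧ ⋃₀ (𝒱 : Set (Set K)) = univ ∧
        (𝒱.card : ℝ) ≤ T.card * Real.exp κ ^ F.card := by
  classical
  obtain ⟨Q, hQ, hQU⟩ := lebesgue hop hcov
  choose O hO hOQ using hQU
  obtain ⟨R, hRo, hR1, hRQ⟩ := exists_open_div hQ
  obtain ⟨X, hX, h⟩ := volume_upper.{u, v} μ (hRo.mem_nhds hR1) hκ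
  refine ⟨X, hX, ?_⟩
  intro S γ F T hT
  have hvol := h γ F T hT
  set D : Set K := {y | ∀ s ∈ F, γ s y ∈ R} with hD
  have hDo : IsOpen D := by
    have h1 : D = ⋂ s ∈ F, (γ s) ⁻¹' R := by
      ext y
      simp [hD]
    rw [h1]
    apply isOpen_biInter_finset
    intro s _
    exact hRo.preimage (γ s).continuous_toFun
  obtain ⟨P, hP1, hP2⟩ := exists_cover_translates μ (D := D) (D' := {y | ∀ s ∈ F, γ s y ∈ Q}) hDo
    (by
      intro s _
      rw [map_one]
      exact hR1)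
    (by
      intro w hw w' hw' s hs
      rw [map_mul, map_inv]
      exact hRQ _ (hw s hs) _ (hw' s hs))
  refine ⟨P.image (fun y => ⋂ s ∈ F, (γ s) ⁻¹' (O (γ s y))), ?_, ?_, ?_⟩
  · intro W hW
    rw [Finset.mem_image] at hW
    obtain ⟨y, _, rfl⟩ := hW
    exact ⟨fun s => O (γ s y), fun s _ => hO _, rfl⟩
  · rw [Set.eq_univ_iff_forall]
    intro z
    obtain ⟨y, hy, hyz⟩ := hP1 z
    refine ⟨⋂ s ∈ F, (γ s) ⁻¹' (O (γ s y)), ?_, ?_⟩
    · simp only [Finset.coe_image]
      exact mem_image_of_mem _ hy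
    · rw [mem_iInter₂]
      intro s hs
      have h1 := hOQ (γ s y) _ (hyz s hs)
      rw [← map_mul, mul_inv_cancel_left] at h1
      exact h1
  · have hcard : ((P.image (fun y => ⋂ s ∈ F, (γ s) ⁻¹' (O (γ s y)))).card : ℝ) ≤ P.card := by
      exact_mod_cast Finset.card_image_le
    refine hcard.trans ?_
    have hpos : 0 < μ.real D := by
      have := hDo.measure_pos μ ⟨1, by
        intro s _
        rw [map_one]
        exact hR1⟩
      exact ENNReal.toReal_pos this.ne' (measure_ne_top _ _)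
    have h1 : (P.card : ℝ) * μ.real D ≤ T.card * Real.exp κ ^ F.card * μ.real D := hP2.trans hvol
    exact le_of_mul_le_mul_right h1 hpos

include μ in
/-- **first inequality** for covers -/
theorem cover_lower (X : Finset (K →ₜ* Circle)) {κ : ℝ} (hκ : 0 < κ) :
    ∃ 𝒰 : Set (Set K), 𝒰.Finite ∧ (∀ U ∈ 𝒰, IsOpen U) ∧ ⋃₀ 𝒰 = univ ∧
      ∀ {S : Type v} (γ : S → K →ₜ* K) (F : Finset S) (A : Finset (K →ₜ* Circle))
        (_ : ∀ χ ∈ A, ∃ x : S → (K →ₜ* Circle), (∀ s ∈ F, x s ∈ X) ∧ ∀ y, χ y = ∏ s ∈ F, x s (γ s y))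
        (𝒱 : Finset (Set K)) (_ : ∀ W ∈ 𝒱, ∃ c : S → Set K, (∀ s ∈ F, c s ∈ 𝒰) ∧
          W = ⋂ s ∈ F, (γ s) ⁻¹' (c s)) (_ : ⋃₀ (𝒱 : Set (Set K)) = univ),
        (A.card : ℝ) ≤ 𝒱.card * Real.exp κ ^ F.card := by
  classical
  obtain ⟨ε, hε0, hε⟩ : ∃ ε : ℝ, 0 < ε ∧ (1 + X.card * ε) ^ 2 < Real.exp κ := by
    have hopen : IsOpen {ε : ℝ | (1 + X.card * ε) ^ 2 < Real.exp κ} :=
      isOpen_lt (by fun_prop) (by fun_prop)
    have h0 : (0 : ℝ) ∈ {ε : ℝ | (1 + X.card * ε) ^ 2 < Real.exp κ} := by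
      show (1 + X.card * (0 : ℝ)) ^ 2 < Real.exp κ
      have := Real.one_lt_exp_iff.2 hκ
      norm_num
      exact hκ
    obtain ⟨δ, hδ, hball⟩ := Metric.isOpen_iff.1 hopen 0 h0
    refine ⟨δ / 2, by positivity, ?_⟩
    apply hball
    rw [Metric.mem_ball, Real.dist_eq, sub_zero, abs_of_nonneg (by positivity)]
    linarith
  set V : Set K := {u | ∀ x ∈ X, ‖(x u : ℂ) - 1‖ < ε / 2} with hV
  have hVo : IsOpen V := by
    have h1 : V = ⋂ x ∈ X, {u | ‖(x u : ℂ) - 1‖ < ε / 2} := by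
      ext y
      simp [hV]
    rw [h1]
    apply isOpen_biInter_finset
    intro x _
    exact isOpen_lt (((char_cont x).sub continuous_const).norm) continuous_const
  have hV1 : (1 : K) ∈ V := by
    intro x _
    rw [map_one, Circle.coe_one, sub_self, norm_zero]
    positivity
  obtain ⟨c, hc⟩ := exists_translates hVo hV1
  refine ⟨(fun k => {z | k⁻¹ * z ∈ V}) '' (c : Set K), c.finite_toSet.image _, ?_, ?_, ?_⟩
  · rintro U ⟨k, _, rfl⟩
    exact hVo.preimage (by fun_prop : Continuous fun z : K => k⁻¹ * z)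
  · rw [Set.eq_univ_iff_forall]
    intro z
    obtain ⟨k, hk, hkz⟩ := hc z
    exact ⟨_, ⟨k, hk, rfl⟩, hkz⟩
  · intro S γ F A hA 𝒱 h𝒱 hcov
    set E : Set K := {y | ∀ s ∈ F, ∀ x ∈ X, ‖(x (γ s y) : ℂ) - 1‖ ≤ ε} with hE
    have hEm : MeasurableSet E := by
      have h1 : E = ⋂ s ∈ F, ⋂ x ∈ X, {y | ‖(x (γ s y) : ℂ) - 1‖ ≤ ε} := by
        ext y
        simp [hE]
      rw [h1]
      apply Finset.measurableSet_biInter
      intro s _
      apply Finset.measurableSet_biInter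
      intro x _
      apply IsClosed.measurableSet
      exact isClosed_le (((char_cont x).comp (γ s).continuous_toFun).sub continuous_const).norm
        continuous_const
    have hmain := card_mul_measure_le μ γ F X ε hε0.le E hEm (fun y hy => hy) A hA
    have hW : ∀ W ∈ 𝒱, μ W ≤ μ E := by
      intro W hW
      obtain ⟨cc, hcc, rfl⟩ := h𝒱 W hW
      apply measure_le_of_div
      intro w hw w' hw' s hs x hx
      rw [mem_iInter₂] at hw hw'
      obtain ⟨k, _, hk⟩ := hcc s hs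
      have h1 := hw s hs
      have h2 := hw' s hs
      rw [← hk] at h1 h2
      have h3 : ‖(x (k⁻¹ * γ s w) : ℂ) - 1‖ < ε / 2 := h1 x hx
      have h4 : ‖(x (k⁻¹ * γ s w') : ℂ) - 1‖ < ε / 2 := h2 x hx
      have h5 : γ s (w * w'⁻¹) = (k⁻¹ * γ s w) * (k⁻¹ * γ s w')⁻¹ := by
        rw [map_mul, map_inv, mul_inv_rev, inv_inv, mul_comm (γ s w')⁻¹ k, ← mul_assoc,
          mul_comm (k⁻¹ * γ s w) k, ← mul_assoc, mul_inv_cancel, one_mul]
      rw [h5, map_mul, map_inv, Circle.coe_mul, Circle.coe_inv]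
      set z1 : Circle := x (k⁻¹ * γ s w) with hz1
      set z2 : Circle := x (k⁻¹ * γ s w') with hz2
      have h6 : (z1 : ℂ) * (z2 : ℂ)⁻¹ - 1 = ((z1 : ℂ) - z2) * (z2 : ℂ)⁻¹ := by
        rw [sub_mul, mul_inv_cancel₀ z2.coe_ne_zero]
      rw [h6, norm_mul, norm_inv, Circle.norm_coe, inv_one, mul_one]
      have h7 : (z1 : ℂ) - z2 = ((z1 : ℂ) - 1) - ((z2 : ℂ) - 1) := by ring
      rw [h7]
      exact (norm_sub_le _ _).trans (by linarith)
    have hone : 1 ≤ (𝒱.card : ℝ) * μ.real E := by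
      have h1 : μ (⋃ W ∈ 𝒱, W) = 1 := by
        have : (⋃ W ∈ 𝒱, W) = univ := by
          rw [← hcov]
          ext z
          simp
        rw [this]
        exact measure_univ
      have h2 : μ (⋃ W ∈ 𝒱, W) ≤ ∑ W ∈ 𝒱, μ W := measure_biUnion_finset_le _ _
      have h3 : ∑ W ∈ 𝒱, μ W ≤ ∑ W ∈ 𝒱, μ E := Finset.sum_le_sum hW
      rw [Finset.sum_const, nsmul_eq_mul] at h3
      have h4 : (1 : ENNReal) ≤ 𝒱.card * μ E := by
        rw [← h1]
        exact h2.trans h3
      have h5 : (𝒱.card : ENNReal) * μ E ≠ ⊤ := ENNReal.mul_ne_top (by simp) (measure_ne_top _ _)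
      have h6 := ENNReal.toReal_mono h5 h4
      rw [ENNReal.toReal_mul] at h6
      have h7 : (1 : ℝ) ≤ (𝒱.card : ℝ) * (μ E).toReal := by simpa using h6
      exact h7
    calc (A.card : ℝ) ≤ A.card * ((𝒱.card : ℝ) * μ.real E) := by
          have : (0 : ℝ) ≤ A.card := by positivity
          nlinarith
      _ = 𝒱.card * (A.card * μ.real E) := by ring
      _ ≤ 𝒱.card * (1 + X.card * ε) ^ (2 * F.card) := by gcongr
      _ ≤ 𝒱.card * Real.exp κ ^ F.card := by
          rw [pow_mul]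
          gcongr

end Haar

end Pool.Agent.H694R3.Bridge
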