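import Mathlib

open Filter Topology Set

namespace Pool.Agent.H694R3.Dj

universe u

/-- Forward invariant sets. -/
def Inv {X : Type*} (f : X → X) (A : Set X) : Prop := ∀ x ∈ A, f x ∈ A

/-- Minimal systems. -/
def IsMin {X : Type*} [TopologicalSpace X] (f : X → X) : Prop :=
  Nonempty X ∧ ∀ A : Set X, IsClosed A → Inv f A → A.Nonempty → A = univ

/-- Minimal sets. -/
def MinSet {X : Type*} [TopologicalSpace X] (f : X → X) (A : Set X) : Prop :=
  IsClosed A ∧ Inv f A ∧ A.Nonempty ∧ ∀ B ⊆ A, IsClosed B → Inv f B → B.Nonempty → B = A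

/-- Disjointness. -/
def Disj {X Z : Type*} [TopologicalSpace X] [TopologicalSpace Z] (f : X → X) (g : Z → Z) : Prop :=
  ∀ J : Set (X × Z), IsClosed J → Inv (Prod.map f g) J → Prod.fst '' J = univ →
    Prod.snd '' J = univ → J = univ

/-- Disjointness from all minimal metrizable systems. -/
def DisjM {X : Type u} [TopologicalSpace X] (f : X → X) : Prop :=
  ∀ (Z : Type u) [TopologicalSpace Z] [CompactSpace Z] [TopologicalSpace.MetrizableSpace Z]
    (R : Z ≃ₜ Z), IsMin R → Disj f R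

lemma exists_minSet {X : Type*} [TopologicalSpace X] [CompactSpace X] (f : X → X) (C : Set X)
    (hC : IsClosed C) (hi : Inv f C) (hne : C.Nonempty) : ∃ A ⊆ C, MinSet f A := by
  obtain ⟨A, hA, hmin⟩ := zorn_superset_nonempty
    {A : Set X | IsClosed A ∧ Inv f A ∧ A.Nonempty} (by
      intro c hc hch hcne
      refine ⟨⋂₀ c, ⟨isClosed_sInter fun s hs => (hc hs).1, ?_, ?_⟩, fun s hs =>
        sInter_subset_of_mem hs⟩
      · intro x hx s hs
        exact (hc hs).2.1 x (hx s hs)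
      · have := hcne.to_subtype
        exact IsCompact.nonempty_sInter_of_directed_nonempty_isCompact_isClosed
          (fun a ha b hb => (hch.total ha hb).elim (fun h => ⟨a, ha, subset_rfl, h⟩)
            fun h => ⟨b, hb, h, subset_rfl⟩) (fun s hs => (hc hs).2.2)
          (fun s hs => (hc hs).1.isCompact) (fun s hs => (hc hs).1)) C ⟨hC, hi, hne⟩
  refine ⟨A, hA, hmin.prop.1, hmin.prop.2.1, hmin.prop.2.2, ?_⟩
  intro B hB h1 h2 h3
  exact (hmin.eq_of_subset ⟨h1, h2, h3⟩ hB)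

lemma MinSet.subset_of_inter {X : Type*} [TopologicalSpace X] {f : X → X} {A P : Set X}
    (hA : MinSet f A) (hP : IsClosed P) (hi : Inv f P) (hne : (A ∩ P).Nonempty) : A ⊆ P := by
  have := hA.2.2.2 (A ∩ P) inter_subset_left (hA.1.inter hP)
    (fun x hx => ⟨hA.2.1 x hx.1, hi x hx.2⟩) hne
  rw [← this]
  exact inter_subset_right

lemma MinSet.mem_iff {X : Type*} [TopologicalSpace X] [CompactSpace X] [T2Space X] {f : X ≃ₜ X}
    {A : Set X} (hA : MinSet f A) (x : X) : x ∈ A ↔ f x ∈ A := by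
  refine ⟨hA.2.1 x, fun hx => ?_⟩
  have h1 : f '' A = A := by
    refine hA.2.2.2 (f '' A) ?_ ?_ ?_ (hA.2.2.1.image _)
    · rintro _ ⟨a, ha, rfl⟩
      exact hA.2.1 a ha
    · exact f.isClosedMap _ hA.1
    · rintro _ ⟨a, ha, rfl⟩
      exact ⟨f a, hA.2.1 a ha, rfl⟩
  rw [← h1] at hx
  exact (f.injective.mem_set_image).1 hx

lemma MinSet.isMin {X : Type*} [TopologicalSpace X] [CompactSpace X] [T2Space X] {f : X ≃ₜ X}
    {A : Set X} (hA : MinSet f A) : IsMin (f.subtype hA.mem_iff : A ≃ₜ A) := by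
  refine ⟨hA.2.2.1.to_subtype, fun B hB hi hne => ?_⟩
  have h1 : Subtype.val '' B = A := by
    refine hA.2.2.2 _ ?_ ?_ ?_ (hne.image _)
    · rintro _ ⟨b, _, rfl⟩
      exact b.2
    · exact (hA.1.isClosedEmbedding_subtypeVal.isClosedMap) _ hB
    · rintro _ ⟨b, hb, rfl⟩
      exact ⟨_, hi b hb, rfl⟩
  ext b
  simp only [mem_univ, iff_true]
  have h2 : (b : X) ∈ Subtype.val '' B := by rw [h1]; exact b.2
  exact (Subtype.val_injective.mem_set_image).1 h2

section main

variable {X Y Z : Type u} [TopologicalSpace X] [CompactSpace X] [TopologicalSpace.MetrizableSpace X]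
  [TopologicalSpace Y] [CompactSpace Y] [TopologicalSpace.MetrizableSpace Y]
  [TopologicalSpace Z] [CompactSpace Z] [TopologicalSpace.MetrizableSpace Z]
  (T : X ≃ₜ X) (S : Y ≃ₜ Y) (R : Z ≃ₜ Z)

/-- The minimal sets are dense. -/
def DM {X : Type*} [TopologicalSpace X] (f : X → X) : Prop :=
  ∀ P : Set X, IsClosed P → (∀ A, MinSet f A → A ⊆ P) → P = univ

lemma step1 (hS : DisjM S) (hR : IsMin R) (J : Set ((X × Y) × Z)) (hJ : IsClosed J)
    (hi : Inv (Prod.map (Prod.map T S) R) J) (h1 : Prod.fst '' J = univ)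
    (X0 : Set X) (hX0 : MinSet T X0) (y : Y) (z : Z) : ∃ x ∈ X0, ((x, y), z) ∈ J := by
  let K : Set (Y × Z) := (fun q : (X × Y) × Z => (q.1.2, q.2)) '' (J ∩ {q | q.1.1 ∈ X0})
  have hK : K = univ := by
    refine hS Z R hR K ?_ ?_ ?_ ?_
    · refine ((hJ.inter (hX0.1.preimage (by fun_prop))).isCompact.image ?_).isClosed
      fun_prop
    · rintro _ ⟨q, ⟨hq1, hq2⟩, rfl⟩
      exact ⟨_, ⟨hi q hq1, hX0.2.1 _ hq2⟩, rfl⟩
    · rw [eq_univ_iff_forall]
      intro y
      obtain ⟨x, hx⟩ := hX0.2.2.1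
      have : (x, y) ∈ Prod.fst '' J := by rw [h1]; trivial
      obtain ⟨q, hq, hq2⟩ := this
      refine ⟨(q.1.2, q.2), ⟨q, ⟨hq, ?_⟩, rfl⟩, ?_⟩
      · change q.1.1 ∈ X0
        rw [hq2]
        exact hx
      · change q.1.2 = y
        rw [hq2]
    · refine hR.2 _ ?_ ?_ ?_
      · refine IsCompact.isClosed ?_
        refine IsCompact.image ?_ continuous_snd
        refine ((hJ.inter (hX0.1.preimage (by fun_prop))).isCompact.image ?_)
        fun_prop
      · rintro _ ⟨_, ⟨q, ⟨hq1, hq2⟩, rfl⟩, rfl⟩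
        exact ⟨_, ⟨_, ⟨hi q hq1, hX0.2.1 _ hq2⟩, rfl⟩, rfl⟩
      · obtain ⟨x, hx⟩ := hX0.2.2.1
        have : (x, y) ∈ Prod.fst '' J := by rw [h1]; trivial
        obtain ⟨q, hq, hq2⟩ := this
        refine ⟨_, ⟨_, ⟨q, ⟨hq, ?_⟩, rfl⟩, rfl⟩⟩
        change q.1.1 ∈ X0
        rw [hq2]
        exact hx
  have : (y, z) ∈ K := by rw [hK]; trivial
  obtain ⟨q, ⟨hq1, hq2⟩, hq3⟩ := this
  rw [Prod.ext_iff] at hq3
  obtain ⟨e1, e2⟩ := hq3
  simp only at e1 e2
  refine ⟨q.1.1, hq2, ?_⟩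
  rw [← e1, ← e2]
  exact hq1

lemma step2 (hT : DisjM T) (hS : DisjM S) (hR : IsMin R) (hDX : DM T)
    (J : Set ((X × Y) × Z)) (hJ : IsClosed J)
    (hi : Inv (Prod.map (Prod.map T S) R) J) (h1 : Prod.fst '' J = univ)
    (W : Set (Y × Z)) (hW : MinSet (S.prodCongr R) W) (x : X) :
    W ⊆ {p | ((x, p.1), p.2) ∈ J} := by
  have : Nonempty X := ⟨x⟩
  have hWc : CompactSpace W := isCompact_iff_compactSpace.1 hW.1.isCompact
  let JW : Set (X × W) := {q | ((q.1, q.2.1.1), q.2.1.2) ∈ J}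
  have hJWc : IsClosed JW := hJ.preimage (by fun_prop)
  obtain ⟨X0, -, hX0⟩ := exists_minSet T (univ : Set X) isClosed_univ (fun _ _ => trivial)
    univ_nonempty
  have hinv : Inv (Prod.map T ((S.prodCongr R).subtype hW.mem_iff : W ≃ₜ W)) JW := by
    intro q hq
    exact hi _ hq
  have hJW : JW = univ := by
    refine hT W ((S.prodCongr R).subtype hW.mem_iff) hW.isMin JW hJWc hinv ?_ ?_
    · apply hDX
      · exact (hJWc.isCompact.image continuous_fst).isClosed
      · intro A hA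
        refine hA.subset_of_inter (hJWc.isCompact.image continuous_fst).isClosed ?_ ?_
        · rintro _ ⟨q, hq, rfl⟩
          exact ⟨_, hinv q hq, rfl⟩
        · obtain ⟨p, hp⟩ := hW.2.2.1
          obtain ⟨x', hx', h⟩ := step1 T S R hS hR J hJ hi h1 A hA p.1 p.2
          exact ⟨x', hx', (x', ⟨p, hp⟩), h, rfl⟩
    · rw [eq_univ_iff_forall]
      intro w
      obtain ⟨x', hx', h⟩ := step1 T S R hS hR J hJ hi h1 X0 hX0 w.1.1 w.1.2
      exact ⟨(x', w), h, rfl⟩
  intro p hp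
  have : (x, (⟨p, hp⟩ : W)) ∈ JW := by rw [hJW]; trivial
  exact this

lemma step3 [Nonempty Y] (hS : DisjM S) (hR : IsMin R) (hDY : DM S) : DM (S.prodCongr R) := by
  intro Q hQ hQm
  let U : Set (Y × Z) := ⋃₀ {A | MinSet (S.prodCongr R) A}
  have hUQ : closure U ⊆ Q := closure_minimal (sUnion_subset fun A hA => hQm A hA) hQ
  have hUi : Inv (Prod.map S R) U := by
    rintro x ⟨A, hA, hx⟩
    exact ⟨A, hA, hA.2.1 x hx⟩
  have hUi' : Inv (Prod.map S R) (closure U) := by
    intro x hx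
    exact map_mem_closure (S.prodCongr R).continuous hx (fun y hy => hUi y hy)
  have hcl : IsCompact (closure U) := isClosed_closure.isCompact
  have h : closure U = univ := by
    refine hS Z R hR _ isClosed_closure hUi' ?_ ?_
    · apply hDY
      · exact (hcl.image continuous_fst).isClosed
      · intro A hA
        refine hA.subset_of_inter (hcl.image continuous_fst).isClosed ?_ ?_
        · rintro _ ⟨q, hq, rfl⟩
          exact ⟨_, hUi' q hq, rfl⟩
        · have := hR.1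
          obtain ⟨W, hWs, hW⟩ := exists_minSet (S.prodCongr R) (A ×ˢ (univ : Set Z))
            (hA.1.prod isClosed_univ) (fun q hq => ⟨hA.2.1 _ hq.1, trivial⟩)
            (hA.2.2.1.prod univ_nonempty)
          obtain ⟨w, hw⟩ := hW.2.2.1
          exact ⟨w.1, (hWs hw).1, w, subset_closure ⟨W, hW, hw⟩, rfl⟩
    · refine hR.2 _ (hcl.image continuous_snd).isClosed ?_ ?_
      · rintro _ ⟨q, hq, rfl⟩
        exact ⟨_, hUi' q hq, rfl⟩
      · have := hR.1
        obtain ⟨W, -, hW⟩ := exists_minSet (S.prodCongr R) (univ : Set (Y × Z)) isClosed_univ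
          (fun _ _ => trivial) univ_nonempty
        obtain ⟨w, hw⟩ := hW.2.2.1
        exact ⟨w.2, w, subset_closure ⟨W, hW, hw⟩, rfl⟩
  rw [h] at hUQ
  exact eq_univ_of_univ_subset hUQ

/-- The product theorem, given density of the minimal sets. -/
lemma prod_disj [Nonempty Y] (hT : DisjM T) (hS : DisjM S) (hDX : DM T) (hDY : DM S) :
    DisjM (T.prodCongr S) := by
  intro Z _ _ _ R hR J hJ hi h1 h2
  rw [eq_univ_iff_forall]
  rintro ⟨⟨x, y⟩, z⟩
  have h : {p : Y × Z | ((x, p.1), p.2) ∈ J} = univ :=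
    step3 S R hS hR hDY _ (hJ.preimage (by fun_prop))
      (fun W hW => step2 T S R hT hS hR hDX J hJ hi h1 W hW x)
  have : (y, z) ∈ {p : Y × Z | ((x, p.1), p.2) ∈ J} := by rw [h]; trivial
  exact this

end main

end Pool.Agent.H694R3.Dj
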