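import Mathlib

open Filter Topology ComplexConjugate

namespace Pool.Agent.H694R3.Hs

noncomputable section

section weak

variable {𝕜 : Type*} [RCLike 𝕜] {H : Type*} [NormedAddCommGroup H] [InnerProductSpace 𝕜 H]
  [CompleteSpace H]

/-- Bounded sequences have weak limits along ultrafilters. -/
lemma exists_weak_limit (𝒰 : Ultrafilter ℕ) (u : ℕ → H) (C : ℝ) (hu : ∀ k, ‖u k‖ ≤ C) :
    ∃ v : H, ∀ y, Tendsto (fun k => inner 𝕜 (u k) y) 𝒰 (𝓝 (inner 𝕜 v y)) := by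
  let w : ℕ → WeakDual 𝕜 H := fun k => StrongDual.toWeakDual (InnerProductSpace.toDual 𝕜 H (u k))
  have hc : IsCompact (WeakDual.toStrongDual ⁻¹' Metric.closedBall (0 : StrongDual 𝕜 H) C) :=
    WeakDual.isCompact_closedBall 0 C
  have hmem : ∀ k, w k ∈ (WeakDual.toStrongDual ⁻¹' Metric.closedBall (0 : StrongDual 𝕜 H) C) := by
    intro k
    have h0 : InnerProductSpace.toDual 𝕜 H (u k) ∈ Metric.closedBall (0 : StrongDual 𝕜 H) C := by
      rw [mem_closedBall_zero_iff, LinearIsometryEquiv.norm_map]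
      exact hu k
    exact h0
  have h1 : ((𝒰.map w : Ultrafilter (WeakDual 𝕜 H)) : Filter (WeakDual 𝕜 H))
      ≤ 𝓟 (WeakDual.toStrongDual ⁻¹' Metric.closedBall (0 : StrongDual 𝕜 H) C) := by
    rw [le_principal_iff, Ultrafilter.coe_map, mem_map]
    exact Eventually.of_forall hmem
  obtain ⟨ℓ, -, hℓ⟩ := hc.ultrafilter_le_nhds (𝒰.map w) h1
  refine ⟨(InnerProductSpace.toDual 𝕜 H).symm (WeakDual.toStrongDual ℓ), fun y => ?_⟩
  rw [InnerProductSpace.toDual_symm_apply]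
  have h2 : Tendsto w 𝒰 (𝓝 ℓ) := by
    rw [Ultrafilter.coe_map] at hℓ
    exact hℓ
  have h3 := ((WeakDual.eval_continuous (𝕜 := 𝕜) y).tendsto ℓ).comp h2
  exact h3

end weak

section iso

variable {𝕜 : Type*} [RCLike 𝕜] {H : Type*} [NormedAddCommGroup H] [InnerProductSpace 𝕜 H]

lemma zpow_add_apply (U : H ≃ₗᵢ[𝕜] H) (m n : ℤ) (v : H) :
    (U ^ (m + n)) v = (U ^ m) ((U ^ n) v) := by
  rw [zpow_add]; rfl

lemma inner_zpow (U : H ≃ₗᵢ[𝕜] H) (m : ℤ) (a b : H) :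
    inner 𝕜 ((U ^ m) a) b = inner 𝕜 a ((U ^ (-m)) b) := by
  rw [← LinearIsometryEquiv.inner_map_map (U ^ (-m)) ((U ^ m) a) b, ← zpow_add_apply]
  simp

lemma inner_zpow' (U : H ≃ₗᵢ[𝕜] H) (m : ℤ) (a b : H) :
    inner 𝕜 a ((U ^ m) b) = inner 𝕜 ((U ^ (-m)) a) b := by
  rw [inner_zpow, neg_neg]

end iso

section collapse

variable {𝕜 : Type*} [RCLike 𝕜] {H : Type*} [NormedAddCommGroup H] [InnerProductSpace 𝕜 H]
  [CompleteSpace H] {X : Type*} [TopologicalSpace X]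

lemma homeo_zpow_add_apply (S : X ≃ₜ X) (m n : ℤ) (v : X) :
    (S ^ (m + n)) v = (S ^ m) ((S ^ n) v) := by
  rw [zpow_add]; rfl

/-- The collapsing lemma along one scale. -/
lemma collapse_scale (S : X ≃ₜ X) (x : ℕ → X) (t : ℕ → ℕ)
    (hp : ∀ l, Tendsto (fun k => (S ^ (t k : ℤ)) (x l)) atTop (𝓝 (x (l + 1))))
    (hn : ∀ l, Tendsto (fun k => (S ^ (-(t k : ℤ))) (x l)) atTop (𝓝 (x (l + 1))))
    (z : X) (hz : ∃ L, ∀ l, L ≤ l → ∀ m : ℤ, (S ^ m) (x l) = z)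
    (F : X → 𝕜) (hF : Continuous F) (U : H ≃ₗᵢ[𝕜] H) (ξ : H)
    (hξ : ∀ m : ℤ, inner 𝕜 ξ ((U ^ m) ξ) = F ((S ^ m) (x 0))) :
    ∀ l, 1 ≤ l → ∀ m : ℤ, F ((S ^ m) (x l)) = F z := by
  set 𝒰 : Ultrafilter ℕ := hyperfilter ℕ with h𝒰
  have hle : (𝒰 : Filter ℕ) ≤ atTop := by
    rw [← Nat.cofinite_eq_atTop]
    exact hyperfilter_le_cofinite
  have step : ∀ v : H, ∃ w : H, ∀ y, Tendsto (fun k => inner 𝕜 ((U ^ (t k : ℤ)) v) y) 𝒰
      (𝓝 (inner 𝕜 w y)) := fun v =>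
    exists_weak_limit 𝒰 (fun k => (U ^ (t k : ℤ)) v) ‖v‖ (fun k => by
      rw [LinearIsometryEquiv.norm_map])
  choose W hW using step
  let V : ℕ → H := fun l => W^[l] ξ
  have hV : ∀ l y, Tendsto (fun k => inner 𝕜 ((U ^ (t k : ℤ)) (V l)) y) 𝒰
      (𝓝 (inner 𝕜 (V (l + 1)) y)) := by
    intro l y
    have : V (l + 1) = W (V l) := Function.iterate_succ_apply' W l ξ
    rw [this]
    exact hW (V l) y
  -- step A
  have stepA : ∀ (a : H) (l p : ℕ), (∀ m : ℤ, inner 𝕜 a ((U ^ m) (V l)) = F ((S ^ m) (x p))) →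
      ∀ m : ℤ, inner 𝕜 a ((U ^ m) (V (l + 1))) = F ((S ^ m) (x (p + 1))) := by
    intro a l p h m
    have h1 : Tendsto (fun k => inner 𝕜 ((U ^ (-m)) a) ((U ^ (t k : ℤ)) (V l))) 𝒰
        (𝓝 (inner 𝕜 ((U ^ (-m)) a) (V (l + 1)))) := by
      have := (RCLike.continuous_conj.tendsto _).comp (hV l ((U ^ (-m)) a))
      rw [inner_conj_symm] at this
      refine this.congr fun k => ?_
      simp only [Function.comp_apply]
      rw [inner_conj_symm]
    have h2 : Tendsto (fun k => inner 𝕜 ((U ^ (-m)) a) ((U ^ (t k : ℤ)) (V l))) 𝒰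
        (𝓝 (F ((S ^ m) (x (p + 1))))) := by
      have h3 : Tendsto (fun k => F ((S ^ m) ((S ^ (t k : ℤ)) (x p)))) 𝒰
          (𝓝 (F ((S ^ m) (x (p + 1))))) :=
        (((hF.comp (S ^ m).continuous).tendsto _).comp (hp p)).mono_left hle
      refine h3.congr fun k => ?_
      rw [← inner_zpow', ← zpow_add_apply, h, homeo_zpow_add_apply]
    rw [inner_zpow']
    exact tendsto_nhds_unique h1 h2
  have stepB : ∀ (b : H) (l p : ℕ), (∀ m : ℤ, inner 𝕜 (V l) ((U ^ m) b) = F ((S ^ m) (x p))) →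
      ∀ m : ℤ, inner 𝕜 (V (l + 1)) ((U ^ m) b) = F ((S ^ m) (x (p + 1))) := by
    intro b l p h m
    have h1 := hV l ((U ^ m) b)
    have h2 : Tendsto (fun k => inner 𝕜 ((U ^ (t k : ℤ)) (V l)) ((U ^ m) b)) 𝒰
        (𝓝 (F ((S ^ m) (x (p + 1))))) := by
      have h3 : Tendsto (fun k => F ((S ^ m) ((S ^ (-(t k : ℤ))) (x p)))) 𝒰
          (𝓝 (F ((S ^ m) (x (p + 1))))) :=
        (((hF.comp (S ^ m).continuous).tendsto _).comp (hn p)).mono_left hle
      refine h3.congr fun k => ?_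
      rw [inner_zpow, ← zpow_add_apply, ← homeo_zpow_add_apply, ← h, add_comm]
    exact tendsto_nhds_unique h1 h2
  have gram0 : ∀ l (m : ℤ), inner 𝕜 (V 0) ((U ^ m) (V l)) = F ((S ^ m) (x l)) := by
    intro l
    induction l with
    | zero => exact hξ
    | succ l ih => exact stepA (V 0) l l ih
  have gram : ∀ l' l (m : ℤ), inner 𝕜 (V l') ((U ^ m) (V l)) = F ((S ^ m) (x (l + l'))) := by
    intro l' l
    induction l' with
    | zero => exact gram0 l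
    | succ l' ih => exact stepB (V l) l' (l + l') ih
  have halve : ∀ a, (∀ l, 2 * a ≤ l → ∀ m : ℤ, F ((S ^ m) (x l)) = F z) →
      ∀ l, a ≤ l → ∀ m : ℤ, F ((S ^ m) (x l)) = F z := by
    intro a ha l hl m
    have e1 : ∀ p q : ℕ, 2 * a ≤ p + q → inner 𝕜 (V q) (V p) = F z := by
      intro p q hpq
      have := gram q p 0
      rw [ha _ hpq] at this
      simpa using this
    have e2 : V l - V (2 * a) = 0 := by
      rw [← inner_self_eq_zero (𝕜 := 𝕜), inner_sub_left, inner_sub_right, inner_sub_right,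
        e1 _ _ (by omega), e1 _ _ (by omega), e1 _ _ (by omega), e1 _ _ (by omega)]
      ring
    have e3 : V l = V (2 * a) := sub_eq_zero.1 e2
    have e4 := gram 0 l m
    rw [e3, gram 0 (2 * a) m, ha _ (by omega)] at e4
    simpa using e4.symm
  obtain ⟨L, hL⟩ := hz
  have base : ∀ l, 2 ^ L ≤ l → ∀ m : ℤ, F ((S ^ m) (x l)) = F z := by
    intro l hl m
    rw [hL l (le_trans (Nat.lt_two_pow_self).le hl)]
  have down : ∀ i, (∀ l, 2 ^ i ≤ l → ∀ m : ℤ, F ((S ^ m) (x l)) = F z) →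
      ∀ l, 1 ≤ l → ∀ m : ℤ, F ((S ^ m) (x l)) = F z := by
    intro i
    induction i with
    | zero => intro h; simpa using h
    | succ i ih =>
      intro h
      exact ih (halve (2 ^ i) (by rwa [pow_succ, mul_comm] at h))
  exact down L base

/-- The collapsing lemma. -/
lemma collapse (S : X ≃ₜ X) (x₀ z : X) (x : ℕ → ℕ → X) (t : ℕ → ℕ → ℕ)
    (h0 : ∀ j, x j 0 = x₀)
    (hp : ∀ j l, Tendsto (fun k => (S ^ (t j k : ℤ)) (x j l)) atTop (𝓝 (x j (l + 1))))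
    (hn : ∀ j l, Tendsto (fun k => (S ^ (-(t j k : ℤ))) (x j l)) atTop (𝓝 (x j (l + 1))))
    (hz : ∀ j, ∃ L, ∀ l, L ≤ l → ∀ m : ℤ, (S ^ m) (x j l) = z)
    (h1 : Tendsto (fun j => x j 1) atTop (𝓝 x₀))
    (F : X → 𝕜) (hF : Continuous F) (U : H ≃ₗᵢ[𝕜] H) (ξ : H)
    (hξ : ∀ m : ℤ, inner 𝕜 ξ ((U ^ m) ξ) = F ((S ^ m) x₀)) : U ξ = ξ := by
  have key : ∀ m : ℤ, inner 𝕜 ξ ((U ^ m) ξ) = F z := by
    intro m
    rw [hξ m]
    have h2 : Tendsto (fun j => F ((S ^ m) (x j 1))) atTop (𝓝 (F ((S ^ m) x₀))) :=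
      ((hF.comp (S ^ m).continuous).tendsto _).comp h1
    refine tendsto_nhds_unique h2 ?_
    refine tendsto_const_nhds.congr fun j => ?_
    refine (collapse_scale S (x j) (t j) (hp j) (hn j) z (hz j) F hF U ξ ?_ 1 le_rfl m).symm
    intro m
    rw [h0 j, hξ m]
  have k0 : inner 𝕜 ξ ξ = F z := by simpa using key 0
  have k1 : inner 𝕜 ξ (U ξ) = F z := by simpa using key 1
  have k2 : inner 𝕜 (U ξ) ξ = F z := by
    have := key (-1)
    rw [inner_zpow'] at this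
    simpa using this
  have k3 : inner 𝕜 (U ξ) (U ξ) = F z := by rw [LinearIsometryEquiv.inner_map_map, k0]
  have k4 : inner 𝕜 (U ξ - ξ) (U ξ - ξ) = 0 := by
    rw [inner_sub_left, inner_sub_right, inner_sub_right, k0, k1, k2, k3]
    ring
  exact sub_eq_zero.1 (inner_self_eq_zero.1 k4)

end collapse

end

end Pool.Agent.H694R3.Hs
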