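import Mathlib
import Pool.Agent.H694R3.Dj1
import Pool.Agent.H694R3.Hs2

open Filter Topology Set

namespace Pool.Agent.H694R3.Dj

open Pool.Agent.H694R3.Hs (homeo_zpow_add_apply)

universe u

section words

variable (Nf : ℕ → ℕ) (q : ℕ)

/-- Number of blocks. -/
def cc (l : ℕ) : ℕ := Nf ((q ^ l + 1) * l) + q ^ l + 1

/-- Word lengths. -/
def ell : ℕ → ℕ
  | 0 => 1
  | k + 1 => cc Nf q (ell k) * ell k

lemma ell_succ (k : ℕ) : ell Nf q (k + 1) = cc Nf q (ell Nf q k) * ell Nf q k := rfl

lemma ell_pos (k : ℕ) : 0 < ell Nf q k := by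
  induction k with
  | zero => exact Nat.one_pos
  | succ k ih =>
    rw [ell_succ]
    exact Nat.mul_pos (by unfold cc; omega) ih

lemma two_mul_ell_le (hq : 0 < q) (k : ℕ) : 2 * ell Nf q k ≤ ell Nf q (k + 1) := by
  rw [ell_succ]
  refine Nat.mul_le_mul_right _ ?_
  unfold cc
  have : 0 < q ^ ell Nf q k := Nat.pow_pos hq
  omega

lemma lt_ell (hq : 0 < q) (k : ℕ) : k < ell Nf q k := by
  induction k with
  | zero => exact Nat.one_pos
  | succ k ih =>
    have := two_mul_ell_le Nf q hq k
    omega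

lemma ell_mono (hq : 0 < q) : Monotone (ell Nf q) :=
  monotone_nat_of_le_succ fun k => by
    have := two_mul_ell_le Nf q hq k
    omega

lemma ell_dvd (k d : ℕ) : ell Nf q k ∣ ell Nf q (k + d) := by
  induction d with
  | zero => exact dvd_rfl
  | succ d ih =>
    rw [← add_assoc, ell_succ]
    exact Dvd.dvd.mul_left ih _

variable {B : Type u}

/-- `f` carries a word of level `k` at position `s`. -/
def IsW : ℕ → (ℤ → B) → ℤ → Prop
  | 0, _, _ => True
  | k + 1, f, s => (∀ i : ℕ, i < cc Nf q (ell Nf q k) → IsW k f (s + i * ell Nf q k)) ∧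
      ∀ g : ℤ → B, IsW k g 0 → ∃ i : ℕ, i < cc Nf q (ell Nf q k) ∧
        ∀ j : ℕ, j < ell Nf q k → f (s + i * ell Nf q k + j) = g j

lemma IsW_congr (k : ℕ) : ∀ (f g : ℤ → B) (s t : ℤ),
    (∀ j : ℕ, j < ell Nf q k → f (s + j) = g (t + j)) → IsW Nf q k f s → IsW Nf q k g t := by
  induction k with
  | zero => intro f g s t _ _; trivial
  | succ k ih =>
    intro f g s t h hf
    have key : ∀ i : ℕ, i < cc Nf q (ell Nf q k) → ∀ j : ℕ, j < ell Nf q k →
        f (s + i * ell Nf q k + j) = g (t + i * ell Nf q k + j) := by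
      intro i hi j hj
      have h1 : i * ell Nf q k + j < ell Nf q (k + 1) := by
        rw [ell_succ]
        calc i * ell Nf q k + j < i * ell Nf q k + ell Nf q k := by omega
          _ = (i + 1) * ell Nf q k := by ring
          _ ≤ _ := Nat.mul_le_mul_right _ hi
      have h2 := h _ h1
      push_cast at h2
      rw [← add_assoc, ← add_assoc] at h2
      exact h2
    refine ⟨fun i hi => ih f g _ _ (fun j hj => key i hi j hj) (hf.1 i hi), fun w hw => ?_⟩
    obtain ⟨i, hi, h3⟩ := hf.2 w hw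
    exact ⟨i, hi, fun j hj => by rw [← key i hi j hj]; exact h3 j hj⟩

lemma IsW_sub (k d : ℕ) : ∀ (f : ℤ → B) (s : ℤ), IsW Nf q (k + d) f s → ∀ i : ℕ,
    (i + 1) * ell Nf q k ≤ ell Nf q (k + d) → IsW Nf q k f (s + i * ell Nf q k) := by
  induction d with
  | zero =>
    intro f s h i hi
    have hp := ell_pos Nf q k
    have : i = 0 := by
      by_contra h0
      have : 2 * ell Nf q k ≤ (i + 1) * ell Nf q k := Nat.mul_le_mul_right _ (by omega)
      simp only [add_zero] at hi
      omega
    subst this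
    simpa using h
  | succ d ih =>
    intro f s h i hi
    obtain ⟨r, hr⟩ := ell_dvd Nf q k d
    have hp := ell_pos Nf q k
    have hp' := ell_pos Nf q (k + d)
    have hr0 : 0 < r := by
      by_contra h0
      have : r = 0 := by omega
      rw [this, mul_zero] at hr
      omega
    have hb : i / r < cc Nf q (ell Nf q (k + d)) := by
      rw [← add_assoc, ell_succ, hr] at hi
      have h1 : (i + 1) * ell Nf q k ≤ (cc Nf q (ell Nf q k * r) * r) * ell Nf q k := by
        calc (i + 1) * ell Nf q k ≤ _ := hi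
          _ = _ := by ring
      have h2 : i + 1 ≤ cc Nf q (ell Nf q k * r) * r := Nat.le_of_mul_le_mul_right h1 hp
      rw [hr]
      rw [Nat.div_lt_iff_lt_mul hr0]
      omega
    have h1 : IsW Nf q k f (s + ((i / r : ℕ) : ℤ) * (ell Nf q (k + d) : ℤ)
        + ((i % r : ℕ) : ℤ) * (ell Nf q k : ℤ)) := ih f _ (h.1 (i / r) hb) (i % r) (by
      rw [hr, mul_comm (ell Nf q k) r]
      exact Nat.mul_le_mul_right _ (Nat.mod_lt _ hr0))
    have e : s + ((i / r : ℕ) : ℤ) * (ell Nf q (k + d) : ℤ) + ((i % r : ℕ) : ℤ) * (ell Nf q k : ℤ)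
        = s + i * ell Nf q k := by
      rw [hr]
      have h3 : ((r * (i / r) + i % r : ℕ) : ℤ) = (i : ℤ) := by rw [Nat.div_add_mod]
      push_cast at h3 ⊢
      linear_combination (ell Nf q k : ℤ) * h3
    rw [e] at h1
    exact h1

end words

section adapted

variable {X : Type*} [TopologicalSpace X] (T : X ≃ₜ X) (U : Set X) (Nf : ℕ → ℕ)
  {B : Type u} [Fintype B] (a : B)

open Classical in
lemma exists_adapted (b : B) (hb : b ≠ a)
    (hN : ∀ L x, ∃ m < Nf L, ∀ j < L, (T ^ ((m + j : ℕ) : ℤ)) x ∉ U) (k : ℕ) :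
    ∀ x : X, ∃ f : ℤ → B, IsW Nf (Fintype.card B) k f 0 ∧
      ∀ j : ℕ, j < ell Nf (Fintype.card B) k → f j = a → (T ^ (j : ℤ)) x ∉ U := by
  induction k with
  | zero =>
    intro x
    exact ⟨fun _ => b, trivial, fun j _ h => absurd h hb⟩
  | succ k ih =>
    intro x
    obtain ⟨q, hq⟩ : ∃ q, q = Fintype.card B := ⟨_, rfl⟩
    rw [← hq] at ih ⊢
    obtain ⟨l, hl⟩ : ∃ l, l = ell Nf q k := ⟨_, rfl⟩
    have hlp : 0 < l := hl ▸ ell_pos Nf q k
    have hlp' : (0 : ℤ) < l := by exact_mod_cast hlp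
    choose F hF1 hF2 using ih
    rw [← hl] at hF2
    obtain ⟨m, hm, hm2⟩ := hN ((q ^ l + 1) * l) x
    obtain ⟨i₀, hi₀⟩ : ∃ i₀, i₀ = m / l + 1 := ⟨_, rfl⟩
    have hi1 : m < i₀ * l := by
      rw [hi₀]
      have h1 := Nat.div_add_mod m l
      have h2 := Nat.mod_lt m hlp
      nlinarith
    have hi2 : i₀ * l ≤ m + l := by
      rw [hi₀]
      have h1 := Nat.div_mul_le_self m l
      nlinarith
    have hi3 : i₀ ≤ m + 1 := by
      rw [hi₀]
      have := Nat.div_le_self m l
      omega
    have hcard : Fintype.card (Fin l → B) = q ^ l := by simp [hq]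
    let e : (Fin l → B) ≃ Fin (q ^ l) := Fintype.equivFinOfCardEq hcard
    let ex : (Fin l → B) → ℤ → B := fun w n => if h : n.toNat < l then w ⟨n.toNat, h⟩ else a
    have hex : ∀ (w : Fin l → B) (j : ℕ) (hj : j < l), ex w j = w ⟨j, hj⟩ := by
      intro w j hj
      simp [ex, hj]
    let blk : ℕ → ℤ → B := fun i =>
      if h : i₀ ≤ i ∧ ∃ h : i - i₀ < q ^ l, IsW Nf q k (ex (e.symm ⟨i - i₀, h⟩)) 0 then
        ex (e.symm ⟨i - i₀, h.2.choose⟩) else F ((T ^ ((i * l : ℕ) : ℤ)) x)
    have hblk : ∀ i, IsW Nf q k (blk i) 0 := by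
      intro i
      by_cases h : i₀ ≤ i ∧ ∃ h : i - i₀ < q ^ l, IsW Nf q k (ex (e.symm ⟨i - i₀, h⟩)) 0
      · simp only [blk, dif_pos h]
        exact h.2.choose_spec
      · simp only [blk, dif_neg h]
        exact hF1 _
    let G : ℤ → B := fun n => blk (n / l).toNat (n % l)
    have hG : ∀ (i j : ℕ), j < l → G (i * l + j) = blk i j := by
      intro i j hj
      have h1 : ((i * l + j : ℤ) / l) = i := by
        rw [add_comm, Int.add_mul_ediv_right _ _ hlp'.ne', Int.ediv_eq_zero_of_lt (by positivity)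
          (by exact_mod_cast hj), zero_add]
      have h2 : ((i * l + j : ℤ) % l) = j := by
        rw [add_comm, Int.add_mul_emod_self_right, Int.emod_eq_of_lt (by positivity)
          (by exact_mod_cast hj)]
      simp only [G]
      rw [h1, h2, Int.toNat_natCast]
    refine ⟨G, ⟨?_, ?_⟩, ?_⟩
    · intro i hi
      refine IsW_congr Nf q k (blk i) G 0 _ ?_ (hblk i)
      intro j hj
      rw [← hl] at hj ⊢
      rw [zero_add, zero_add, hG i j hj]
    · intro g hg
      let w : Fin l → B := fun j => g (j : ℕ)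
      have hw : IsW Nf q k (ex w) 0 := by
        refine IsW_congr Nf q k g (ex w) 0 0 ?_ hg
        intro j hj
        rw [← hl] at hj
        rw [zero_add, hex w j hj]
      have hlt : (e w : ℕ) < q ^ l := (e w).2
      refine ⟨i₀ + e w, ?_, ?_⟩
      · rw [← hl]
        unfold cc
        omega
      · intro j hj
        rw [← hl] at hj ⊢
        rw [zero_add, hG _ j hj]
        have h1 : i₀ + (e w : ℕ) - i₀ = e w := by omega
        have h : i₀ ≤ i₀ + (e w : ℕ) ∧ ∃ h : i₀ + (e w : ℕ) - i₀ < q ^ l,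
            IsW Nf q k (ex (e.symm ⟨i₀ + (e w : ℕ) - i₀, h⟩)) 0 := by
          refine ⟨by omega, by omega, ?_⟩
          simp only [h1, Fin.eta, Equiv.symm_apply_apply]
          exact hw
        simp only [blk, dif_pos h]
        simp only [h1, Fin.eta, Equiv.symm_apply_apply]
        rw [hex w j hj]
    · intro n hn hna
      have hd := Nat.div_add_mod n l
      have hml := Nat.mod_lt n hlp
      have h1 : G (n : ℤ) = blk (n / l) ((n % l : ℕ) : ℤ) := by
        rw [← hG _ _ hml]
        congr 1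
        have : ((l * (n / l) + n % l : ℕ) : ℤ) = (n : ℤ) := by rw [hd]
        push_cast at this ⊢
        linarith
      rw [h1] at hna
      by_cases h : i₀ ≤ n / l ∧ ∃ h : n / l - i₀ < q ^ l,
          IsW Nf q k (ex (e.symm ⟨n / l - i₀, h⟩)) 0
      · have h2 : m ≤ n := by
          have h3 : i₀ * l ≤ (n / l) * l := Nat.mul_le_mul_right _ h.1
          have h4 := Nat.div_mul_le_self n l
          omega
        have h5 : n - m < (q ^ l + 1) * l := by
          obtain ⟨h6, -⟩ := h.2
          have h7 : n / l + 1 ≤ i₀ + q ^ l := by omega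
          have h8 : (n / l + 1) * l ≤ (i₀ + q ^ l) * l := Nat.mul_le_mul_right _ h7
          have h9 : n < (n / l + 1) * l := by nlinarith
          have h10 : (i₀ + q ^ l) * l ≤ m + (q ^ l + 1) * l := by nlinarith
          omega
        have := hm2 (n - m) h5
        rwa [show m + (n - m) = n by omega] at this
      · simp only [blk, dif_neg h] at hna
        have h2 := hF2 _ _ hml hna
        rw [← homeo_zpow_add_apply] at h2
        have h3 : (((n % l : ℕ) : ℤ) + ((n / l * l : ℕ) : ℤ)) = (n : ℤ) := by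
          have : ((l * (n / l) + n % l : ℕ) : ℤ) = (n : ℤ) := by rw [hd]
          push_cast at this ⊢
          linarith
        rwa [h3] at h2

end adapted

end Pool.Agent.H694R3.Dj
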