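import Mathlib
import Pool.Agent.H694R3.Dj2

open Filter Topology Set

namespace Pool.Agent.H694R3.Dj

open Pool.Agent.H694R3.Hs (homeo_zpow_add_apply)

universe u

section subshift

variable (Nf : ℕ → ℕ) (q : ℕ) {B : Type u}

/-- The window condition. -/
def Win (n : ℕ) (z : ℤ → B) : Prop :=
  ∃ (k : ℕ) (g : ℤ → B) (s : ℕ), IsW Nf q k g 0 ∧ n ≤ s ∧ s + n < ell Nf q k ∧
    ∀ j : ℤ, -(n : ℤ) ≤ j → j ≤ n → z j = g (s + j)

/-- The subshift. -/
def ZZ : Set (ℤ → B) := {z | ∀ n, Win Nf q n z}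

lemma Win.mono {n m : ℕ} (h : n ≤ m) {z : ℤ → B} (hz : Win Nf q m z) : Win Nf q n z := by
  obtain ⟨k, g, s, h1, h2, h3, h4⟩ := hz
  exact ⟨k, g, s, h1, by omega, by omega, fun j hj1 hj2 => h4 j (by omega) (by omega)⟩

lemma Win.congr {n : ℕ} {z z' : ℤ → B} (hz : Win Nf q n z)
    (h : ∀ j : ℤ, -(n : ℤ) ≤ j → j ≤ n → z' j = z j) : Win Nf q n z' := by
  obtain ⟨k, g, s, h1, h2, h3, h4⟩ := hz
  exact ⟨k, g, s, h1, h2, h3, fun j hj1 hj2 => by rw [h j hj1 hj2, h4 j hj1 hj2]⟩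

/-- The shift. -/
def sft [TopologicalSpace B] : (ℤ → B) ≃ₜ (ℤ → B) where
  toFun g m := g (m + 1)
  invFun g m := g (m - 1)
  left_inv g := by funext m; simp
  right_inv g := by funext m; simp
  continuous_toFun := by fun_prop
  continuous_invFun := by fun_prop

variable [TopologicalSpace B]

lemma sft_mem_iff (z : ℤ → B) : z ∈ ZZ Nf q ↔ sft z ∈ ZZ Nf q := by
  constructor
  · intro hz n
    obtain ⟨k, g, s, h1, h2, h3, h4⟩ := hz (n + 1)
    refine ⟨k, g, s + 1, h1, by omega, by omega, fun j hj1 hj2 => ?_⟩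
    change z (j + 1) = _
    rw [h4 (j + 1) (by push_cast; omega) (by push_cast; omega)]
    congr 1
    push_cast
    ring
  · intro hz n
    obtain ⟨k, g, s, h1, h2, h3, h4⟩ := hz (n + 1)
    refine ⟨k, g, s - 1, h1, by omega, by omega, fun j hj1 hj2 => ?_⟩
    have := h4 (j - 1) (by push_cast; omega) (by push_cast; omega)
    change z (j - 1 + 1) = _ at this
    rw [sub_add_cancel] at this
    rw [this]
    congr 1
    have : 1 ≤ s := by omega
    push_cast [this]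
    ring

/-- The shift on the subshift. -/
def sZ : (ZZ Nf q : Set (ℤ → B)) ≃ₜ (ZZ Nf q : Set (ℤ → B)) := sft.subtype (sft_mem_iff Nf q)

variable [DiscreteTopology B] [Finite B]

lemma isClosed_win (n : ℕ) (P : (ℤ → B) → Prop)
    (hP : ∀ z z' : ℤ → B, (∀ j : ℤ, -(n : ℤ) ≤ j → j ≤ n → z' j = z j) → P z → P z') :
    IsClosed {z : ℤ → B | P z} := by
  let r : (ℤ → B) → (Set.Icc (-(n : ℤ)) n → B) := fun z j => z j
  have hr : Continuous r := by fun_prop
  have h1 : {z : ℤ → B | P z} = r ⁻¹' (r '' {z : ℤ → B | P z}) := by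
    apply Subset.antisymm (subset_preimage_image _ _)
    rintro z ⟨z', hz', h⟩
    refine hP z' z (fun j hj1 hj2 => ?_) hz'
    have := congrFun h ⟨j, hj1, hj2⟩
    exact this.symm
  rw [h1]
  exact (isClosed_discrete _).preimage hr

lemma isClosed_ZZ : IsClosed (ZZ Nf q : Set (ℤ → B)) := by
  have : (ZZ Nf q : Set (ℤ → B)) = ⋂ n, {z | Win Nf q n z} := by
    ext z; simp [ZZ]
  rw [this]
  exact isClosed_iInter fun n => isClosed_win n _ fun z z' h hz => Win.congr Nf q hz h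

omit [TopologicalSpace B] [DiscreteTopology B] [Finite B] in
/-- Every word occurs. -/
lemma occurs (hq : 0 < q) (z : ℤ → B) (hz : z ∈ ZZ Nf q) (k : ℕ) (g : ℤ → B)
    (hg : IsW Nf q k g 0) : ∃ t : ℕ, ∀ j : ℕ, j < ell Nf q k → z (t + j) = g j := by
  obtain ⟨l, hl⟩ : ∃ l, l = ell Nf q (k + 1) := ⟨_, rfl⟩
  have hlp : 0 < l := hl ▸ ell_pos Nf q (k + 1)
  obtain ⟨K, w, s, h1, h2, h3, h4⟩ := hz (2 * l)
  have hK : k + 1 ≤ K := by
    by_contra hcon
    have : ell Nf q K ≤ ell Nf q (k + 1) := ell_mono Nf q hq (by omega)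
    omega
  obtain ⟨d, rfl⟩ := Nat.exists_eq_add_of_le hK
  obtain ⟨r, hr⟩ := ell_dvd Nf q (k + 1) d
  rw [← hl] at hr
  -- the first block starting at or after `s`
  obtain ⟨i, hi⟩ : ∃ i, i = s / l + 1 := ⟨_, rfl⟩
  have hi1 : s < i * l := by
    have h5 := Nat.div_add_mod s l
    have h6 := Nat.mod_lt s hlp
    rw [hi]
    nlinarith
  have hi2 : i * l ≤ s + l := by
    have h5 := Nat.div_mul_le_self s l
    rw [hi]
    nlinarith
  have h7 : IsW Nf q (k + 1) w (0 + i * ell Nf q (k + 1)) := by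
    refine IsW_sub Nf q (k + 1) d w 0 h1 i ?_
    rw [← hl]
    have : (i + 1) * l ≤ s + 2 * l := by nlinarith
    omega
  obtain ⟨b, hb, h8⟩ := h7.2 g hg
  obtain ⟨t, ht⟩ : ∃ t, t = i * l - s + b * ell Nf q k := ⟨_, rfl⟩
  refine ⟨t, fun j hj => ?_⟩
  have h9 : b * ell Nf q k + j < l := by
    rw [hl, ell_succ]
    calc b * ell Nf q k + j < b * ell Nf q k + ell Nf q k := by omega
      _ = (b + 1) * ell Nf q k := by ring
      _ ≤ _ := Nat.mul_le_mul_right _ hb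
  rw [h4 _ (by omega) (by
    have : t + j ≤ 2 * l := by omega
    exact_mod_cast this), ← h8 j hj]
  congr 1
  have h10 : (t : ℤ) = i * l - s + b * ell Nf q k := by
    rw [ht]
    push_cast [Nat.cast_sub hi1.le]
    ring
  rw [h10, ← hl]
  ring

lemma ZZ_min (hq : 0 < q) (hne : (ZZ Nf q : Set (ℤ → B)).Nonempty) :
    IsMin (sZ Nf q : (ZZ Nf q : Set (ℤ → B)) ≃ₜ (ZZ Nf q : Set (ℤ → B))) := by
  refine ⟨hne.to_subtype, fun A hA hi hAne => ?_⟩
  rw [eq_univ_iff_forall]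
  intro z'
  obtain ⟨z, hz⟩ := hAne
  have hit : ∀ t : ℕ, ∃ w ∈ A, ∀ j : ℤ, (w : ℤ → B) j = (z : ℤ → B) (t + j) := by
    intro t
    induction t with
    | zero => exact ⟨z, hz, fun j => by simp⟩
    | succ t ih =>
      obtain ⟨w, hw, h⟩ := ih
      refine ⟨sZ Nf q w, hi w hw, fun j => ?_⟩
      change (w : ℤ → B) (j + 1) = _
      rw [h]
      congr 1
      push_cast
      ring
  have key : ∀ n : ℕ, ∃ w ∈ A, ∀ j : ℤ, -(n : ℤ) ≤ j → j ≤ n →
      (w : ℤ → B) j = (z' : ℤ → B) j := by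
    intro n
    obtain ⟨k, g, s, h1, h2, h3, h4⟩ := z'.2 n
    obtain ⟨t, ht⟩ := occurs Nf q hq z z.2 k g h1
    obtain ⟨w, hw, h⟩ := hit (t + s)
    refine ⟨w, hw, fun j hj1 hj2 => ?_⟩
    rw [h, h4 j hj1 hj2]
    have h5 := ht (s + j).toNat (by omega)
    rw [Int.toNat_of_nonneg (by omega)] at h5
    rw [← h5]
    congr 1
    push_cast
    ring
  choose w hw hw2 using key
  refine hA.mem_of_tendsto (f := w) (b := atTop) ?_ (Eventually.of_forall hw)
  rw [tendsto_subtype_rng, tendsto_pi_nhds]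
  intro j
  refine tendsto_const_nhds.congr' ?_
  filter_upwards [eventually_ge_atTop j.natAbs] with n hn
  rw [hw2 n j (by omega) (by omega)]

end subshift

section density

variable {X : Type u} [TopologicalSpace X] [CompactSpace X]
  (T : X ≃ₜ X) (U : Set X) (Nf : ℕ → ℕ)
  {B : Type u} [Fintype B] [TopologicalSpace B] [DiscreteTopology B] (a : B)

omit [CompactSpace X] in
lemma exists_compat (b : B) (hb : b ≠ a)
    (hN : ∀ L x, ∃ m < Nf L, ∀ j < L, (T ^ ((m + j : ℕ) : ℤ)) x ∉ U) (x : X) :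
    ∃ z ∈ (ZZ Nf (Fintype.card B) : Set (ℤ → B)), ∀ n : ℤ, z n = a → (T ^ n) x ∉ U := by
  have hq : 0 < Fintype.card B := Fintype.card_pos_iff.2 ⟨a⟩
  let D : ℕ → Set (ℤ → B) := fun n => {z | Win Nf (Fintype.card B) n z ∧
    ∀ j : ℤ, -(n : ℤ) ≤ j → j ≤ n → z j = a → (T ^ j) x ∉ U}
  have hDc : ∀ n, IsClosed (D n) := by
    intro n
    refine isClosed_win n _ ?_
    rintro z z' h ⟨h1, h2⟩
    exact ⟨Win.congr Nf _ h1 h, fun j hj1 hj2 hj3 => h2 j hj1 hj2 (by rw [← h j hj1 hj2, hj3])⟩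
  have hDm : ∀ n, D (n + 1) ⊆ D n := by
    rintro n z ⟨h1, h2⟩
    exact ⟨Win.mono Nf _ (Nat.le_succ n) h1,
      fun j hj1 hj2 => h2 j (by push_cast; omega) (by push_cast; omega)⟩
  have hDn : ∀ n, (D n).Nonempty := by
    intro n
    obtain ⟨f, hf1, hf2⟩ := exists_adapted T U Nf a b hb hN (2 * n + 1) ((T ^ (-(n : ℤ))) x)
    have hlt := lt_ell Nf (Fintype.card B) hq (2 * n + 1)
    refine ⟨fun j => f (n + j), ⟨2 * n + 1, f, n, hf1, le_rfl, by omega, fun j _ _ => rfl⟩, ?_⟩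
    intro j hj1 hj2 hj3
    have h3 := hf2 (n + j).toNat (by omega)
    rw [Int.toNat_of_nonneg (by omega)] at h3
    have h4 := h3 hj3
    rw [← homeo_zpow_add_apply] at h4
    have e : (n : ℤ) + j + -(n : ℤ) = j := by ring
    rwa [e] at h4
  obtain ⟨z, hz⟩ := IsCompact.nonempty_iInter_of_sequence_nonempty_isCompact_isClosed D hDm hDn
    (hDc 0).isCompact hDc
  rw [mem_iInter] at hz
  refine ⟨z, fun n => (hz n).1, fun n hn => ?_⟩
  exact (hz n.natAbs).2 n (by omega) (by omega) hn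

lemma exists_thick [T2Space X] (V : Set X) (hV : IsClosed V)
    (h : ∀ A : Set X, MinSet T A → A ∩ V = ∅) (L : ℕ) :
    ∃ N : ℕ, ∀ x, ∃ m < N, ∀ j < L, (T ^ ((m + j : ℕ) : ℤ)) x ∉ V := by
  by_contra hcon
  push Not at hcon
  let E : ℕ → Set X := fun N => {x | ∀ m < N, ∃ j < L, (T ^ ((m + j : ℕ) : ℤ)) x ∈ V}
  have hEc : ∀ N, IsClosed (E N) := by
    intro N
    have : E N = ⋂ m ∈ Finset.range N, ⋃ j ∈ Finset.range L,
        (T ^ ((m + j : ℕ) : ℤ)) ⁻¹' V := by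
      ext x
      simp [E]
    rw [this]
    refine isClosed_biInter fun m _ => ?_
    exact Set.Finite.isClosed_biUnion (Finset.finite_toSet _) fun j _ =>
      hV.preimage (T ^ ((m + j : ℕ) : ℤ)).continuous
  obtain ⟨x, hx⟩ := IsCompact.nonempty_iInter_of_sequence_nonempty_isCompact_isClosed E
    (fun N x hx m hm => hx m (by omega)) (fun N => hcon N) (hEc 0).isCompact hEc
  have hC : IsClosed (⋂ N, E N) := isClosed_iInter hEc
  have hmem : ∀ x, x ∈ (⋂ N, E N) ↔ ∀ m : ℕ, ∃ j < L, (T ^ ((m + j : ℕ) : ℤ)) x ∈ V := by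
    intro x
    rw [mem_iInter]
    exact ⟨fun h m => h (m + 1) m (by omega), fun h N m _ => h m⟩
  obtain ⟨A, hA, hAm⟩ := exists_minSet T (⋂ N, E N) hC (by
    intro x hx
    rw [hmem] at hx ⊢
    intro m
    obtain ⟨j, hj, h1⟩ := hx (m + 1)
    refine ⟨j, hj, ?_⟩
    have e : (T ^ ((m + j : ℕ) : ℤ)) (T x) = (T ^ ((m + 1 + j : ℕ) : ℤ)) x := by
      have : (T x) = (T ^ (1 : ℤ)) x := by rw [zpow_one]
      rw [this, ← homeo_zpow_add_apply]
      congr 2
      push_cast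
      ring
    rw [e]
    exact h1) ⟨x, hx⟩
  obtain ⟨y, hy⟩ := hAm.2.2.1
  obtain ⟨j, -, hj⟩ := (hmem y).1 (hA hy) 0
  rw [zero_add] at hj
  have hit : ∀ n : ℕ, (T ^ (n : ℤ)) y ∈ A := by
    intro n
    induction n with
    | zero => simpa using hy
    | succ n ih =>
      have := hAm.2.1 _ ih
      have e : T ((T ^ (n : ℤ)) y) = (T ^ ((n + 1 : ℕ) : ℤ)) y := by
        have : T ((T ^ (n : ℤ)) y) = (T ^ (1 : ℤ)) ((T ^ (n : ℤ)) y) := by rw [zpow_one]
        rw [this, ← homeo_zpow_add_apply]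
        congr 2
        push_cast
        ring
      rwa [e] at this
  have : (T ^ (j : ℤ)) y ∈ A ∩ V := ⟨hit j, hj⟩
  rw [h A hAm] at this
  exact this

lemma dm_aux (b : B) (hba : b ≠ a) [TopologicalSpace.MetrizableSpace X] (hT : DisjM T)
    (V : Set X) (x₁ : X) (hV : V ∈ 𝓝 x₁)
    (hNf : ∀ L x, ∃ m < Nf L, ∀ j < L, (T ^ ((m + j : ℕ) : ℤ)) x ∉ V) : False := by
  have hq : 0 < Fintype.card B := Fintype.card_pos_iff.2 ⟨a⟩
  have hcp := exists_compat T V Nf a b hba hNf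
  obtain ⟨z0, hz0, -⟩ := hcp x₁
  have hcomp : CompactSpace (ZZ Nf (Fintype.card B) : Set (ℤ → B)) :=
    isCompact_iff_compactSpace.1 (isClosed_ZZ Nf _).isCompact
  have hmin := ZZ_min (B := B) Nf (Fintype.card B) hq ⟨z0, hz0⟩
  let J : Set (X × (ZZ Nf (Fintype.card B) : Set (ℤ → B))) :=
    {p | ∀ n : ℤ, (p.2 : ℤ → B) n = a → (T ^ n) p.1 ∉ interior V}
  have hJc : IsClosed J := by
    have : J = ⋂ n : ℤ, {p : X × (ZZ Nf (Fintype.card B) : Set (ℤ → B)) |
        (p.2 : ℤ → B) n = a ∧ (T ^ n) p.1 ∈ interior V}ᶜ := by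
      ext p
      simp [J]
    rw [this]
    refine isClosed_iInter fun n => isClosed_compl_iff.2 ?_
    have h0 : Continuous fun p : X × (ZZ Nf (Fintype.card B) : Set (ℤ → B)) =>
        (p.2 : ℤ → B) n :=
      (continuous_apply n).comp (continuous_subtype_val.comp continuous_snd)
    have h1 : IsOpen {p : X × (ZZ Nf (Fintype.card B) : Set (ℤ → B)) |
        (p.2 : ℤ → B) n = a} :=
      (isOpen_discrete ({a} : Set B)).preimage h0
    have h2 : IsOpen {p : X × (ZZ Nf (Fintype.card B) : Set (ℤ → B)) |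
        (T ^ n) p.1 ∈ interior V} :=
      isOpen_interior.preimage ((T ^ n).continuous.comp continuous_fst)
    exact h1.inter h2
  have hJi : Inv (Prod.map T (sZ Nf (Fintype.card B))) J := by
    intro p hp n hn
    have := hp (n + 1) hn
    have e : (T ^ n) (T p.1) = (T ^ (n + 1)) p.1 := by
      have : (T p.1) = (T ^ (1 : ℤ)) p.1 := by rw [zpow_one]
      rw [this, ← homeo_zpow_add_apply]
    change (T ^ n) (T p.1) ∉ _
    rw [e]
    exact this
  have hJ : J = univ := by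
    refine hT _ (sZ Nf (Fintype.card B)) hmin J hJc hJi ?_ ?_
    · rw [eq_univ_iff_forall]
      intro x
      obtain ⟨z, hz, h⟩ := hcp x
      exact ⟨(x, ⟨z, hz⟩), fun n hn hV' => h n hn (interior_subset hV'), rfl⟩
    · refine hmin.2 _ (hJc.isCompact.image continuous_snd).isClosed ?_ ?_
      · rintro _ ⟨p, hp, rfl⟩
        exact ⟨_, hJi p hp, rfl⟩
      · obtain ⟨z, hz, h⟩ := hcp x₁
        exact ⟨_, (x₁, ⟨z, hz⟩), fun n hn hV' => h n hn (interior_subset hV'), rfl⟩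
  obtain ⟨t, ht⟩ := occurs (B := B) Nf (Fintype.card B) hq z0 hz0 0 (fun _ => a) trivial
  have h0 := ht 0 (ell_pos Nf _ 0)
  rw [Nat.cast_zero, add_zero] at h0
  have hmemJ : ((T ^ (-(t : ℤ))) x₁, (⟨z0, hz0⟩ : (ZZ Nf (Fintype.card B) : Set (ℤ → B)))) ∈ J := by
    rw [hJ]; trivial
  have := hmemJ t h0
  rw [← homeo_zpow_add_apply, add_neg_cancel, zpow_zero] at this
  exact this (mem_interior_iff_mem_nhds.2 hV)

end density

/-- Systems disjoint from all minimal systems have dense minimal sets. -/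
lemma DisjM.dm {X : Type u} [TopologicalSpace X] [CompactSpace X]
    [TopologicalSpace.MetrizableSpace X] (T : X ≃ₜ X) (hT : DisjM T) : DM T := by
  intro P hP hPm
  rw [eq_univ_iff_forall]
  intro x₁
  by_contra hx₁
  obtain ⟨V, hV, hVc, hVP⟩ := exists_mem_nhds_isClosed_subset (hP.isOpen_compl.mem_nhds hx₁)
  have hVA : ∀ A : Set X, MinSet T A → A ∩ V = ∅ := by
    intro A hA
    rw [Set.eq_empty_iff_forall_notMem]
    rintro x ⟨h1, h2⟩
    exact hVP h2 (hPm A hA h1)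
  choose Nf hNf using exists_thick T V hVc hVA
  refine dm_aux (B := ULift.{u} Bool) T Nf ⟨true⟩ ⟨false⟩ ?_ hT V x₁ hV hNf
  intro h
  have := congrArg ULift.down h
  simp at this

end Pool.Agent.H694R3.Dj
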