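import Mathlib

open Filter Topology

namespace Pool.Agent.H694R3.Hs

noncomputable section

/-- Partial products of cosines. -/
def PN (N : ℕ) (x : ℝ) : ℝ :=
  ∏ i ∈ Finset.range N, Real.cos (2 * Real.pi * x / 2 ^ (i ^ 2))

lemma PN_zero (x : ℝ) : PN 0 x = 1 := by simp [PN]

lemma PN_succ (N : ℕ) (x : ℝ) :
    PN (N + 1) x = PN N x * Real.cos (2 * Real.pi * x / 2 ^ (N ^ 2)) := by
  simp [PN, Finset.prod_range_succ]

lemma abs_PN_le (N : ℕ) (x : ℝ) : |PN N x| ≤ 1 := by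
  rw [PN, Finset.abs_prod]
  exact Finset.prod_le_one (fun _ _ => abs_nonneg _) (fun _ _ => Real.abs_cos_le_one _)

lemma PN_neg (N : ℕ) (x : ℝ) : PN N (-x) = PN N x := by
  unfold PN
  refine Finset.prod_congr rfl fun i _ => ?_
  rw [← Real.cos_neg]
  congr 1
  ring

lemma PN_at_zero (N : ℕ) : PN N 0 = 1 := by simp [PN]

lemma PN_step (N : ℕ) (x : ℝ) :
    |PN (N + 1) x - PN N x| ≤ (2 * Real.pi * x) ^ 2 / 2 * (1 / 4) ^ (N ^ 2) := by
  rw [PN_succ]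
  have h1 : PN N x * Real.cos (2 * Real.pi * x / 2 ^ (N ^ 2)) - PN N x
      = PN N x * (Real.cos (2 * Real.pi * x / 2 ^ (N ^ 2)) - 1) := by ring
  rw [h1, abs_mul]
  have h2 := Real.one_sub_sq_div_two_le_cos (x := 2 * Real.pi * x / 2 ^ (N ^ 2))
  have h3 := Real.cos_le_one (2 * Real.pi * x / 2 ^ (N ^ 2))
  have h4 : |Real.cos (2 * Real.pi * x / 2 ^ (N ^ 2)) - 1|
      ≤ (2 * Real.pi * x / 2 ^ (N ^ 2)) ^ 2 / 2 := by
    rw [abs_le]; constructor <;> nlinarith [sq_nonneg (2 * Real.pi * x / 2 ^ (N ^ 2))]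
  have h5 : (2 * Real.pi * x / 2 ^ (N ^ 2)) ^ 2 / 2
      = (2 * Real.pi * x) ^ 2 / 2 * (1 / 4) ^ (N ^ 2) := by
    have : (4 : ℝ) ^ (N ^ 2) = (2 ^ (N ^ 2)) ^ 2 := by rw [← pow_mul, mul_comm, pow_mul]; norm_num
    rw [div_pow, one_div, inv_pow, this]
    field_simp
  calc |PN N x| * |Real.cos (2 * Real.pi * x / 2 ^ (N ^ 2)) - 1|
      ≤ 1 * ((2 * Real.pi * x / 2 ^ (N ^ 2)) ^ 2 / 2) :=
        mul_le_mul (abs_PN_le N x) h4 (abs_nonneg _) zero_le_one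
    _ = _ := by rw [one_mul, h5]

lemma PN_step' (K n : ℕ) (x : ℝ) :
    dist (PN (K + n) x) (PN (K + (n + 1)) x)
      ≤ (2 * Real.pi * x) ^ 2 / 2 * (1 / 4) ^ (K ^ 2) * (1 / 4) ^ n := by
  rw [dist_comm, Real.dist_eq]
  refine (PN_step (K + n) x).trans ?_
  rw [mul_assoc ((2 * Real.pi * x) ^ 2 / 2), ← pow_add]
  refine mul_le_mul_of_nonneg_left ?_ (by positivity)
  refine pow_le_pow_of_le_one (by norm_num) (by norm_num) ?_
  have h1 : n ≤ n ^ 2 := Nat.le_self_pow (by norm_num) n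
  have h2 : (K + n) ^ 2 = K ^ 2 + 2 * K * n + n ^ 2 := by ring
  have h3 : 0 ≤ 2 * K * n := Nat.zero_le _
  rw [h2]
  linarith

lemma cauchy_PN (x : ℝ) : CauchySeq (fun N => PN N x) := by
  refine cauchySeq_of_le_geometric (1 / 4) ((2 * Real.pi * x) ^ 2 / 2 * (1 / 4) ^ (0 ^ 2))
    (by norm_num) ?_
  intro n
  have := PN_step' 0 n x
  simpa using this

/-- The infinite product. -/
def fp (x : ℝ) : ℝ := limUnder atTop (fun N => PN N x)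

lemma tendsto_fp (x : ℝ) : Tendsto (fun N => PN N x) atTop (𝓝 (fp x)) :=
  (cauchy_PN x).tendsto_limUnder

lemma abs_fp_le (x : ℝ) : |fp x| ≤ 1 :=
  le_of_tendsto (tendsto_fp x).abs (Eventually.of_forall fun N => abs_PN_le N x)

lemma fp_neg (x : ℝ) : fp (-x) = fp x := by
  refine tendsto_nhds_unique (tendsto_fp (-x)) ?_
  simpa [PN_neg] using tendsto_fp x

lemma fp_zero : fp 0 = 1 := by
  refine tendsto_nhds_unique (tendsto_fp 0) ?_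
  simp [PN_at_zero]

lemma fp_tail (K : ℕ) (x : ℝ) :
    |fp x - PN K x| ≤ (2 * Real.pi * x) ^ 2 * (1 / 4) ^ (K ^ 2) := by
  have h1 : Tendsto (fun n => PN (K + n) x) atTop (𝓝 (fp x)) := by
    have := (tendsto_fp x).comp (tendsto_add_atTop_nat K)
    refine this.congr fun M => ?_
    simp [add_comm]
  have h := dist_le_of_le_geometric_of_tendsto (1 / 4 : ℝ)
    ((2 * Real.pi * x) ^ 2 / 2 * (1 / 4) ^ (K ^ 2)) (by norm_num) (PN_step' K · x) h1 0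
  rw [dist_comm, Real.dist_eq, add_zero, pow_zero] at h
  refine h.trans ?_
  have : 0 ≤ (2 * Real.pi * x) ^ 2 * (1 / 4 : ℝ) ^ (K ^ 2) := by positivity
  have h2 : (2 * Real.pi * x) ^ 2 / 2 * (1 / 4) ^ K ^ 2 * 1 / (1 - 1 / 4)
      = 2 / 3 * ((2 * Real.pi * x) ^ 2 * (1 / 4 : ℝ) ^ (K ^ 2)) := by ring
  rw [h2]
  linarith

/-- The constants. -/
def cj (j : ℕ) : ℝ := Real.cos (2 * Real.pi / 2 ^ j)

/-- The times. -/
def tm (j k : ℕ) : ℕ := 2 ^ ((k + 1) ^ 2 - j)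

lemma tm_cast {j k : ℕ} (h : j ≤ (k + 1) ^ 2) :
    ((tm j k : ℕ) : ℝ) * 2 ^ j = 2 ^ ((k + 1) ^ 2) := by
  rw [tm]
  push_cast
  rw [← pow_add, Nat.sub_add_cancel h]

lemma PN_period {j k : ℕ} (h : j ≤ 2 * k + 1) (m : ℤ) :
    PN (k + 1) ((m : ℝ) + tm j k) = PN (k + 1) m := by
  unfold PN
  refine Finset.prod_congr rfl fun i hi => ?_
  have hi' : i ≤ k := Nat.lt_succ_iff.1 (Finset.mem_range.1 hi)
  have h2 : i ^ 2 ≤ (k + 1) ^ 2 - j := by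
    have : i ^ 2 ≤ k ^ 2 := Nat.pow_le_pow_left hi' 2
    have h3 : (k + 1) ^ 2 = k ^ 2 + (2 * k + 1) := by ring
    omega
  obtain ⟨d, hd⟩ := Nat.exists_eq_add_of_le h2
  have h4 : ((tm j k : ℕ) : ℝ) = 2 ^ (i ^ 2) * 2 ^ d := by
    rw [tm, hd]; push_cast; rw [pow_add]
  have : 2 * Real.pi * ((m : ℝ) + tm j k) / 2 ^ (i ^ 2)
      = 2 * Real.pi * m / 2 ^ (i ^ 2) + ((2 ^ d : ℕ) : ℝ) * (2 * Real.pi) := by
    rw [h4]
    push_cast
    field_simp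
  rw [this, Real.cos_add_nat_mul_two_pi]

lemma PN_shift {j k : ℕ} (h : j ≤ 2 * k + 1) (m : ℤ) :
    PN (k + 2) ((m : ℝ) + tm j k)
      = PN (k + 1) m * Real.cos (2 * Real.pi * m / 2 ^ ((k + 1) ^ 2) + 2 * Real.pi / 2 ^ j) := by
  rw [PN_succ, PN_period h]
  congr 2
  have h3 : j ≤ (k + 1) ^ 2 := by nlinarith
  have h4 := tm_cast h3
  rw [mul_add, add_div]
  congr 1
  rw [← h4]
  have : ((tm j k : ℕ) : ℝ) ≠ 0 := by rw [tm]; positivity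
  field_simp

lemma tendsto_pow_sq : Tendsto (fun k : ℕ => (2 : ℝ) ^ ((k + 1) ^ 2)) atTop atTop := by
  refine tendsto_atTop_mono (fun k => ?_) (tendsto_pow_atTop_atTop_of_one_lt
    (show (1 : ℝ) < 2 by norm_num))
  refine pow_le_pow_right₀ (by norm_num) ?_
  nlinarith

lemma tail_zero (j : ℕ) (m : ℤ) : Tendsto (fun k : ℕ =>
    (2 * Real.pi * ((m : ℝ) + tm j k)) ^ 2 * (1 / 4) ^ ((k + 2) ^ 2)) atTop (𝓝 0) := by
  have hb : ∀ k : ℕ, (2 * Real.pi * ((m : ℝ) + tm j k)) ^ 2 * (1 / 4) ^ ((k + 2) ^ 2)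
      ≤ (2 * Real.pi * (|(m : ℝ)| + 1)) ^ 2 * (1 / 4) ^ k := by
    intro k
    have h1 : ((tm j k : ℕ) : ℝ) ≤ 2 ^ ((k + 1) ^ 2) := by
      rw [tm]; push_cast
      exact pow_le_pow_right₀ (by norm_num) (Nat.sub_le _ _)
    have h2 : |(m : ℝ) + tm j k| ≤ (|(m : ℝ)| + 1) * 2 ^ ((k + 1) ^ 2) := by
      have h0 : (0 : ℝ) ≤ ((tm j k : ℕ) : ℝ) := Nat.cast_nonneg _
      have h3 : (1 : ℝ) ≤ 2 ^ ((k + 1) ^ 2) := one_le_pow₀ (by norm_num)
      calc |(m : ℝ) + tm j k| ≤ |(m : ℝ)| + |((tm j k : ℕ) : ℝ)| := abs_add_le _ _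
        _ = |(m : ℝ)| + tm j k := by rw [abs_of_nonneg h0]
        _ ≤ |(m : ℝ)| * 2 ^ ((k + 1) ^ 2) + 1 * 2 ^ ((k + 1) ^ 2) := by
            rw [one_mul]
            refine add_le_add ?_ h1
            exact le_mul_of_one_le_right (abs_nonneg _) h3
        _ = _ := by ring
    have h4 : (2 * Real.pi * ((m : ℝ) + tm j k)) ^ 2
        ≤ (2 * Real.pi * (|(m : ℝ)| + 1)) ^ 2 * (2 ^ ((k + 1) ^ 2)) ^ 2 := by
      rw [mul_pow, mul_pow (2 * Real.pi), mul_assoc, ← mul_pow (|(m : ℝ)| + 1)]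
      refine mul_le_mul_of_nonneg_left ?_ (by positivity)
      exact sq_le_sq' (by linarith [neg_abs_le ((m : ℝ) + tm j k)])
        ((le_abs_self _).trans h2)
    have h5 : ((2 : ℝ) ^ ((k + 1) ^ 2)) ^ 2 * (1 / 4) ^ ((k + 2) ^ 2) ≤ (1 / 4) ^ k := by
      have h6 : ((2 : ℝ) ^ ((k + 1) ^ 2)) ^ 2 = 4 ^ ((k + 1) ^ 2) := by
        rw [← pow_mul, mul_comm, pow_mul]; norm_num
      have h7 : (k + 2) ^ 2 = (k + 1) ^ 2 + (2 * k + 3) := by ring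
      have h8 : (4 : ℝ) ^ ((k + 1) ^ 2) * (1 / 4) ^ ((k + 1) ^ 2) = 1 := by
        rw [← mul_pow]; norm_num
      rw [h6, h7, pow_add, ← mul_assoc, h8, one_mul]
      exact pow_le_pow_of_le_one (by norm_num) (by norm_num) (by omega)
    calc (2 * Real.pi * ((m : ℝ) + tm j k)) ^ 2 * (1 / 4) ^ ((k + 2) ^ 2)
        ≤ ((2 * Real.pi * (|(m : ℝ)| + 1)) ^ 2 * (2 ^ ((k + 1) ^ 2)) ^ 2)
            * (1 / 4) ^ ((k + 2) ^ 2) := by gcongr
      _ = (2 * Real.pi * (|(m : ℝ)| + 1)) ^ 2 * (((2 : ℝ) ^ ((k + 1) ^ 2)) ^ 2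
            * (1 / 4) ^ ((k + 2) ^ 2)) := by ring
      _ ≤ _ := by gcongr
  have hlim : Tendsto (fun k : ℕ => (2 * Real.pi * (|(m : ℝ)| + 1)) ^ 2 * (1 / 4 : ℝ) ^ k)
      atTop (𝓝 0) := by
    have := (tendsto_pow_atTop_nhds_zero_of_lt_one (show (0 : ℝ) ≤ 1 / 4 by norm_num)
      (by norm_num)).const_mul ((2 * Real.pi * (|(m : ℝ)| + 1)) ^ 2)
    simpa using this
  refine squeeze_zero (fun k => ?_) hb hlim
  positivity

/-- Forward rigidity. -/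
lemma rigid_pos (j : ℕ) (m : ℤ) :
    Tendsto (fun k : ℕ => fp ((m : ℝ) + tm j k)) atTop (𝓝 (cj j * fp m)) := by
  have h1 : Tendsto (fun k : ℕ => PN (k + 1) m *
      Real.cos (2 * Real.pi * m / 2 ^ ((k + 1) ^ 2) + 2 * Real.pi / 2 ^ j)) atTop
      (𝓝 (fp m * cj j)) := by
    refine ((tendsto_fp m).comp (tendsto_add_atTop_nat 1)).mul ?_
    have h2 : Tendsto (fun k : ℕ => 2 * Real.pi * m / 2 ^ ((k + 1) ^ 2) + 2 * Real.pi / 2 ^ j)
        atTop (𝓝 (0 + 2 * Real.pi / 2 ^ j)) :=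
      (tendsto_const_nhds.div_atTop tendsto_pow_sq).add tendsto_const_nhds
    rw [zero_add] at h2
    exact (Real.continuous_cos.tendsto _).comp h2
  have h2 : Tendsto (fun k : ℕ => fp ((m : ℝ) + tm j k) - PN (k + 2) ((m : ℝ) + tm j k)) atTop
      (𝓝 0) :=
    squeeze_zero_norm (fun k => fp_tail (k + 2) _) (tail_zero j m)
  have h3 : ∀ᶠ k : ℕ in atTop, PN (k + 1) m *
      Real.cos (2 * Real.pi * m / 2 ^ ((k + 1) ^ 2) + 2 * Real.pi / 2 ^ j)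
      = PN (k + 2) ((m : ℝ) + tm j k) := by
    filter_upwards [eventually_ge_atTop j] with k hk
    rw [PN_shift (by omega)]
  have h4 := h2.add (h1.congr' h3)
  simp only [sub_add_cancel, zero_add] at h4
  rwa [mul_comm] at h4

/-- Backward rigidity. -/
lemma rigid_neg (j : ℕ) (m : ℤ) :
    Tendsto (fun k : ℕ => fp ((m : ℝ) - tm j k)) atTop (𝓝 (cj j * fp m)) := by
  have h := rigid_pos j (-m)
  have h2 : (fun k : ℕ => fp (((-m : ℤ) : ℝ) + tm j k)) = fun k : ℕ => fp ((m : ℝ) - tm j k) := by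
    funext k
    rw [← fp_neg]
    congr 1
    push_cast
    ring
  rw [h2] at h
  have h3 : fp ((-m : ℤ) : ℝ) = fp m := by push_cast; exact fp_neg _
  rwa [h3] at h

lemma cj_lt_one {j : ℕ} (hj : 3 ≤ j) : cj j < 1 := by
  have h1 : 0 < 2 * Real.pi / 2 ^ j := by positivity
  have h8 : (8 : ℝ) ≤ 2 ^ j := by
    calc (8 : ℝ) = 2 ^ 3 := by norm_num
      _ ≤ 2 ^ j := pow_le_pow_right₀ (by norm_num) hj
  have h2 : 2 * Real.pi / 2 ^ j ≤ Real.pi := by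
    rw [div_le_iff₀ (by positivity)]
    nlinarith [Real.pi_pos]
  have := Real.cos_lt_cos_of_nonneg_of_le_pi le_rfl h2 h1
  rwa [Real.cos_zero] at this

lemma cj_pos {j : ℕ} (hj : 3 ≤ j) : 0 < cj j := by
  have h1 : 0 < 2 * Real.pi / 2 ^ j := by positivity
  have h8 : (8 : ℝ) ≤ 2 ^ j := by
    calc (8 : ℝ) = 2 ^ 3 := by norm_num
      _ ≤ 2 ^ j := pow_le_pow_right₀ (by norm_num) hj
  have h2 : 2 * Real.pi / 2 ^ j < Real.pi / 2 := by
    rw [div_lt_iff₀ (by positivity)]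
    nlinarith [Real.pi_pos]
  exact Real.cos_pos_of_mem_Ioo ⟨by linarith [Real.pi_pos], h2⟩

lemma tendsto_cj : Tendsto cj atTop (𝓝 1) := by
  have h2 : Tendsto (fun j : ℕ => 2 * Real.pi / 2 ^ j) atTop (𝓝 0) :=
    tendsto_const_nhds.div_atTop (tendsto_pow_atTop_atTop_of_one_lt (by norm_num))
  have := (Real.continuous_cos.tendsto 0).comp h2
  rwa [Real.cos_zero] at this

end

end Pool.Agent.H694R3.Hs
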