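import Mathlib
import Pool.Agent.H694R3.Hs2

open Filter Topology ComplexConjugate MeasureTheory

namespace Pool.Agent.H694R3.Hs

noncomputable section

section gns

variable {ι : Type} (K : ι → ι → ℂ)

/-- The operator valued kernel. -/
def KM : Matrix ι ι (ℂ →L[ℂ] ℂ) := fun p q => (K p q) • ContinuousLinearMap.id ℂ ℂ

open scoped ComplexOrder in
lemma KM_posSemidef (hK : ∀ p q, K q p = conj (K p q))
    (hpos : ∀ (s : Finset ι) (a : ι → ℂ),
      0 ≤ (∑ p ∈ s, ∑ q ∈ s, conj (a p) * a q * K p q).re) : (KM K).PosSemidef := by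
  have key : (KM K).PosSemidef ↔ (KM K).IsHermitian ∧ ∀ (vv : ι →₀ ℂ),
    0 ≤ RCLike.re (vv.sum fun x w ↦ vv.sum fun x' w' ↦ inner ℂ ((KM K) x' x w) w') :=
    (RKHS.posSemidef_tfae (K := KM K)).out 0 2
  rw [key]
  constructor
  · ext m n
    simp only [KM, Matrix.conjTranspose_apply, star_smul, RCLike.star_def]
    have : star (ContinuousLinearMap.id ℂ ℂ) = ContinuousLinearMap.id ℂ ℂ := by
      rw [← ContinuousLinearMap.one_def, star_one]
    rw [this, ← hK]
  · intro vv
    have h := hpos vv.support (fun m => (vv m))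
    simp only [Finsupp.sum]
    refine h.trans_eq ?_
    change _ = Complex.re _
    congr 1
    refine Finset.sum_congr rfl fun m _ => Finset.sum_congr rfl fun n _ => ?_
    simp only [KM, smul_apply, ContinuousLinearMap.id_apply, smul_eq_mul,
      RCLike.inner_apply, map_mul]
    rw [← hK]
    ring

/-- A permutation preserving the Gram matrix of a total family extends to a unitary. -/
lemma unitary_of_gram {H : Type*} [NormedAddCommGroup H] [InnerProductSpace ℂ H] [CompleteSpace H]
    (orb : ι → H) (hd : DenseRange (Finsupp.linearCombination ℂ orb))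
    (σ : ι ≃ ι) (hσ : ∀ p q, inner ℂ (orb (σ p)) (orb (σ q)) = inner ℂ (orb p) (orb q)) :
    ∃ U : H ≃ₗᵢ[ℂ] H, ∀ p, U (orb p) = orb (σ p) := by
  set lc : (ι →₀ ℂ) →ₗ[ℂ] H := Finsupp.linearCombination ℂ orb with hlc
  have lc_single : ∀ (n : ι) (a : ℂ), lc (Finsupp.single n a) = a • orb n := by
    intro n a; simp [lc]
  let shf : (ι →₀ ℂ) ≃ₗ[ℂ] (ι →₀ ℂ) := Finsupp.domLCongr σ
  have shf_single : ∀ (n : ι) (a : ℂ), shf (Finsupp.single n a) = Finsupp.single (σ n) a := by
    intro n a; simp [shf]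
  have inner_lc_shf : ∀ a b : ι →₀ ℂ,
      inner ℂ (lc (shf a)) (lc (shf b)) = inner ℂ (lc a) (lc b) := by
    intro a b
    induction a using Finsupp.induction_linear with
    | zero => simp
    | add a a' h h' => simp only [map_add, inner_add_left, h, h']
    | single m x =>
      induction b using Finsupp.induction_linear with
      | zero => simp
      | add b b' h h' => simp only [map_add, inner_add_right, h, h']
      | single n y =>
        simp only [shf_single, lc_single, inner_smul_left, inner_smul_right, hσ]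
  have norm_lc_shf : ∀ a : ι →₀ ℂ, ‖lc (shf a)‖ = ‖lc a‖ := by
    intro a
    have h2 : ‖lc (shf a)‖ ^ 2 = ‖lc a‖ ^ 2 := by
      rw [norm_sq_eq_re_inner (𝕜 := ℂ), norm_sq_eq_re_inner (𝕜 := ℂ), inner_lc_shf]
    exact (sq_eq_sq₀ (norm_nonneg _) (norm_nonneg _)).1 h2
  refine ⟨LinearEquiv.extendOfIsometry shf lc lc hd hd norm_lc_shf, fun n => ?_⟩
  have h := LinearEquiv.extendOfIsometry_eq shf lc lc hd hd norm_lc_shf
    (Finsupp.single n 1)
  rw [shf_single, lc_single, lc_single, one_smul, one_smul] at h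
  exact h

section rk

open scoped ComplexOrder

variable [hf : Fact (KM K).PosSemidef]

lemma rk_inner (hK : ∀ p q, K q p = conj (K p q)) (m n : ι) :
    inner ℂ (RKHS.kerFun (RKHS.OfKernel (KM K)) m (1 : ℂ))
      (RKHS.kerFun (RKHS.OfKernel (KM K)) n (1 : ℂ)) = K m n := by
  have h := RKHS.kernel_inner (H := RKHS.OfKernel (KM K)) n m (1 : ℂ) (1 : ℂ)
  rw [← h, RKHS.OfKernel.kernel_ofKernel]
  simp only [KM, smul_apply, ContinuousLinearMap.id_apply, smul_eq_mul,
    RCLike.inner_apply, mul_one, one_mul]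
  rw [← hK]

lemma rk_dense : DenseRange (Finsupp.linearCombination ℂ
    fun n : ι => RKHS.kerFun (RKHS.OfKernel (KM K)) n (1 : ℂ)) := by
  have h := RKHS.kerFun_dense (H := RKHS.OfKernel (KM K))
  have h2 : Submodule.span ℂ {RKHS.kerFun (RKHS.OfKernel (KM K)) x v | (x : ι) (v : ℂ)} ≤
      LinearMap.range (Finsupp.linearCombination ℂ
        fun n : ι => RKHS.kerFun (RKHS.OfKernel (KM K)) n (1 : ℂ)) := by
    rw [Submodule.span_le]
    rintro _ ⟨x, v, rfl⟩
    refine ⟨Finsupp.single x v, ?_⟩
    rw [Finsupp.linearCombination_single, ← map_smul, smul_eq_mul, mul_one]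
  have h3 : (LinearMap.range (Finsupp.linearCombination ℂ
      fun n : ι => RKHS.kerFun (RKHS.OfKernel (KM K)) n (1 : ℂ))).topologicalClosure = ⊤ := by
    rw [eq_top_iff, ← h]
    exact Submodule.topologicalClosure_mono h2
  intro x
  have : x ∈ (LinearMap.range (Finsupp.linearCombination ℂ
      fun n : ι => RKHS.kerFun (RKHS.OfKernel (KM K)) n (1 : ℂ))).topologicalClosure := by
    rw [h3]; trivial
  exact this

end rk

/-- The GNS construction: a positive semidefinite kernel invariant under a permutation. -/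
lemma gns (hK : ∀ p q, K q p = conj (K p q))
    (hpos : ∀ (s : Finset ι) (a : ι → ℂ),
      0 ≤ (∑ p ∈ s, ∑ q ∈ s, conj (a p) * a q * K p q).re)
    (σ : ι ≃ ι) (hσ : ∀ p q, K (σ p) (σ q) = K p q) :
    ∃ (H : Type) (_ : NormedAddCommGroup H) (_ : InnerProductSpace ℂ H) (_ : CompleteSpace H)
      (U : H ≃ₗᵢ[ℂ] H) (e : ι → H),
      (∀ p q, inner ℂ (e p) (e q) = K p q) ∧ ∀ p, U (e p) = e (σ p) := by
  have hf := Fact.mk (KM_posSemidef K hK hpos)
  obtain ⟨U, hU⟩ := unitary_of_gram
    (fun n : ι => RKHS.kerFun (RKHS.OfKernel (KM K)) n (1 : ℂ)) (rk_dense K) σ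
    (fun p q => by rw [rk_inner K hK, rk_inner K hK, hσ])
  exact ⟨RKHS.OfKernel (KM K), inferInstance, inferInstance, inferInstance, U, _, rk_inner K hK, hU⟩

end gns

section measure

/-- The Fourier transform `n ↦ ∫ exp (2 π i n t) dρ(t)` of a positive Borel measure on the
circle `ℝ / ℤ`. -/
def hat (ρ : Measure UnitAddCircle) (n : ℤ) : ℂ := ∫ t : UnitAddCircle, fourier n t ∂ρ

lemma integrable_of_cont {ρ : Measure UnitAddCircle} [IsFiniteMeasure ρ] {g : UnitAddCircle → ℂ}
    (hg : Continuous g) : Integrable g ρ :=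
  hg.integrable_of_hasCompactSupport (HasCompactSupport.of_compactSpace g)

lemma hat_neg (ρ : Measure UnitAddCircle) (n : ℤ) : hat ρ (-n) = conj (hat ρ n) := by
  unfold hat
  rw [← integral_conj]
  congr 1
  funext z
  exact fourier_neg

lemma hat_psd {ι : Type} (ρ : Measure UnitAddCircle) [IsFiniteMeasure ρ] (s : Finset ι)
    (τ : ι → ℤ) (b : ι → ℂ) :
    0 ≤ (∑ p ∈ s, ∑ q ∈ s, conj (b p) * b q * hat ρ (τ q - τ p)).re := by
  have h1 : (∑ p ∈ s, ∑ q ∈ s, conj (b p) * b q * hat ρ (τ q - τ p))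
      = ∫ z : UnitAddCircle,
        ((Complex.normSq (∑ p ∈ s, b p * fourier (τ p) z) : ℝ) : ℂ) ∂ρ := by
    have h2 : ∀ z : UnitAddCircle,
        ((Complex.normSq (∑ p ∈ s, b p * fourier (τ p) z) : ℝ) : ℂ)
        = ∑ p ∈ s, ∑ q ∈ s, conj (b p) * b q * fourier (τ q - τ p) z := by
      intro z
      rw [Complex.normSq_eq_conj_mul_self, map_sum, Finset.sum_mul_sum]
      refine Finset.sum_congr rfl fun p _ => Finset.sum_congr rfl fun q _ => ?_
      rw [map_mul, sub_eq_add_neg, fourier_add, fourier_neg]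
      ring
    simp_rw [h2]
    rw [integral_finsetSum]
    · refine Finset.sum_congr rfl fun p _ => ?_
      rw [integral_finsetSum]
      · refine Finset.sum_congr rfl fun q _ => ?_
        rw [integral_const_mul, hat]
      · intro q _
        exact (integrable_of_cont (fourier _).continuous).const_mul _
    · intro p _
      refine integrable_finsetSum _ fun q _ => ?_
      exact (integrable_of_cont (fourier _).continuous).const_mul _
  rw [h1, integral_complex_ofReal, Complex.ofReal_re]
  exact integral_nonneg fun z => Complex.normSq_nonneg _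

/-- `B(ℤ)`: Fourier transforms of complex Borel measures on the circle, a complex measure being
written as `ρ 0 - ρ 1 + i (ρ 2 - ρ 3)` with finite positive Borel measures. -/
def IsFS (h : ℤ → ℂ) : Prop :=
  ∃ ρ : Fin 4 → Measure UnitAddCircle, (∀ i, IsFiniteMeasure (ρ i)) ∧
    ∀ n, h n = hat (ρ 0) n - hat (ρ 1) n + Complex.I * (hat (ρ 2) n - hat (ρ 3) n)

/-- Elements of `B(ℤ)` are matrix coefficients of unitary operators. -/
lemma IsFS.coeff {h : ℤ → ℂ} (hh : IsFS h) :
    ∃ (H : Type) (_ : NormedAddCommGroup H) (_ : InnerProductSpace ℂ H) (_ : CompleteSpace H)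
      (U : H ≃ₗᵢ[ℂ] H) (η ξ : H), ∀ n : ℤ, h n = inner ℂ η ((U ^ n) ξ) := by
  obtain ⟨ρ, hρ, hn⟩ := hh
  have := hρ
  let K : ℤ × Fin 4 → ℤ × Fin 4 → ℂ := fun p q => if p.2 = q.2 then hat (ρ p.2) (q.1 - p.1) else 0
  have hK : ∀ p q, K q p = conj (K p q) := by
    intro p q
    simp only [K]
    by_cases h : p.2 = q.2
    · rw [if_pos h, if_pos h.symm, ← hat_neg, h]
      congr 1
      ring
    · rw [if_neg h, if_neg (fun h' => h h'.symm), map_zero]
  have hpos : ∀ (s : Finset (ℤ × Fin 4)) (a : ℤ × Fin 4 → ℂ),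
      0 ≤ (∑ p ∈ s, ∑ q ∈ s, conj (a p) * a q * K p q).re := by
    intro s a
    have h1 : (∑ p ∈ s, ∑ q ∈ s, conj (a p) * a q * K p q)
        = ∑ i : Fin 4, ∑ p ∈ s, ∑ q ∈ s, conj (if p.2 = i then a p else 0)
            * (if q.2 = i then a q else 0) * hat (ρ i) (q.1 - p.1) := by
      conv_rhs => rw [Finset.sum_comm]
      refine Finset.sum_congr rfl fun p _ => ?_
      conv_rhs => rw [Finset.sum_comm]
      refine Finset.sum_congr rfl fun q _ => ?_
      rw [Finset.sum_eq_single p.2]
      · simp only [K, if_true]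
        by_cases h : p.2 = q.2
        · rw [if_pos h, if_pos h.symm]
        · rw [if_neg h, if_neg (fun h' => h h'.symm)]
          ring
      · intro i _ hi
        rw [if_neg (fun h => hi h.symm)]
        simp
      · intro h
        exact absurd (Finset.mem_univ _) h
    rw [h1, Complex.re_sum]
    exact Finset.sum_nonneg fun i _ => hat_psd (ρ i) s (fun p => p.1) _
  let σ : ℤ × Fin 4 ≃ ℤ × Fin 4 := Equiv.prodCongr (Equiv.addRight 1) (Equiv.refl _)
  have hσ : ∀ p q, K (σ p) (σ q) = K p q := by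
    intro p q
    simp only [K, σ, Equiv.prodCongr_apply, Prod.map, Equiv.refl_apply, Equiv.coe_addRight]
    congr 2
    ring
  obtain ⟨H, _, _, _, U, e, he, hU⟩ := gns K hK hpos σ hσ
  have hUn : ∀ (n : ℤ) (m : ℤ) (i : Fin 4), (U ^ n) (e (m, i)) = e (m + n, i) := by
    intro n
    induction n using Int.induction_on with
    | zero => intro m i; simp
    | succ n ih =>
      intro m i
      rw [zpow_add_apply, zpow_one, hU]
      change (U ^ (n : ℤ)) (e (m + 1, i)) = _
      rw [ih]
      congr 2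
      ring
    | pred n ih =>
      intro m i
      have h1 : (U ^ (-1 : ℤ)) (e (m, i)) = e (m - 1, i) := by
        rw [zpow_neg, zpow_one]
        change U.symm (e (m, i)) = _
        rw [LinearIsometryEquiv.symm_apply_eq, hU]
        change _ = e (m - 1 + 1, i)
        congr 2
        ring
      rw [sub_eq_add_neg, zpow_add_apply, h1, ih]
      congr 2
      ring
  let w : Fin 4 → ℂ := ![1, -1, Complex.I, -Complex.I]
  refine ⟨H, inferInstance, inferInstance, inferInstance, U, ∑ i : Fin 4, conj (w i) • e (0, i),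
    ∑ i : Fin 4, e (0, i), fun n => ?_⟩
  rw [hn n, map_sum, sum_inner]
  have h3 : ∀ i : Fin 4, inner ℂ (conj (w i) • e (0, i)) (∑ j : Fin 4, (U ^ n) (e (0, j)))
      = w i * hat (ρ i) n := by
    intro i
    rw [inner_smul_left, Complex.conj_conj, inner_sum, Finset.sum_eq_single i]
    · rw [hUn, he]
      simp [K]
    · intro j _ hj
      rw [hUn, he]
      simp only [K]
      rw [if_neg (fun h => hj h.symm)]
    · intro h
      exact absurd (Finset.mem_univ _) h
  simp_rw [h3]
  rw [Fin.sum_univ_four]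
  simp only [w, Matrix.cons_val_zero, Matrix.cons_val_one, Matrix.cons_val]
  ring

end measure

end

end Pool.Agent.H694R3.Hs
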