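import Mathlib
import Pool.Agent.H694R3.Hs1
import Pool.Agent.H694R3.Hs3

open Filter Topology ComplexConjugate MeasureTheory

namespace Pool.Agent.H694R3.Hs

noncomputable section

lemma hat_zero_measure (n : ℤ) : hat 0 n = 0 := by simp [hat]

lemma hat_add (ρ ρ' : Measure UnitAddCircle) [IsFiniteMeasure ρ] [IsFiniteMeasure ρ'] (n : ℤ) :
    hat (ρ + ρ') n = hat ρ n + hat ρ' n := by
  unfold hat
  exact integral_add_measure (integrable_of_cont (fourier n).continuous)
    (integrable_of_cont (fourier n).continuous)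

lemma hat_smul (c : NNReal) (ρ : Measure UnitAddCircle) (n : ℤ) :
    hat (c • ρ) n = (c : ℂ) * hat ρ n := by
  unfold hat
  rw [integral_smul_nnreal_measure, NNReal.smul_def, Complex.real_smul]

lemma IsFS.of_hat (ρ : Measure UnitAddCircle) [IsFiniteMeasure ρ] : IsFS (hat ρ) := by
  refine ⟨![ρ, 0, 0, 0], ?_, ?_⟩
  · intro i
    fin_cases i
    · change IsFiniteMeasure ρ; infer_instance
    · change IsFiniteMeasure (0 : Measure UnitAddCircle); infer_instance
    · change IsFiniteMeasure (0 : Measure UnitAddCircle); infer_instance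
    · change IsFiniteMeasure (0 : Measure UnitAddCircle); infer_instance
  · intro n
    change hat ρ n = hat ρ n - hat 0 n + Complex.I * (hat 0 n - hat 0 n)
    rw [hat_zero_measure]
    ring

lemma IsFS.mk4 (a b c d : Measure UnitAddCircle) [IsFiniteMeasure a] [IsFiniteMeasure b]
    [IsFiniteMeasure c] [IsFiniteMeasure d] :
    IsFS (fun n => hat a n - hat b n + Complex.I * (hat c n - hat d n)) := by
  refine ⟨![a, b, c, d], ?_, ?_⟩
  · intro i
    fin_cases i
    · change IsFiniteMeasure a; infer_instance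
    · change IsFiniteMeasure b; infer_instance
    · change IsFiniteMeasure c; infer_instance
    · change IsFiniteMeasure d; infer_instance
  · intro n
    rfl

lemma IsFS.add {h k : ℤ → ℂ} (hh : IsFS h) (hk : IsFS k) : IsFS (h + k) := by
  obtain ⟨ρ, h1, h2⟩ := hh
  obtain ⟨σ, h3, h4⟩ := hk
  refine ⟨fun i => ρ i + σ i, fun i => ?_, fun n => ?_⟩
  · have := h1 i
    have := h3 i
    infer_instance
  · have := h1
    have := h3
    rw [Pi.add_apply, h2, h4, hat_add, hat_add, hat_add, hat_add]
    ring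

lemma IsFS.nnsmul {h : ℤ → ℂ} (hh : IsFS h) (c : NNReal) : IsFS (((c : ℝ) : ℂ) • h) := by
  obtain ⟨ρ, h1, h2⟩ := hh
  refine ⟨fun i => c • ρ i, fun i => ?_, fun n => ?_⟩
  · have := h1 i
    infer_instance
  · rw [Pi.smul_apply, h2, hat_smul, hat_smul, hat_smul, hat_smul, smul_eq_mul]
    ring

lemma IsFS.mul_I {h : ℤ → ℂ} (hh : IsFS h) : IsFS (Complex.I • h) := by
  obtain ⟨ρ, h1, h2⟩ := hh
  have := h1
  have h3 := IsFS.mk4 (ρ 3) (ρ 2) (ρ 0) (ρ 1)
  have h4 : (Complex.I • h) =
      fun n => hat (ρ 3) n - hat (ρ 2) n + Complex.I * (hat (ρ 0) n - hat (ρ 1) n) := by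
    funext n
    rw [Pi.smul_apply, h2, smul_eq_mul]
    linear_combination (hat (ρ 2) n - hat (ρ 3) n) * Complex.I_mul_I
  rw [h4]
  exact h3

lemma IsFS.neg {h : ℤ → ℂ} (hh : IsFS h) : IsFS (-h) := by
  have := hh.mul_I.mul_I
  rw [smul_smul, Complex.I_mul_I, neg_one_smul] at this
  exact this

lemma IsFS.rsmul {h : ℤ → ℂ} (hh : IsFS h) (c : ℝ) : IsFS ((c : ℂ) • h) := by
  rcases le_total 0 c with hc | hc
  · exact hh.nnsmul ⟨c, hc⟩
  · have := (hh.nnsmul ⟨-c, by linarith⟩).neg
    convert this using 1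
    funext n
    change (c : ℂ) * h n = -(((-c : ℝ) : ℂ) * h n)
    push_cast
    ring

lemma IsFS.smul {h : ℤ → ℂ} (hh : IsFS h) (c : ℂ) : IsFS (c • h) := by
  have h1 := (hh.rsmul c.re).add (hh.mul_I.rsmul c.im)
  convert h1 using 1
  rw [smul_smul, ← add_smul, Complex.re_add_im]

lemma IsFS.zero : IsFS 0 := by
  have := IsFS.of_hat 0
  convert this using 1
  funext n
  rw [hat_zero_measure]; rfl

/-- Linear span of the transforms of positive measures. -/
def Bsp : Submodule ℂ (ℤ → ℂ) :=
  Submodule.span ℂ {h | ∃ ρ : Measure UnitAddCircle, IsFiniteMeasure ρ ∧ h = hat ρ}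

lemma isFS_iff {h : ℤ → ℂ} : IsFS h ↔ h ∈ Bsp := by
  constructor
  · rintro ⟨ρ, h1, h2⟩
    have h3 : h = hat (ρ 0) - hat (ρ 1) + Complex.I • (hat (ρ 2) - hat (ρ 3)) := by
      funext n
      rw [h2]; rfl
    rw [h3]
    have h4 : ∀ i, hat (ρ i) ∈ Bsp := fun i => Submodule.subset_span ⟨ρ i, h1 i, rfl⟩
    exact Bsp.add_mem (Bsp.sub_mem (h4 0) (h4 1))
      (Bsp.smul_mem _ (Bsp.sub_mem (h4 2) (h4 3)))
  · intro h1
    induction h1 using Submodule.span_induction with
    | mem x hx =>
      obtain ⟨ρ, hρ, rfl⟩ := hx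
      exact IsFS.of_hat ρ
    | zero => exact IsFS.zero
    | add x y _ _ hx hy => exact hx.add hy
    | smul a x _ hx => exact hx.smul a

lemma hat_mul (ρ σ : Measure UnitAddCircle) [IsFiniteMeasure ρ] [IsFiniteMeasure σ] (n : ℤ) :
    hat ((ρ.prod σ).map fun p => p.1 + p.2) n = hat ρ n * hat σ n := by
  unfold hat
  have hm : Measurable fun p : UnitAddCircle × UnitAddCircle => p.1 + p.2 :=
    (continuous_fst.add continuous_snd).measurable
  rw [integral_map hm.aemeasurable (fourier n).continuous.aestronglyMeasurable,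
    ← integral_prod_mul]
  congr 1
  funext p
  rw [fourier_apply, fourier_apply, fourier_apply, zsmul_add, AddCircle.toCircle_add,
    Circle.coe_mul]

lemma IsFS.mul {h k : ℤ → ℂ} (hh : IsFS h) (hk : IsFS k) : IsFS (h * k) := by
  rw [isFS_iff] at *
  induction hh using Submodule.span_induction with
  | mem x hx =>
    obtain ⟨ρ, hρ, rfl⟩ := hx
    induction hk using Submodule.span_induction with
    | mem y hy =>
      obtain ⟨σ, hσ, rfl⟩ := hy
      refine Submodule.subset_span ⟨(ρ.prod σ).map fun p => p.1 + p.2, ?_, ?_⟩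
      · exact Measure.isFiniteMeasure_map _ _
      · funext n
        rw [hat_mul]; rfl
    | zero => rw [mul_zero]; exact Bsp.zero_mem
    | add y z _ _ hy hz => rw [mul_add]; exact Bsp.add_mem hy hz
    | smul a y _ hy => rw [mul_smul_comm]; exact Bsp.smul_mem _ hy
  | zero => rw [zero_mul]; exact Bsp.zero_mem
  | add y z _ _ hy hz => rw [add_mul]; exact Bsp.add_mem hy hz
  | smul a y _ hy => rw [smul_mul_assoc]; exact Bsp.smul_mem _ hy

lemma IsFS.conj {h : ℤ → ℂ} (hh : IsFS h) : IsFS (fun n => conj (h n)) := by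
  rw [isFS_iff] at *
  induction hh using Submodule.span_induction with
  | mem x hx =>
    obtain ⟨ρ, hρ, rfl⟩ := hx
    refine Submodule.subset_span ⟨ρ.map fun x => -x, Measure.isFiniteMeasure_map _ _, ?_⟩
    funext n
    unfold hat
    rw [integral_map continuous_neg.measurable.aemeasurable
      (fourier n).continuous.aestronglyMeasurable, ← integral_conj]
    congr 1
    funext x
    rw [← fourier_neg, fourier_apply, fourier_apply, neg_smul, smul_neg]
  | zero =>
    have h0 : (fun n : ℤ => (starRingEnd ℂ) ((0 : ℤ → ℂ) n)) = 0 := by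
      funext n
      simp
    rw [h0]
    exact Bsp.zero_mem
  | add y z _ _ hy hz =>
    have := Bsp.add_mem hy hz
    convert this using 1
    funext n
    simp
  | smul a y _ hy =>
    have := Bsp.smul_mem ((starRingEnd ℂ) a) hy
    convert this using 1
    funext n
    simp

/-- nonnegative density -/
lemma hat_density (ρ : Measure UnitAddCircle) [IsFiniteMeasure ρ] (w : UnitAddCircle → ℝ)
    (hw : Continuous w) (hw0 : ∀ x, 0 ≤ w x) :
    ∃ σ : Measure UnitAddCircle, IsFiniteMeasure σ ∧
      ∀ n, hat σ n = ∫ x, (w x : ℂ) * fourier n x ∂ρ := by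
  let g : UnitAddCircle → NNReal := fun x => ⟨w x, hw0 x⟩
  have hg : Continuous g := hw.subtype_mk _
  obtain ⟨C, hC⟩ : ∃ C : NNReal, ∀ x, g x ≤ C := by
    obtain ⟨C, hC⟩ := (isCompact_range hg).bddAbove
    exact ⟨C, fun x => hC ⟨x, rfl⟩⟩
  refine ⟨ρ.withDensity (fun x => g x), ?_, fun n => ?_⟩
  · refine isFiniteMeasure_withDensity ?_
    have h1 : ∫⁻ x, (g x : ENNReal) ∂ρ ≤ ∫⁻ _, (C : ENNReal) ∂ρ :=
      lintegral_mono fun x => ENNReal.coe_le_coe.2 (hC x)
    refine (h1.trans_lt ?_).ne
    rw [lintegral_const]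
    exact ENNReal.mul_lt_top ENNReal.coe_lt_top (measure_lt_top _ _)
  · unfold hat
    rw [integral_withDensity_eq_integral_smul hg.measurable]
    congr 1

lemma IsFS.translate {h : ℤ → ℂ} (hh : IsFS h) (m : ℤ) : IsFS (fun n => h (n + m)) := by
  rw [isFS_iff] at *
  induction hh using Submodule.span_induction with
  | mem x hx =>
    obtain ⟨ρ, hρ, rfl⟩ := hx
    have hc : Continuous fun x : UnitAddCircle => (fourier m x : ℂ) := (fourier m).continuous
    have hn : ∀ x : UnitAddCircle, ‖(fourier m x : ℂ)‖ = 1 := fun x => Circle.norm_coe _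
    obtain ⟨σ, hσ, h1⟩ := hat_density ρ (fun x => 1 + (fourier m x : ℂ).re)
      (continuous_const.add (Complex.continuous_re.comp hc)) (fun x => by
        have := Complex.abs_re_le_norm (fourier m x : ℂ)
        rw [hn, abs_le] at this
        linarith)
    obtain ⟨τ, hτ, h2⟩ := hat_density ρ (fun x => 1 + (fourier m x : ℂ).im)
      (continuous_const.add (Complex.continuous_im.comp hc)) (fun x => by
        have := Complex.abs_im_le_norm (fourier m x : ℂ)
        rw [hn, abs_le] at this
        linarith)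
    have h3 : (fun n => hat ρ (n + m)) = hat σ - hat ρ + Complex.I • (hat τ - hat ρ) := by
      funext n
      simp only [Pi.add_apply, Pi.sub_apply, Pi.smul_apply, smul_eq_mul]
      rw [h1, h2]
      unfold hat
      rw [← integral_sub, ← integral_sub, ← integral_const_mul, ← integral_add]
      · congr 1
        funext x
        rw [fourier_add]
        have := Complex.re_add_im (fourier m x : ℂ)
        push_cast
        linear_combination (-(fourier n x : ℂ)) * this
      · refine integrable_of_cont ?_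
        have := (fourier n).continuous (X := UnitAddCircle)
        fun_prop
      · refine integrable_of_cont ?_
        have := (fourier n).continuous (X := UnitAddCircle)
        fun_prop
      · refine integrable_of_cont ?_
        have := (fourier n).continuous (X := UnitAddCircle)
        fun_prop
      · exact integrable_of_cont (fourier n).continuous
      · refine integrable_of_cont ?_
        have := (fourier n).continuous (X := UnitAddCircle)
        fun_prop
      · exact integrable_of_cont (fourier n).continuous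
    rw [h3]
    have h4 : hat ρ ∈ Bsp := Submodule.subset_span ⟨ρ, hρ, rfl⟩
    have h5 : hat σ ∈ Bsp := Submodule.subset_span ⟨σ, hσ, rfl⟩
    have h6 : hat τ ∈ Bsp := Submodule.subset_span ⟨τ, hτ, rfl⟩
    exact Bsp.add_mem (Bsp.sub_mem h5 h4) (Bsp.smul_mem _ (Bsp.sub_mem h6 h4))
  | zero => exact Bsp.zero_mem
  | add y z _ _ hy hz => exact Bsp.add_mem hy hz
  | smul a y _ hy => exact Bsp.smul_mem _ hy

lemma hat_dirac (a : UnitAddCircle) (n : ℤ) : hat (Measure.dirac a) n = fourier n a := by
  unfold hat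
  rw [integral_dirac]

lemma IsFS.const (c : ℂ) : IsFS (fun _ => c) := by
  have h1 := (IsFS.of_hat (Measure.dirac (0 : UnitAddCircle))).smul c
  convert h1 using 1
  funext n
  rw [Pi.smul_apply, hat_dirac, fourier_eval_zero, smul_eq_mul, mul_one]

/-- The finite stage measures. -/
lemma exists_stage (N : ℕ) : ∃ μ : ProbabilityMeasure UnitAddCircle,
    ∀ n : ℤ, hat (μ : Measure UnitAddCircle) n = ((PN N n : ℝ) : ℂ) := by
  induction N with
  | zero =>
    refine ⟨⟨Measure.dirac 0, inferInstance⟩, fun n => ?_⟩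
    change hat (Measure.dirac (0 : UnitAddCircle)) n = _
    rw [hat_dirac, fourier_eval_zero, PN_zero]
    simp
  | succ N ih =>
    obtain ⟨μ, hμ⟩ := ih
    let r : ℝ := 1 / 2 ^ (N ^ 2)
    let c : NNReal := 1 / 2
    let ν : Measure UnitAddCircle :=
      c • Measure.dirac (r : UnitAddCircle) + c • Measure.dirac ((-r : ℝ) : UnitAddCircle)
    have hν : IsProbabilityMeasure ν := by
      constructor
      simp only [ν, c, Measure.coe_add, Pi.add_apply, Measure.smul_apply, measure_univ]
      rw [← add_smul]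
      norm_num
    have hp : IsProbabilityMeasure (((μ : Measure UnitAddCircle).prod ν).map
        fun p : UnitAddCircle × UnitAddCircle => p.1 + p.2) :=
      Measure.isProbabilityMeasure_map (continuous_fst.add continuous_snd).measurable.aemeasurable
    refine ⟨⟨_, hp⟩, fun n => ?_⟩
    change hat (((μ : Measure UnitAddCircle).prod ν).map
        fun p : UnitAddCircle × UnitAddCircle => p.1 + p.2) n = _
    rw [hat_mul, hμ, PN_succ, Complex.ofReal_mul]
    congr 1
    simp only [ν]
    rw [hat_add, hat_smul, hat_smul, hat_dirac, hat_dirac, fourier_coe_apply, fourier_coe_apply,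
      Complex.ofReal_cos, Complex.cos]
    simp only [c, r]
    push_cast
    have e1 : 2 * (Real.pi : ℂ) * Complex.I * n * (1 / 2 ^ N ^ 2) / 1
        = 2 * Real.pi * n / 2 ^ N ^ 2 * Complex.I := by ring
    have e2 : 2 * (Real.pi : ℂ) * Complex.I * n * (-(1 / 2 ^ N ^ 2)) / 1
        = -(2 * Real.pi * n / 2 ^ N ^ 2) * Complex.I := by ring
    rw [e1, e2]
    ring

/-- The infinite product belongs to `B(ℤ)`. -/
lemma exists_limit_measure : ∃ μ : ProbabilityMeasure UnitAddCircle,
    ∀ n : ℤ, hat (μ : Measure UnitAddCircle) n = ((fp n : ℝ) : ℂ) := by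
  choose μ hμ using exists_stage
  set 𝒰 : Ultrafilter ℕ := hyperfilter ℕ with h𝒰
  have hle : (𝒰 : Filter ℕ) ≤ atTop := by
    rw [← Nat.cofinite_eq_atTop]
    exact hyperfilter_le_cofinite
  have h1 := (𝒰.map μ).le_nhds_lim
  set L : ProbabilityMeasure UnitAddCircle := (𝒰.map μ).lim with hL
  have h2 : Tendsto μ 𝒰 (𝓝 L) := by
    rw [Ultrafilter.coe_map] at h1
    exact h1
  refine ⟨L, fun n => ?_⟩
  have h3 := (ProbabilityMeasure.tendsto_iff_forall_integral_rclike_tendsto ℂ).1 h2
    (BoundedContinuousFunction.mkOfCompact (fourier n))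
  have h4 : Tendsto (fun N => hat (μ N : Measure UnitAddCircle) n) 𝒰
      (𝓝 (hat (L : Measure UnitAddCircle) n)) := h3
  have h5 : Tendsto (fun N => hat (μ N : Measure UnitAddCircle) n) 𝒰
      (𝓝 ((fp n : ℝ) : ℂ)) := by
    simp_rw [hμ]
    exact ((Complex.continuous_ofReal.tendsto _).comp (tendsto_fp n)).mono_left hle
  exact tendsto_nhds_unique h4 h5

lemma isFS_fp : IsFS (fun n : ℤ => ((fp n : ℝ) : ℂ)) := by
  obtain ⟨μ, hμ⟩ := exists_limit_measure
  have h := IsFS.of_hat (μ : Measure UnitAddCircle)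
  convert h using 1
  funext n
  exact (hμ n).symm

end

end Pool.Agent.H694R3.Hs
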