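import Mathlib
import Pool.Agent.H694R3.Hs4

open Filter Topology ComplexConjugate MeasureTheory

namespace Pool.Agent.H694R3.Hs

noncomputable section

/-- The cut-off function. -/
def Phi (t : ℝ) : ℝ := max (|t| - 1 / 2) 0

lemma Phi_continuous : Continuous Phi := by unfold Phi; fun_prop

lemma Phi_small {t : ℝ} (h : |t| ≤ 1 / 2) : Phi t = 0 := by
  unfold Phi
  exact max_eq_right (by linarith)

/-- The points of the system. -/
def gg (c : ℝ) (m : ℤ) : ℝ := Phi (c * fp m)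

/-- The shift on all real sequences indexed by `ℤ`. -/
def sh : (ℤ → ℝ) ≃ₜ (ℤ → ℝ) where
  toFun g m := g (m + 1)
  invFun g m := g (m - 1)
  left_inv g := by funext m; simp
  right_inv g := by funext m; simp
  continuous_toFun := by fun_prop
  continuous_invFun := by fun_prop

/-- The orbit closure. -/
def XX : Set (ℤ → ℝ) := closure (Set.range fun (n : ℤ) (m : ℤ) => gg 1 (m + n))

lemma sh_mem_iff (g : ℤ → ℝ) : g ∈ XX ↔ sh g ∈ XX := by
  have h : sh '' (Set.range fun (n : ℤ) (m : ℤ) => gg 1 (m + n))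
      = Set.range fun (n : ℤ) (m : ℤ) => gg 1 (m + n) := by
    ext g
    constructor
    · rintro ⟨_, ⟨n, rfl⟩, rfl⟩
      refine ⟨n + 1, ?_⟩
      funext m
      change gg 1 (m + (n + 1)) = gg 1 (m + 1 + n)
      congr 1
      ring
    · rintro ⟨n, rfl⟩
      refine ⟨_, ⟨n - 1, rfl⟩, ?_⟩
      funext m
      change gg 1 (m + 1 + (n - 1)) = gg 1 (m + n)
      congr 1
      ring
  unfold XX
  conv_rhs => rw [← h, ← Homeomorph.image_closure]
  exact (sh.injective.mem_set_image).symm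

/-- The shift on the orbit closure. -/
def SS : XX ≃ₜ XX := sh.subtype sh_mem_iff

lemma SS_apply (x : XX) (m : ℤ) : (SS x : ℤ → ℝ) m = (x : ℤ → ℝ) (m + 1) := rfl

lemma SS_symm_apply (x : XX) (m : ℤ) : (SS.symm x : ℤ → ℝ) m = (x : ℤ → ℝ) (m - 1) := rfl

lemma SS_zpow (n : ℤ) : ∀ (x : XX) (m : ℤ), ((SS ^ n) x : ℤ → ℝ) m = (x : ℤ → ℝ) (m + n) := by
  induction n using Int.induction_on with
  | zero => intro x m; simp
  | succ n ih =>
    intro x m
    rw [add_comm (n : ℤ) 1, homeo_zpow_add_apply, zpow_one, SS_apply, ih]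
    ring_nf
  | pred n ih =>
    intro x m
    rw [sub_eq_add_neg, add_comm (-(n : ℤ)) (-1), homeo_zpow_add_apply]
    have : ((SS ^ (-1 : ℤ)) ((SS ^ (-(n : ℤ))) x) : XX) = SS.symm ((SS ^ (-(n : ℤ))) x) := by
      rw [zpow_neg, zpow_one]; rfl
    rw [this, SS_symm_apply, ih]
    ring_nf

lemma gg_one_mem : gg 1 ∈ XX := by
  have : gg 1 ∈ Set.range fun (n : ℤ) (m : ℤ) => gg 1 (m + n) := ⟨0, by simp⟩
  exact subset_closure this

/-- The base point. -/
def x0 : XX := ⟨gg 1, gg_one_mem⟩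

lemma XX_dense : Dense (Set.range fun n : ℤ => (SS ^ n) x0) := by
  rw [dense_iff_closure_eq, Set.eq_univ_iff_forall]
  intro x
  rw [closure_subtype]
  have h1 : (Subtype.val '' (Set.range fun n : ℤ => (SS ^ n) x0))
      = Set.range fun (n : ℤ) (m : ℤ) => gg 1 (m + n) := by
    rw [← Set.range_comp]
    congr 1
    funext n
    funext m
    exact SS_zpow n x0 m
  rw [h1]
  exact x.2

lemma isCompact_XX : IsCompact XX := by
  have hK : IsCompact (Set.univ.pi fun _ : ℤ => Set.Icc (0 : ℝ) 1) :=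
    isCompact_univ_pi fun _ => isCompact_Icc
  refine hK.of_isClosed_subset isClosed_closure (closure_minimal ?_ hK.isClosed)
  rintro _ ⟨n, rfl⟩ m _
  have h1 := abs_fp_le ((m + n : ℤ) : ℝ)
  refine ⟨le_max_right _ _, max_le ?_ zero_le_one⟩
  rw [one_mul]
  linarith

instance instCompactXX : CompactSpace XX := isCompact_iff_compactSpace.1 isCompact_XX

lemma conv_pos (c : ℝ) (j : ℕ) :
    Tendsto (fun (k : ℕ) (m : ℤ) => gg c (m + tm j k)) atTop (𝓝 (gg (cj j * c))) := by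
  rw [tendsto_pi_nhds]
  intro m
  unfold gg
  have h1 := (Phi_continuous.tendsto _).comp ((rigid_pos j m).const_mul c)
  have e : c * (cj j * fp m) = cj j * c * fp m := by ring
  rw [e] at h1
  refine h1.congr fun k => ?_
  simp only [Function.comp_apply]
  push_cast
  rfl

lemma conv_neg (c : ℝ) (j : ℕ) :
    Tendsto (fun (k : ℕ) (m : ℤ) => gg c (m + -(tm j k : ℤ))) atTop (𝓝 (gg (cj j * c))) := by
  rw [tendsto_pi_nhds]
  intro m
  unfold gg
  have h1 := (Phi_continuous.tendsto _).comp ((rigid_neg j m).const_mul c)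
  have e : c * (cj j * fp m) = cj j * c * fp m := by ring
  rw [e] at h1
  refine h1.congr fun k => ?_
  simp only [Function.comp_apply]
  push_cast
  rw [sub_eq_add_neg]

lemma pow_mem (j l : ℕ) : gg (cj j ^ l) ∈ XX := by
  induction l with
  | zero => simpa using gg_one_mem
  | succ l ih =>
    rw [pow_succ, mul_comm]
    refine isClosed_closure.mem_of_tendsto (conv_pos (cj j ^ l) j)
      (Eventually.of_forall fun k => ?_)
    have : (fun m : ℤ => gg (cj j ^ l) (m + tm j k))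
        = ((SS ^ (tm j k : ℤ)) ⟨gg (cj j ^ l), ih⟩ : XX) := by
      funext m
      rw [SS_zpow]
    rw [this]
    exact Subtype.mem _

/-- The special points. -/
def pt (j l : ℕ) : XX := ⟨gg (cj j ^ l), pow_mem j l⟩

lemma pt_zero (j : ℕ) : pt j 0 = x0 := by
  apply Subtype.ext
  change gg (cj j ^ 0) = gg 1
  rw [pow_zero]

lemma pt_pos (j l : ℕ) :
    Tendsto (fun k => (SS ^ (tm j k : ℤ)) (pt j l)) atTop (𝓝 (pt j (l + 1))) := by
  rw [tendsto_subtype_rng]
  have := conv_pos (cj j ^ l) j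
  rw [← pow_succ'] at this
  refine this.congr fun k => ?_
  funext m
  rw [SS_zpow]
  rfl

lemma pt_neg (j l : ℕ) :
    Tendsto (fun k => (SS ^ (-(tm j k : ℤ))) (pt j l)) atTop (𝓝 (pt j (l + 1))) := by
  rw [tendsto_subtype_rng]
  have := conv_neg (cj j ^ l) j
  rw [← pow_succ'] at this
  refine this.congr fun k => ?_
  funext m
  rw [SS_zpow]
  rfl

lemma gg_small {c : ℝ} (h0 : 0 ≤ c) (h1 : c ≤ 1 / 2) : gg c = 0 := by
  funext m
  unfold gg
  rw [Pi.zero_apply]
  apply Phi_small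
  rw [abs_mul, abs_of_nonneg h0]
  have h2 := abs_fp_le (m : ℝ)
  have h3 := abs_nonneg (fp (m : ℝ))
  nlinarith

lemma exists_pow_small {j : ℕ} (hj : 3 ≤ j) : ∃ L, ∀ l, L ≤ l → gg (cj j ^ l) = 0 := by
  obtain ⟨L, hL⟩ := exists_pow_lt_of_lt_one (show (0 : ℝ) < 1 / 2 by norm_num) (cj_lt_one hj)
  refine ⟨L, fun l hl => gg_small (pow_nonneg (cj_pos hj).le _) ?_⟩
  exact (pow_le_pow_of_le_one (cj_pos hj).le (cj_lt_one hj).le hl).trans hL.le

lemma zero_mem_XX : (0 : ℤ → ℝ) ∈ XX := by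
  obtain ⟨L, hL⟩ := exists_pow_small (le_refl 3)
  rw [← hL L le_rfl]
  exact pow_mem 3 L

/-- The zero point. -/
def zz : XX := ⟨0, zero_mem_XX⟩

lemma pt_eventually {j : ℕ} (hj : 3 ≤ j) :
    ∃ L, ∀ l, L ≤ l → ∀ m : ℤ, (SS ^ m) (pt j l) = zz := by
  obtain ⟨L, hL⟩ := exists_pow_small hj
  refine ⟨L, fun l hl m => ?_⟩
  apply Subtype.ext
  funext n
  rw [SS_zpow]
  change gg (cj j ^ l) (n + m) = (0 : ℤ → ℝ) n
  rw [hL l hl]
  rfl

lemma pt_one_tendsto : Tendsto (fun j => pt (j + 3) 1) atTop (𝓝 x0) := by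
  rw [tendsto_subtype_rng, tendsto_pi_nhds]
  intro m
  have h1 : Tendsto (fun j : ℕ => cj (j + 3) * fp m) atTop (𝓝 (1 * fp m)) :=
    ((tendsto_cj.comp (tendsto_add_atTop_nat 3)).mul_const _)
  have h2 := (Phi_continuous.tendsto _).comp h1
  refine h2.congr fun j => ?_
  change Phi (cj (j + 3) * fp m) = Phi (cj (j + 3) ^ 1 * fp m)
  rw [pow_one]

/-- The collapsing property of the system. -/
lemma XX_collapse {𝕜 : Type*} [RCLike 𝕜] {H : Type*} [NormedAddCommGroup H]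
    [InnerProductSpace 𝕜 H] [CompleteSpace H] (F : XX → 𝕜) (hF : Continuous F)
    (U : H ≃ₗᵢ[𝕜] H) (ξ : H)
    (hξ : ∀ m : ℤ, inner 𝕜 ξ ((U ^ m) ξ) = F ((SS ^ m) x0)) : U ξ = ξ :=
  collapse SS x0 zz (fun j l => pt (j + 3) l) (fun j k => tm (j + 3) k)
    (fun j => pt_zero (j + 3)) (fun j l => pt_pos (j + 3) l) (fun j l => pt_neg (j + 3) l)
    (fun j => pt_eventually (by omega)) pt_one_tendsto F hF U ξ hξ

lemma x0_ne (j : ℕ) : pt (j + 3) 1 ≠ x0 := by
  intro h
  have h1 : gg (cj (j + 3) ^ 1) 0 = gg 1 0 := by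
    have := congrArg (fun x : XX => (x : ℤ → ℝ) 0) h
    exact this
  unfold gg Phi at h1
  rw [pow_one, Int.cast_zero, fp_zero, mul_one, one_mul] at h1
  have h2 := cj_lt_one (show 3 ≤ j + 3 by omega)
  have h3 := cj_pos (show 3 ≤ j + 3 by omega)
  rw [abs_of_pos h3, abs_one] at h1
  have h4 : max ((1 : ℝ) - 1 / 2) 0 = 1 / 2 := by norm_num
  rw [h4] at h1
  rcases max_choice (cj (j + 3) - 1 / 2) 0 with h5 | h5
  · rw [h5] at h1; linarith
  · rw [h5] at h1; linarith

lemma XX_no_isolated (x : XX) : ¬ IsOpen ({x} : Set XX) := by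
  intro hx
  obtain ⟨y, hy1, n, hn⟩ := XX_dense.inter_open_nonempty _ hx ⟨x, rfl⟩
  simp only at hn
  have hy2 : y = x := hy1
  subst hy2
  have h1 : IsOpen ({x0} : Set XX) := by
    have h2 := hx.preimage (SS ^ n).continuous
    have h3 : (SS ^ n) ⁻¹' {y} = ({x0} : Set XX) := by
      ext w
      simp only [Set.mem_preimage, Set.mem_singleton_iff]
      rw [← hn]
      exact (SS ^ n).injective.eq_iff
    rwa [h3] at h2
  have h4 := pt_one_tendsto.eventually (h1.mem_nhds rfl)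
  obtain ⟨j, hj⟩ := h4.exists
  exact x0_ne j hj

end

end Pool.Agent.H694R3.Hs
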