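import Mathlib
import Pool.Agent.H694R3.Hs5

open Filter Topology ComplexConjugate MeasureTheory

namespace Pool.Agent.H694R3.Hs

noncomputable section

lemma norm_hat_le (ρ : Measure UnitAddCircle) [IsFiniteMeasure ρ] (n : ℤ) :
    ‖hat ρ n‖ ≤ ρ.real Set.univ := by
  unfold hat
  have := norm_integral_le_of_norm_le_const (μ := ρ) (f := fun t : UnitAddCircle => fourier n t)
    (C := 1) (Eventually.of_forall fun x => (Circle.norm_coe _).le)
  simpa using this

lemma IsFS.bounded {h : ℤ → ℂ} (hh : IsFS h) : ∃ C : ℝ, ∀ n, ‖h n‖ ≤ C := by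
  rw [isFS_iff] at hh
  induction hh using Submodule.span_induction with
  | mem x hx =>
    obtain ⟨ρ, hρ, rfl⟩ := hx
    exact ⟨_, norm_hat_le ρ⟩
  | zero => exact ⟨0, fun n => by simp⟩
  | add y z _ _ hy hz =>
    obtain ⟨C, hC⟩ := hy
    obtain ⟨D, hD⟩ := hz
    exact ⟨C + D, fun n => (norm_add_le _ _).trans (add_le_add (hC n) (hD n))⟩
  | smul a y _ hy =>
    obtain ⟨C, hC⟩ := hy
    refine ⟨‖a‖ * C, fun n => ?_⟩
    rw [Pi.smul_apply, norm_smul]
    exact mul_le_mul_of_nonneg_left (hC n) (norm_nonneg _)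

/-- `H(ℤ)`: the uniform limits of elements of `B(ℤ)`. -/
def IsHFun (h : ℤ → ℂ) : Prop := ∀ ε : ℝ, 0 < ε → ∃ b, IsFS b ∧ ∀ n, ‖h n - b n‖ ≤ ε

lemma IsHFun.bounded {h : ℤ → ℂ} (hh : IsHFun h) : ∃ C : ℝ, ∀ n, ‖h n‖ ≤ C := by
  obtain ⟨b, hb, h1⟩ := hh 1 one_pos
  obtain ⟨C, hC⟩ := hb.bounded
  refine ⟨1 + C, fun n => ?_⟩
  calc ‖h n‖ = ‖(h n - b n) + b n‖ := by rw [sub_add_cancel]
    _ ≤ _ := (norm_add_le _ _).trans (add_le_add (h1 n) (hC n))

lemma IsFS.isHFun {h : ℤ → ℂ} (hh : IsFS h) : IsHFun h :=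
  fun ε hε => ⟨h, hh, fun n => by simp [hε.le]⟩

lemma IsHFun.add {h k : ℤ → ℂ} (hh : IsHFun h) (hk : IsHFun k) : IsHFun (fun n => h n + k n) := by
  intro ε hε
  obtain ⟨b, hb, h1⟩ := hh (ε / 2) (by positivity)
  obtain ⟨c, hc, h2⟩ := hk (ε / 2) (by positivity)
  refine ⟨b + c, hb.add hc, fun n => ?_⟩
  rw [Pi.add_apply, add_sub_add_comm]
  calc _ ≤ _ := norm_add_le _ _
    _ ≤ ε / 2 + ε / 2 := add_le_add (h1 n) (h2 n)
    _ = ε := by ring

lemma IsHFun.mul {h k : ℤ → ℂ} (hh : IsHFun h) (hk : IsHFun k) : IsHFun (fun n => h n * k n) := by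
  intro ε hε
  obtain ⟨C, hC⟩ := hh.bounded
  have hC0 : 0 ≤ C := (norm_nonneg _).trans (hC 0)
  obtain ⟨c, hc, h2⟩ := hk (ε / 2 / (C + 1)) (by positivity)
  obtain ⟨D, hD⟩ := hc.bounded
  have hD0 : 0 ≤ D := (norm_nonneg _).trans (hD 0)
  obtain ⟨b, hb, h1⟩ := hh (ε / 2 / (D + 1)) (by positivity)
  refine ⟨b * c, hb.mul hc, fun n => ?_⟩
  rw [Pi.mul_apply]
  have e : h n * k n - b n * c n = h n * (k n - c n) + (h n - b n) * c n := by ring
  rw [e]
  have e1 : ‖h n * (k n - c n)‖ ≤ ε / 2 := by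
    rw [norm_mul]
    calc ‖h n‖ * ‖k n - c n‖ ≤ (C + 1) * (ε / 2 / (C + 1)) := by
          refine mul_le_mul ((hC n).trans (by linarith)) (h2 n) (norm_nonneg _) (by linarith)
      _ = ε / 2 := by field_simp
  have e2 : ‖(h n - b n) * c n‖ ≤ ε / 2 := by
    rw [norm_mul]
    calc ‖h n - b n‖ * ‖c n‖ ≤ (ε / 2 / (D + 1)) * (D + 1) := by
          refine mul_le_mul (h1 n) ((hD n).trans (by linarith)) (norm_nonneg _) (by positivity)
      _ = ε / 2 := by field_simp
  calc _ ≤ _ := norm_add_le _ _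
    _ ≤ ε / 2 + ε / 2 := add_le_add e1 e2
    _ = ε := by ring

lemma IsHFun.conj {h : ℤ → ℂ} (hh : IsHFun h) : IsHFun (fun n => conj (h n)) := by
  intro ε hε
  obtain ⟨b, hb, h1⟩ := hh ε hε
  refine ⟨fun n => (starRingEnd ℂ) (b n), hb.conj, fun n => ?_⟩
  rw [← map_sub, RCLike.norm_conj]
  exact h1 n

lemma isFS_pow (k : ℕ) : IsFS (fun n : ℤ => ((fp n : ℝ) : ℂ) ^ k) := by
  induction k with
  | zero => simpa using IsFS.const 1
  | succ k ih =>
    have := ih.mul isFS_fp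
    convert this using 1
    funext n
    rw [Pi.mul_apply, pow_succ]

lemma isFS_poly (P : Polynomial ℝ) : IsFS (fun n : ℤ => ((P.eval (fp n) : ℝ) : ℂ)) := by
  induction P using Polynomial.induction_on' with
  | add p q hp hq =>
    have := hp.add hq
    convert this using 1
    funext n
    simp
  | monomial k a =>
    have := (isFS_pow k).smul (a : ℂ)
    convert this using 1
    funext n
    simp

/-- The coordinates of the orbit. -/
lemma isHFun_coord (m : ℤ) : IsHFun (fun n : ℤ => ((gg 1 (m + n) : ℝ) : ℂ)) := by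
  intro ε hε
  obtain ⟨P, hP⟩ := exists_polynomial_near_of_continuousOn (-1) 1 Phi
    Phi_continuous.continuousOn ε hε
  refine ⟨fun n => ((P.eval (fp ((n + m : ℤ) : ℝ)) : ℝ) : ℂ), (isFS_poly P).translate m,
    fun n => ?_⟩
  rw [← Complex.ofReal_sub, Complex.norm_real, Real.norm_eq_abs, abs_sub_comm]
  unfold gg
  rw [one_mul, add_comm m n]
  exact (hP _ (abs_le.1 (abs_fp_le _))).le

/-- The star subalgebra of functions whose values along the orbit are in `H(ℤ)`. -/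
def HA {X : Type*} [TopologicalSpace X] [CompactSpace X] (o : ℤ → X) :
    StarSubalgebra ℂ C(X, ℂ) where
  carrier := {F | IsHFun fun n => F (o n)}
  mul_mem' := fun {a b} ha hb => IsHFun.mul ha hb
  one_mem' := by
    change IsHFun fun n => (1 : C(X, ℂ)) (o n)
    exact (IsFS.const 1).isHFun
  add_mem' := fun {a b} ha hb => IsHFun.add ha hb
  zero_mem' := by
    change IsHFun fun n => (0 : C(X, ℂ)) (o n)
    exact (IsFS.const 0).isHFun
  algebraMap_mem' := fun r => by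
    change IsHFun fun n => (algebraMap ℂ C(X, ℂ) r) (o n)
    exact (IsFS.const r).isHFun
  star_mem' := fun {a} ha => by
    change IsHFun fun n => (star a) (o n)
    exact IsHFun.conj ha

lemma HA_top {X : Type*} [TopologicalSpace X] [CompactSpace X] (o : ℤ → X)
    (h : (HA o).SeparatesPoints) (F : C(X, ℂ)) : IsHFun fun n => F (o n) := by
  have h1 := ContinuousMap.starSubalgebra_topologicalClosure_eq_top_of_separatesPoints (HA o) h
  have h2 : F ∈ (HA o).topologicalClosure := by rw [h1]; trivial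
  have h3 : F ∈ closure ((HA o : StarSubalgebra ℂ C(X, ℂ)) : Set C(X, ℂ)) := h2
  intro ε hε
  obtain ⟨G, hG, hFG⟩ := Metric.mem_closure_iff.1 h3 (ε / 2) (by positivity)
  have hG' : IsHFun fun n => G (o n) := hG
  obtain ⟨b, hb, hb2⟩ := hG' (ε / 2) (by positivity)
  refine ⟨b, hb, fun n => ?_⟩
  have e : F (o n) - b n = (F (o n) - G (o n)) + (G (o n) - b n) := by ring
  rw [e]
  have e1 : ‖F (o n) - G (o n)‖ ≤ ε / 2 := by
    rw [← dist_eq_norm]
    exact (ContinuousMap.dist_apply_le_dist (o n)).trans hFG.le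
  calc _ ≤ _ := norm_add_le _ _
    _ ≤ ε / 2 + ε / 2 := add_le_add e1 (hb2 n)
    _ = ε := by ring

/-- The system is Hilbert. -/
lemma XX_hilbert (F : C(XX, ℂ)) : IsHFun fun n : ℤ => F ((SS ^ n) x0) := by
  refine HA_top (fun n : ℤ => (SS ^ n) x0) ?_ F
  intro x y hxy
  obtain ⟨m, hm⟩ : ∃ m, (x : ℤ → ℝ) m ≠ (y : ℤ → ℝ) m := by
    by_contra hcon
    push Not at hcon
    exact hxy (Subtype.ext (funext hcon))
  let G : C(XX, ℂ) := ⟨fun z => (((z : ℤ → ℝ) m : ℝ) : ℂ),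
    Complex.continuous_ofReal.comp ((continuous_apply m).comp continuous_subtype_val)⟩
  refine ⟨G, ⟨G, ?_, rfl⟩, ?_⟩
  · change IsHFun fun n => (((((SS ^ n) x0 : XX) : ℤ → ℝ) m : ℝ) : ℂ)
    simp_rw [SS_zpow]
    exact isHFun_coord m
  · intro h
    exact hm (Complex.ofReal_injective h)

section factors

/-- The collapsing property. -/
def Collapses.{v, u} {X : Type v} [TopologicalSpace X] (T : X ≃ₜ X) (x₀ : X)
    (𝕜 : Type) [RCLike 𝕜] : Prop :=
  ∀ (H : Type u) [NormedAddCommGroup H] [InnerProductSpace 𝕜 H] [CompleteSpace H]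
    (F : X → 𝕜), Continuous F → ∀ (U : H ≃ₗᵢ[𝕜] H) (ξ : H),
    (∀ m : ℤ, inner 𝕜 ξ ((U ^ m) ξ) = F ((T ^ m) x₀)) → U ξ = ξ

lemma rep_zpow {𝕜 : Type*} [RCLike 𝕜] {H : Type*} [NormedAddCommGroup H] [InnerProductSpace 𝕜 H]
    {Y : Type*} [TopologicalSpace Y] (R : Y ≃ₜ Y) (U : H ≃ₗᵢ[𝕜] H) (α : Y → H)
    (h : ∀ y, α (R y) = U (α y)) (n : ℤ) : ∀ y, α ((R ^ n) y) = (U ^ n) (α y) := by
  induction n using Int.induction_on with
  | zero => intro y; simp
  | succ n ih =>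
    intro y
    rw [add_comm (n : ℤ) 1, homeo_zpow_add_apply, zpow_one, h, ih, zpow_add_apply, zpow_one]
  | pred n ih =>
    intro y
    have h1 : ∀ y, α ((R ^ (-1 : ℤ)) y) = (U ^ (-1 : ℤ)) (α y) := by
      intro y
      rw [zpow_neg, zpow_one, zpow_neg, zpow_one]
      change α (R.symm y) = U.symm (α y)
      rw [LinearIsometryEquiv.eq_symm_apply, ← h, Homeomorph.apply_symm_apply]
    rw [sub_eq_add_neg, add_comm (-(n : ℤ)) (-1), homeo_zpow_add_apply, h1, ih, zpow_add_apply]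

lemma factor_zpow {X : Type*} [TopologicalSpace X] {Y : Type*} [TopologicalSpace Y] (T : X ≃ₜ X) (R : Y ≃ₜ Y) (π : X → Y)
    (h : ∀ x, π (T x) = R (π x)) (n : ℤ) : ∀ x, π ((T ^ n) x) = (R ^ n) (π x) := by
  induction n using Int.induction_on with
  | zero => intro y; simp
  | succ n ih =>
    intro y
    rw [add_comm (n : ℤ) 1, homeo_zpow_add_apply, zpow_one, h, ih, homeo_zpow_add_apply, zpow_one]
  | pred n ih =>
    intro y
    have h1 : ∀ y, π ((T ^ (-1 : ℤ)) y) = (R ^ (-1 : ℤ)) (π y) := by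
      intro y
      rw [zpow_neg, zpow_one, zpow_neg, zpow_one]
      change π (T.symm y) = R.symm (π y)
      rw [Homeomorph.eq_symm_apply, ← h, Homeomorph.apply_symm_apply]
    rw [sub_eq_add_neg, add_comm (-(n : ℤ)) (-1), homeo_zpow_add_apply, h1, ih,
      homeo_zpow_add_apply]

lemma no_factor.{v, w, u} {X : Type v} [TopologicalSpace X] {T : X ≃ₜ X} {x₀ : X} (hd : Dense (Set.range fun n : ℤ => (T ^ n) x₀))
    {𝕜 : Type} [RCLike 𝕜] (hc : Collapses.{v, u} T x₀ 𝕜) {Y : Type w} [TopologicalSpace Y] [T2Space Y]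
    (R : Y ≃ₜ Y) (π : X → Y) (hπ : Continuous π) (hs : Function.Surjective π)
    (he : ∀ x, π (T x) = R (π x)) {H : Type u} [NormedAddCommGroup H] [InnerProductSpace 𝕜 H]
    [CompleteSpace H] (U : H ≃ₗᵢ[𝕜] H) (α : Y → H) (hi : Function.Injective α)
    (hα : ∀ v : H, Continuous fun y => inner 𝕜 v (α y)) (hU : ∀ y, α (R y) = U (α y)) :
    Subsingleton Y := by
  have h1 : U (α (π x₀)) = α (π x₀) := by
    refine hc H (fun x => inner 𝕜 (α (π x₀)) (α (π x))) ((hα _).comp hπ) U (α (π x₀)) ?_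
    intro m
    rw [factor_zpow T R π he, rep_zpow R U α hU]
  have h2 : R (π x₀) = π x₀ := hi (by rw [hU, h1])
  have h3 : ∀ n : ℤ, (R ^ n) (π x₀) = π x₀ := by
    intro n
    induction n using Int.induction_on with
    | zero => simp
    | succ n ih => rw [homeo_zpow_add_apply, zpow_one, h2, ih]
    | pred n ih =>
      have h4 : (R ^ (-1 : ℤ)) (π x₀) = π x₀ := by
        rw [zpow_neg, zpow_one]
        change R.symm (π x₀) = π x₀
        rw [Homeomorph.symm_apply_eq, h2]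
      rw [sub_eq_add_neg, homeo_zpow_add_apply, h4, ih]
  have h4 : Set.EqOn π (fun _ => π x₀) (Set.range fun n : ℤ => (T ^ n) x₀) := by
    rintro _ ⟨n, rfl⟩
    simp only
    rw [factor_zpow T R π he, h3]
  have h5 : π = fun _ => π x₀ := Continuous.ext_on hd hπ continuous_const h4
  refine ⟨fun a b => ?_⟩
  obtain ⟨x, rfl⟩ := hs a
  obtain ⟨y, rfl⟩ := hs b
  rw [h5]

/-- The orbit map of continuous functions. -/
lemma orbit_closed {X : Type*} [TopologicalSpace X] [CompactSpace X] {T : X ≃ₜ X} {x₀ : X}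
    (hd : Dense (Set.range fun n : ℤ => (T ^ n) x₀)) {H : Type*} [NormedAddCommGroup H]
    [InnerProductSpace ℂ H] (w : ℤ → H) (C : ℝ) (hw : ∀ n, ‖w n‖ ≤ C) :
    IsClosed {ζ : H | ∃ F : C(X, ℂ), ∀ n : ℤ, inner ℂ ζ (w n) = F ((T ^ n) x₀)} := by
  rw [← isSeqClosed_iff_isClosed]
  intro ζ z hζ hz
  choose F hF using hζ
  have hC0 : 0 ≤ C := (norm_nonneg _).trans (hw 0)
  have key : ∀ i j, dist (F i) (F j) ≤ C * dist (ζ i) (ζ j) := by
    intro i j
    rw [ContinuousMap.dist_le (by positivity)]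
    intro x
    have hcl : IsClosed {x | dist (F i x) (F j x) ≤ C * dist (ζ i) (ζ j)} :=
      isClosed_le ((F i).continuous.dist (F j).continuous) continuous_const
    have hsub : (Set.range fun n : ℤ => (T ^ n) x₀)
        ⊆ {x | dist (F i x) (F j x) ≤ C * dist (ζ i) (ζ j)} := by
      rintro _ ⟨n, rfl⟩
      change dist (F i ((T ^ n) x₀)) (F j ((T ^ n) x₀)) ≤ _
      rw [← hF, ← hF, dist_eq_norm, dist_eq_norm, ← inner_sub_left, mul_comm]
      exact (norm_inner_le_norm _ _).trans (mul_le_mul_of_nonneg_left (hw n) (norm_nonneg _))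
    exact hcl.closure_subset_iff.2 hsub (hd x)
  have hcs : CauchySeq F := by
    have h1 := hz.cauchySeq
    rw [Metric.cauchySeq_iff] at h1 ⊢
    intro ε hε
    obtain ⟨N, hN⟩ := h1 (ε / (C + 1)) (by positivity)
    refine ⟨N, fun m hm n hn => ?_⟩
    refine (key m n).trans_lt ?_
    have h2 := hN m hm n hn
    rw [lt_div_iff₀ (by positivity)] at h2
    nlinarith [dist_nonneg (x := ζ m) (y := ζ n)]
  obtain ⟨G, hG⟩ := cauchySeq_tendsto_of_complete hcs
  refine ⟨G, fun n => ?_⟩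
  have h2 : Tendsto (fun i => inner ℂ (ζ i) (w n)) atTop (𝓝 (inner ℂ z (w n))) :=
    hz.inner tendsto_const_nhds
  have h3 : Tendsto (fun i => inner ℂ (ζ i) (w n)) atTop (𝓝 (G ((T ^ n) x₀))) := by
    have h4 : Tendsto (fun i => F i ((T ^ n) x₀)) atTop (𝓝 (G ((T ^ n) x₀))) :=
      ((continuous_eval_const ((T ^ n) x₀)).tendsto G).comp hG
    exact h4.congr fun i => (hF i n).symm
  exact tendsto_nhds_unique h2 h3

/-- A continuous function whose orbit values form a matrix coefficient is constant. -/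
lemma coeff_const.{v} {X : Type v} [TopologicalSpace X] [CompactSpace X] {T : X ≃ₜ X} {x₀ : X}
    (hd : Dense (Set.range fun n : ℤ => (T ^ n) x₀)) {H : Type} [NormedAddCommGroup H]
    [InnerProductSpace ℂ H] [CompleteSpace H] (hc : Collapses.{v, 0} T x₀ ℂ) (U : H ≃ₗᵢ[ℂ] H)
    (η ξ : H) (F : C(X, ℂ)) (hF : ∀ n : ℤ, F ((T ^ n) x₀) = inner ℂ η ((U ^ n) ξ)) :
    ∃ c, ∀ x, F x = c := by
  let K : Submodule ℂ H := (Submodule.span ℂ (Set.range fun m : ℤ => (U ^ m) η)).topologicalClosure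
  have hKc : IsClosed (K : Set H) := Submodule.isClosed_topologicalClosure _
  have hKcs : CompleteSpace K := hKc.completeSpace_coe
  let ξ' : H := K.starProjection ξ
  have hξ'mem : ξ' ∈ K := Submodule.starProjection_apply_mem K ξ
  have hmemK : ∀ m : ℤ, (U ^ m) η ∈ K := fun m =>
    Submodule.le_topologicalClosure _ (Submodule.subset_span ⟨m, rfl⟩)
  have hproj : ∀ v ∈ K, inner ℂ v ξ' = inner ℂ v ξ := by
    intro v hv
    have h1 : ξ - ξ' ∈ Kᗮ := Submodule.sub_starProjection_mem_orthogonal ξ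
    have h2 := (Submodule.mem_orthogonal K (ξ - ξ')).1 h1 v hv
    rw [inner_sub_right, sub_eq_zero] at h2
    exact h2.symm
  have hF' : ∀ n : ℤ, inner ℂ η ((U ^ n) ξ') = F ((T ^ n) x₀) := by
    intro n
    rw [hF, inner_zpow', inner_zpow', hproj _ (hmemK (-n))]
  let W : Set H := {ζ : H | ∃ G : C(X, ℂ), ∀ n : ℤ, inner ℂ ζ ((U ^ n) ξ') = G ((T ^ n) x₀)}
  have hWc : IsClosed W := orbit_closed hd (fun n => (U ^ n) ξ') ‖ξ'‖
    (fun n => by rw [LinearIsometryEquiv.norm_map])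
  let WS : Submodule ℂ H :=
    { carrier := W
      add_mem' := by
        rintro a b ⟨G, hG⟩ ⟨G', hG'⟩
        refine ⟨G + G', fun n => ?_⟩
        rw [inner_add_left, hG, hG']; rfl
      zero_mem' := ⟨0, fun n => by simp⟩
      smul_mem' := by
        rintro c a ⟨G, hG⟩
        refine ⟨(starRingEnd ℂ) c • G, fun n => ?_⟩
        rw [inner_smul_left, hG]; rfl }
  have hle : K ≤ WS := by
    refine Submodule.topologicalClosure_minimal _ ?_ hWc
    rw [Submodule.span_le]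
    rintro _ ⟨m, rfl⟩
    refine ⟨F.comp ⟨(T ^ (-m) : X ≃ₜ X), (T ^ (-m)).continuous⟩, fun n => ?_⟩
    change inner ℂ ((U ^ m) η) ((U ^ n) ξ') = F ((T ^ (-m)) ((T ^ n) x₀))
    rw [inner_zpow, ← zpow_add_apply, ← homeo_zpow_add_apply, hF']
  obtain ⟨G, hG⟩ := hle hξ'mem
  have hfix : U ξ' = ξ' := hc H G G.continuous U ξ' hG
  have hfixn : ∀ n : ℤ, (U ^ n) ξ' = ξ' := by
    intro n
    induction n using Int.induction_on with
    | zero => simp
    | succ n ih => rw [zpow_add_apply, zpow_one, hfix, ih]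
    | pred n ih =>
      have h4 : (U ^ (-1 : ℤ)) ξ' = ξ' := by
        rw [zpow_neg, zpow_one]
        change U.symm ξ' = ξ'
        rw [LinearIsometryEquiv.symm_apply_eq, hfix]
      rw [sub_eq_add_neg, zpow_add_apply, h4, ih]
  refine ⟨inner ℂ η ξ', fun x => ?_⟩
  have h4 : Set.EqOn F (fun _ => inner ℂ η ξ') (Set.range fun n : ℤ => (T ^ n) x₀) := by
    rintro _ ⟨n, rfl⟩
    simp only
    rw [← hF' n, hfixn]
  exact congrFun (Continuous.ext_on hd F.continuous continuous_const h4) x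

end factors

lemma XX_collapses.{u} (𝕜 : Type) [RCLike 𝕜] : Collapses.{0, u} SS x0 𝕜 := by
  intro H _ _ _ F hF U ξ hξ
  exact XX_collapse F hF U ξ hξ

end

end Pool.Agent.H694R3.Hs
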