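import Mathlib
import Pool.Agent.H694R3.Hs6

open Filter Topology ComplexConjugate

namespace Pool.Agent.H694R3.Gf

open Pool.Agent.H694R3.Hs

noncomputable section

section weak

variable {𝕜 : Type*} [RCLike 𝕜] {H : Type*} [NormedAddCommGroup H] [InnerProductSpace 𝕜 H]
  [CompleteSpace H]

/-- Bounded families have weak limits along ultrafilters, of the same bound. -/
lemma exists_weak_limit' {ι : Type*} (𝒰 : Ultrafilter ι) (u : ι → H) (C : ℝ)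
    (hu : ∀ k, ‖u k‖ ≤ C) :
    ∃ v : H, ‖v‖ ≤ C ∧ ∀ y, Tendsto (fun k => inner 𝕜 y (u k)) 𝒰 (𝓝 (inner 𝕜 y v)) := by
  let w : ι → WeakDual 𝕜 H := fun k => StrongDual.toWeakDual (InnerProductSpace.toDual 𝕜 H (u k))
  have hc : IsCompact (WeakDual.toStrongDual ⁻¹' Metric.closedBall (0 : StrongDual 𝕜 H) C) :=
    WeakDual.isCompact_closedBall 0 C
  have hmem : ∀ k, w k ∈ (WeakDual.toStrongDual ⁻¹' Metric.closedBall (0 : StrongDual 𝕜 H) C) := by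
    intro k
    have h0 : InnerProductSpace.toDual 𝕜 H (u k) ∈ Metric.closedBall (0 : StrongDual 𝕜 H) C := by
      rw [mem_closedBall_zero_iff, LinearIsometryEquiv.norm_map]
      exact hu k
    exact h0
  have h1 : ((𝒰.map w : Ultrafilter (WeakDual 𝕜 H)) : Filter (WeakDual 𝕜 H))
      ≤ 𝓟 (WeakDual.toStrongDual ⁻¹' Metric.closedBall (0 : StrongDual 𝕜 H) C) := by
    rw [le_principal_iff, Ultrafilter.coe_map, mem_map]
    exact Eventually.of_forall hmem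
  obtain ⟨ℓ, hb, hℓ⟩ := hc.ultrafilter_le_nhds (𝒰.map w) h1
  refine ⟨(InnerProductSpace.toDual 𝕜 H).symm (WeakDual.toStrongDual ℓ), ?_, fun y => ?_⟩
  · rw [LinearIsometryEquiv.norm_map]
    exact mem_closedBall_zero_iff.1 hb
  have h2 : Tendsto w 𝒰 (𝓝 ℓ) := by
    rw [Ultrafilter.coe_map] at hℓ
    exact hℓ
  have h3 := ((WeakDual.eval_continuous (𝕜 := 𝕜) y).tendsto ℓ).comp h2
  have h4 : Tendsto (fun k => inner 𝕜 (u k) y) 𝒰
      (𝓝 (inner 𝕜 ((InnerProductSpace.toDual 𝕜 H).symm (WeakDual.toStrongDual ℓ)) y)) := by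
    rw [InnerProductSpace.toDual_symm_apply]
    exact h3
  have h5 := (RCLike.continuous_conj.tendsto _).comp h4
  rw [inner_conj_symm] at h5
  refine h5.congr fun k => ?_
  rw [Function.comp_apply, inner_conj_symm]

/-- The weak limit of the powers of `U` along an ultrafilter. -/
def wl (U : H ≃ₗᵢ[𝕜] H) (𝒰 : Ultrafilter ℤ) (v : H) : H :=
  (exists_weak_limit' (𝕜 := 𝕜) 𝒰 (fun n => (U ^ n) v) ‖v‖
    (fun n => (LinearIsometryEquiv.norm_map _ _).le)).choose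

lemma norm_wl (U : H ≃ₗᵢ[𝕜] H) (𝒰 : Ultrafilter ℤ) (v : H) : ‖wl U 𝒰 v‖ ≤ ‖v‖ :=
  (exists_weak_limit' (𝕜 := 𝕜) 𝒰 (fun n => (U ^ n) v) ‖v‖
    (fun n => (LinearIsometryEquiv.norm_map _ _).le)).choose_spec.1

lemma wl_tendsto (U : H ≃ₗᵢ[𝕜] H) (𝒰 : Ultrafilter ℤ) (v y : H) :
    Tendsto (fun n : ℤ => inner 𝕜 y ((U ^ n) v)) 𝒰 (𝓝 (inner 𝕜 y (wl U 𝒰 v))) :=
  (exists_weak_limit' (𝕜 := 𝕜) 𝒰 (fun n => (U ^ n) v) ‖v‖
    (fun n => (LinearIsometryEquiv.norm_map _ _).le)).choose_spec.2 y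

lemma eq_wl (U : H ≃ₗᵢ[𝕜] H) (𝒰 : Ultrafilter ℤ) (v w : H)
    (h : ∀ y, Tendsto (fun n : ℤ => inner 𝕜 y ((U ^ n) v)) 𝒰 (𝓝 (inner 𝕜 y w))) :
    w = wl U 𝒰 v :=
  ext_inner_left 𝕜 fun y => tendsto_nhds_unique (h y) (wl_tendsto U 𝒰 v y)

/-- The weak limit as an operator. -/
def WL (U : H ≃ₗᵢ[𝕜] H) (𝒰 : Ultrafilter ℤ) : H →L[𝕜] H :=
  LinearMap.mkContinuous
    { toFun := wl U 𝒰
      map_add' := fun a b => by
        symm
        apply eq_wl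
        intro y
        simp only [map_add, inner_add_right]
        exact (wl_tendsto U 𝒰 a y).add (wl_tendsto U 𝒰 b y)
      map_smul' := fun c a => by
        symm
        apply eq_wl
        intro y
        simp only [map_smul, inner_smul_right, RingHom.id_apply]
        exact (wl_tendsto U 𝒰 a y).const_mul c }
    1 (fun v => by rw [one_mul]; exact norm_wl U 𝒰 v)

lemma WL_tendsto (U : H ≃ₗᵢ[𝕜] H) (𝒰 : Ultrafilter ℤ) (v y : H) :
    Tendsto (fun n : ℤ => inner 𝕜 y ((U ^ n) v)) 𝒰 (𝓝 (inner 𝕜 y (WL U 𝒰 v))) :=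
  wl_tendsto U 𝒰 v y

lemma eq_WL (U : H ≃ₗᵢ[𝕜] H) (𝒰 : Ultrafilter ℤ) (v w : H)
    (h : ∀ y, Tendsto (fun n : ℤ => inner 𝕜 y ((U ^ n) v)) 𝒰 (𝓝 (inner 𝕜 y w))) :
    w = WL U 𝒰 v := eq_wl U 𝒰 v w h

/-- Bounded operators commuting with `U` commute with the weak limits. -/
lemma WL_comm (U : H ≃ₗᵢ[𝕜] H) (𝒰 : Ultrafilter ℤ) (A : H →L[𝕜] H)
    (hA : ∀ (n : ℤ) v, A ((U ^ n) v) = (U ^ n) (A v)) (v : H) :
    A (WL U 𝒰 v) = WL U 𝒰 (A v) := by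
  apply eq_WL
  intro y
  rw [← ContinuousLinearMap.adjoint_inner_left]
  refine (WL_tendsto U 𝒰 v _).congr fun n => ?_
  rw [ContinuousLinearMap.adjoint_inner_left, hA]

lemma WL_zpow (U : H ≃ₗᵢ[𝕜] H) (𝒰 : Ultrafilter ℤ) (m : ℤ) (v : H) :
    WL U 𝒰 ((U ^ m) v) = (U ^ m) (WL U 𝒰 v) := by
  symm
  apply eq_WL
  intro y
  rw [inner_zpow']
  refine (WL_tendsto U 𝒰 v _).congr fun n => ?_
  rw [← inner_zpow', ← zpow_add_apply, ← zpow_add_apply, add_comm]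

lemma WL_WL (U : H ≃ₗᵢ[𝕜] H) (𝒰 𝒱 : Ultrafilter ℤ) (v : H) :
    WL U 𝒰 (WL U 𝒱 v) = WL U 𝒱 (WL U 𝒰 v) :=
  WL_comm U 𝒱 (WL U 𝒰) (fun n v => WL_zpow U 𝒰 n v) v

lemma WL_adjoint (U : H ≃ₗᵢ[𝕜] H) (𝒰 : Ultrafilter ℤ) (v : H) :
    ContinuousLinearMap.adjoint (WL U 𝒰) v = WL U (𝒰.map (fun n => -n)) v := by
  apply ext_inner_left 𝕜
  intro y
  rw [ContinuousLinearMap.adjoint_inner_right]
  have h1 := (WL_tendsto U (𝒰.map (fun n => -n)) v y)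
  rw [Ultrafilter.coe_map, tendsto_map'_iff] at h1
  have h2 := (RCLike.continuous_conj.tendsto _).comp (WL_tendsto U 𝒰 y v)
  rw [inner_conj_symm] at h2
  refine tendsto_nhds_unique h2 (h1.congr fun n => ?_)
  rw [Function.comp_apply, Function.comp_apply, inner_conj_symm, inner_zpow]

lemma WL_normal (U : H ≃ₗᵢ[𝕜] H) (𝒰 : Ultrafilter ℤ) (v : H) (h : WL U 𝒰 (WL U 𝒰 v) = 0) :
    WL U 𝒰 v = 0 := by
  have h1 : ContinuousLinearMap.adjoint (WL U 𝒰) (WL U 𝒰 v) = 0 := by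
    rw [← inner_self_eq_zero (𝕜 := 𝕜), ContinuousLinearMap.adjoint_inner_left, WL_adjoint,
      WL_WL, h, map_zero, inner_zero_right]
  rw [← inner_self_eq_zero (𝕜 := 𝕜), ← ContinuousLinearMap.adjoint_inner_left, h1,
    inner_zero_left]

lemma WL_pow_ker (U : H ≃ₗᵢ[𝕜] H) (𝒰 : Ultrafilter ℤ) (L : ℕ) :
    ∀ v : H, (WL U 𝒰)^[L + 1] v = 0 → WL U 𝒰 v = 0 := by
  induction L with
  | zero => intro v h; simpa using h
  | succ L ih =>
    intro v h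
    apply WL_normal
    apply ih
    rw [Function.iterate_succ_apply] at h
    exact h

end weak

end

end Pool.Agent.H694R3.Gf
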