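import Mathlib
import Pool.Agent.H694R3.Gf1

open Filter Topology ComplexConjugate

namespace Pool.Agent.H694R3.Gf

open Pool.Agent.H694R3.Hs

noncomputable section

lemma zz_fix (m : ℤ) : (SS ^ m) zz = zz := by
  apply Subtype.ext
  funext n
  rw [SS_zpow]
  rfl

lemma x0_ne_zz : x0 ≠ zz := by
  intro h
  have h1 : gg 1 0 = 0 := congrArg (fun x : XX => (x : ℤ → ℝ) 0) h
  unfold gg Phi at h1
  rw [Int.cast_zero, fp_zero] at h1
  norm_num at h1

attribute [local instance] Ultrafilter.addSemigroup in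
/-- An idempotent ultrafilter contracting `x0` to `zz`. -/
lemma exists_idem : ∃ 𝒰 : Ultrafilter ℤ, Tendsto (fun n : ℤ => (SS ^ n) x0) 𝒰 (𝓝 zz) ∧
    ∀ p : ℤ → Prop, (∀ᶠ m in (𝒰 : Filter ℤ), p m) ↔
      ∀ᶠ m in (𝒰 : Filter ℤ), ∀ᶠ m' in (𝒰 : Filter ℤ), p (m + m') := by
  let s : Set (Ultrafilter ℤ) := {𝒰 | Tendsto (fun n : ℤ => (SS ^ n) x0) 𝒰 (𝓝 zz)}
  have hne : s.Nonempty := by
    have h1 : (comap (fun n : ℤ => (SS ^ n) x0) (𝓝 zz)).NeBot := by
      refine comap_neBot fun t ht => ?_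
      obtain ⟨y, hy, n, hn⟩ := mem_closure_iff_nhds.1 (XX_dense zz) t ht
      exact ⟨n, by simpa only [hn] using hy⟩
    exact ⟨Ultrafilter.of _, tendsto_comap.mono_left (Ultrafilter.of_le _)⟩
  have hcl : IsClosed s := by
    have h1 : s = ⋂ t ∈ 𝓝 zz, {𝒰 : Ultrafilter ℤ | (fun n : ℤ => (SS ^ n) x0) ⁻¹' t ∈ 𝒰} := by
      ext 𝒰
      simp only [Set.mem_iInter, Set.mem_setOf_eq, s]
      exact Iff.rfl
    rw [h1]
    exact isClosed_biInter fun t _ => ultrafilter_isClosed_basic _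
  obtain ⟨𝒰, hU, hid⟩ := exists_idempotent_in_compact_add_subsemigroup
    (fun r => Ultrafilter.continuous_add_left r) s hne hcl.isCompact (by
      intro 𝒰 _ 𝒱 hV
      change Tendsto _ _ _
      intro t ht
      rw [mem_map]
      change ∀ᶠ m in ((𝒰 + 𝒱 : Ultrafilter ℤ) : Filter ℤ), (SS ^ m) x0 ∈ t
      rw [Ultrafilter.eventually_add]
      refine Eventually.of_forall fun m => ?_
      have h2 : Tendsto (fun n : ℤ => (SS ^ m) ((SS ^ n) x0)) 𝒱 (𝓝 ((SS ^ m) zz)) :=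
        ((SS ^ m).continuous.tendsto _).comp hV
      rw [zz_fix] at h2
      filter_upwards [h2 ht] with n hn
      rw [homeo_zpow_add_apply]
      exact hn)
  refine ⟨𝒰, hU, fun p => ?_⟩
  rw [← Ultrafilter.eventually_add, hid]

section lm

variable {X : Type*} [TopologicalSpace X] [CompactSpace X]

/-- The limit of `T ^ n x` along an ultrafilter. -/
def lm (T : X ≃ₜ X) (𝒰 : Ultrafilter ℤ) (x : X) : X := (𝒰.map fun n => (T ^ n) x).lim

lemma lm_tendsto (T : X ≃ₜ X) (𝒰 : Ultrafilter ℤ) (x : X) :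
    Tendsto (fun n : ℤ => (T ^ n) x) 𝒰 (𝓝 (lm T 𝒰 x)) := by
  have := (𝒰.map fun n => (T ^ n) x).le_nhds_lim
  rwa [Ultrafilter.coe_map] at this

end lm

/-- The main obstruction: `XX` is not a group factor of a Hilbert representable system. -/
lemma no_group.{v, w} {𝕜 : Type} [RCLike 𝕜] {X : Type v} [TopologicalSpace X] [CompactSpace X]
    [T2Space X] (T : X ≃ₜ X) (K : Set (X ≃ₜ X)) (π : X → XX) (hπ : Continuous π)
    (hs : Function.Surjective π) (he : ∀ x, π (T x) = SS (π x))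
    (hcomm : ∀ k ∈ K, ∀ x, k (T x) = T (k x))
    (horb : ∀ x y, π x = π y → ∃ k ∈ K, k x = y)
    {H : Type w} [NormedAddCommGroup H] [InnerProductSpace 𝕜 H] [CompleteSpace H]
    (U : H ≃ₗᵢ[𝕜] H) (α : X → H) (hi : Function.Injective α)
    (hα : ∀ v : H, Continuous fun x => inner 𝕜 v (α x)) (hU : ∀ x, α (T x) = U (α x)) :
    False := by
  have hπn := factor_zpow T SS π he
  have hαn := rep_zpow T U α hU
  have hαl : ∀ (𝒱 : Ultrafilter ℤ) x, α (lm T 𝒱 x) = WL U 𝒱 (α x) := by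
    intro 𝒱 x
    apply eq_WL
    intro y
    have := ((hα y).tendsto _).comp (lm_tendsto T 𝒱 x)
    refine this.congr fun n => ?_
    rw [Function.comp_apply, hαn]
  have hπl : ∀ (𝒱 : Ultrafilter ℤ) x, Tendsto (fun n : ℤ => (SS ^ n) (π x)) 𝒱
      (𝓝 (π (lm T 𝒱 x))) := by
    intro 𝒱 x
    refine ((hπ.tendsto _).comp (lm_tendsto T 𝒱 x)).congr fun n => ?_
    rw [Function.comp_apply, hπn]
  obtain ⟨𝒰, hU0, hid⟩ := exists_idem
  have hEE : ∀ v, WL U 𝒰 (WL U 𝒰 v) = WL U 𝒰 v := by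
    intro v
    apply eq_WL
    intro y
    rw [tendsto_nhds]
    intro W hW hm
    change ∀ᶠ n in (𝒰 : Filter ℤ), inner 𝕜 y ((U ^ n) v) ∈ W
    rw [hid]
    filter_upwards [(WL_tendsto U 𝒰 (WL U 𝒰 v) y).eventually (hW.mem_nhds hm)] with m hm'
    rw [inner_zpow'] at hm'
    filter_upwards [(WL_tendsto U 𝒰 v _).eventually (hW.mem_nhds hm')] with m' h'
    rw [zpow_add_apply, inner_zpow']
    exact h'
  have hzz : ∀ x, π x = zz → π (lm T 𝒰 x) = zz := by
    intro x hx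
    refine tendsto_nhds_unique (hπl 𝒰 x) ?_
    rw [hx]
    simp only [zz_fix]
    exact tendsto_const_nhds
  have hx0 : ∀ x, π x = x0 → π (lm T 𝒰 x) = zz := by
    intro x hx
    refine tendsto_nhds_unique (hπl 𝒰 x) ?_
    rw [hx]
    exact hU0
  have hφφ : ∀ x, lm T 𝒰 (lm T 𝒰 x) = lm T 𝒰 x := by
    intro x
    apply hi
    rw [hαl, hαl, hEE]
  have hφk : ∀ k ∈ K, ∀ x, lm T 𝒰 (k x) = k (lm T 𝒰 x) := by
    intro k hk x
    refine tendsto_nhds_unique (lm_tendsto T 𝒰 (k x)) ?_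
    refine ((k.continuous.tendsto _).comp (lm_tendsto T 𝒰 x)).congr fun n => ?_
    rw [Function.comp_apply]
    exact factor_zpow T T k (hcomm k hk) n x
  have hfixz : ∀ x, π x = zz → WL U 𝒰 (α x) = α x := by
    intro x hx
    obtain ⟨k, hk, hkx⟩ := horb (lm T 𝒰 x) x (by rw [hzz x hx, hx])
    rw [← hαl]
    congr 1
    calc lm T 𝒰 x = lm T 𝒰 (k (lm T 𝒰 x)) := by rw [hkx]
      _ = k (lm T 𝒰 (lm T 𝒰 x)) := hφk k hk _
      _ = x := by rw [hφφ, hkx]
  obtain ⟨x, hx⟩ := hs x0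
  have key : ∀ j : ℕ, ∃ y, π y = pt (j + 3) 1 ∧ WL U 𝒰 (α y) = α y := by
    intro j
    let 𝒱 : Ultrafilter ℤ := (Ultrafilter.of (atTop : Filter ℕ)).map
      fun k => (tm (j + 3) k : ℤ)
    have hstep : ∀ l y, π y = pt (j + 3) l → π (lm T 𝒱 y) = pt (j + 3) (l + 1) := by
      intro l y hy
      refine tendsto_nhds_unique (hπl 𝒱 y) ?_
      rw [hy, Ultrafilter.coe_map, tendsto_map'_iff]
      exact (pt_pos (j + 3) l).mono_left (Ultrafilter.of_le _)
    have hit : ∀ l : ℕ, ∃ y, π y = pt (j + 3) l ∧ α y = (WL U 𝒱)^[l] (α x) := by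
      intro l
      induction l with
      | zero => exact ⟨x, by rw [hx, pt_zero], rfl⟩
      | succ l ih =>
        obtain ⟨y, hy1, hy2⟩ := ih
        refine ⟨lm T 𝒱 y, hstep l y hy1, ?_⟩
        rw [hαl, hy2, Function.iterate_succ_apply']
    have hlin : ∀ (l : ℕ) (v : H), (WL U 𝒱)^[l] (v - WL U 𝒰 v)
        = (WL U 𝒱)^[l] v - WL U 𝒰 ((WL U 𝒱)^[l] v) := by
      intro l
      induction l with
      | zero => intro v; rfl
      | succ l ih =>
        intro v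
        rw [Function.iterate_succ_apply, map_sub, WL_WL U 𝒱 𝒰, ih, Function.iterate_succ_apply]
    obtain ⟨L, hL⟩ := pt_eventually (show 3 ≤ j + 3 by omega)
    obtain ⟨y, hy1, hy2⟩ := hit (L + 1)
    have hyz : π y = zz := by
      rw [hy1]
      have := hL (L + 1) (by omega) 0
      simpa using this
    have h1 : (WL U 𝒱)^[L + 1] (α x - WL U 𝒰 (α x)) = 0 := by
      rw [hlin, ← hy2, hfixz y hyz, sub_self]
    have h2 := WL_pow_ker U 𝒱 L _ h1
    rw [map_sub, WL_WL U 𝒱 𝒰, sub_eq_zero] at h2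
    refine ⟨lm T 𝒱 x, hstep 0 x (by rw [hx, pt_zero]), ?_⟩
    rw [hαl, ← h2]
  have hFix : IsClosed {y : X | WL U 𝒰 (α y) = α y} := by
    have h1 : {y : X | WL U 𝒰 (α y) = α y} = ⋂ w : H,
        {y : X | inner 𝕜 (ContinuousLinearMap.adjoint (WL U 𝒰) w) (α y) = inner 𝕜 w (α y)} := by
      ext y
      simp only [Set.mem_iInter, Set.mem_setOf_eq, ContinuousLinearMap.adjoint_inner_left]
      exact ⟨fun h w => by rw [h], fun h => ext_inner_left 𝕜 h⟩
    rw [h1]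
    exact isClosed_iInter fun w => isClosed_eq (hα _) (hα _)
  have hcl : IsClosed (π '' {y : X | WL U 𝒰 (α y) = α y}) :=
    (hFix.isCompact.image hπ).isClosed
  obtain ⟨y, hy, hyx⟩ : x0 ∈ π '' {y : X | WL U 𝒰 (α y) = α y} := by
    refine hcl.mem_of_tendsto pt_one_tendsto (Eventually.of_forall fun j => ?_)
    obtain ⟨y, hy1, hy2⟩ := key j
    exact ⟨y, hy2, hy1⟩
  have hφy : lm T 𝒰 y = y := by
    apply hi
    rw [hαl]
    exact hy
  have := hx0 y hyx
  rw [hφy, hyx] at this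
  exact x0_ne_zz this

end

end Pool.Agent.H694R3.Gf
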