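import Mathlib
import Pool.Agent.H694R3.Gf2

open Filter Topology ComplexConjugate

namespace Pool.Agent.H694R3.Gf

open Pool.Agent.H694R3.Hs

noncomputable section

section average

variable {H : Type*} [NormedAddCommGroup H] [InnerProductSpace ℂ H] [CompleteSpace H]

/-- A nonempty closed set, convex in the midpoint sense below, has a unique vector of minimal
norm. -/
lemma exists_min (C : Set H) (hne : C.Nonempty) (hcl : IsClosed C)
    (hcv : ∀ a ∈ C, ∀ b ∈ C, ∀ s t : ℝ, 0 ≤ s → 0 ≤ t → s + t = 1 →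
      ((s : ℂ) • a + (t : ℂ) • b) ∈ C) :
    ∃ ζ ∈ C, ∀ ζ' ∈ C, ‖ζ'‖ ≤ ‖ζ‖ → ζ' = ζ := by
  let _ : InnerProductSpace ℝ H := InnerProductSpace.rclikeToReal ℂ H
  have hconv : Convex ℝ C := by
    intro a ha b hb s t hs ht hst
    have := hcv a ha b hb s t hs ht hst
    exact this
  obtain ⟨ζ, hζ, hmin⟩ := exists_norm_eq_iInf_of_complete_convex hne hcl.isComplete hconv 0
  have hmin' : ∀ w ∈ C, ‖ζ‖ ≤ ‖w‖ := by
    intro w hw
    rw [zero_sub, norm_neg] at hmin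
    rw [hmin]
    have hb : BddBelow (Set.range fun w : C => ‖(0 : H) - w‖) :=
      ⟨0, by rintro _ ⟨w, rfl⟩; exact norm_nonneg _⟩
    have := ciInf_le hb ⟨w, hw⟩
    simpa using this
  refine ⟨ζ, hζ, fun ζ' hζ' hle => ?_⟩
  have hmid : (((1 / 2 : ℝ) : ℂ) • ζ + ((1 / 2 : ℝ) : ℂ) • ζ') ∈ C :=
    hcv ζ hζ ζ' hζ' _ _ (by norm_num) (by norm_num) (by norm_num)
  have h1 := hmin' _ hmid
  rw [← smul_add, norm_smul, Complex.norm_real, Real.norm_eq_abs,
    abs_of_pos (by norm_num : (0 : ℝ) < 1 / 2)] at h1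
  have h2 := parallelogram_law_with_norm ℂ ζ ζ'
  have h3 : ‖ζ - ζ'‖ = 0 := by
    have h4 := norm_nonneg ζ
    have h5 := norm_nonneg ζ'
    have h6 := norm_nonneg (ζ - ζ')
    have h7 : ‖ζ‖ * ‖ζ‖ * 4 ≤ ‖ζ + ζ'‖ * ‖ζ + ζ'‖ := by nlinarith
    nlinarith
  exact (sub_eq_zero.1 (norm_eq_zero.1 h3)).symm

/-- Averaging a matrix coefficient against the recurrence of `y₀`. -/
lemma average {Y : Type*} [TopologicalSpace Y] (T : Y ≃ₜ Y) (y₀ : Y) (f : Y → ℂ)
    (hf : Continuous f) (δ : ℝ) (U : H ≃ₗᵢ[ℂ] H) (η ξ : H)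
    (hξ : ∀ n : ℤ, ‖f ((T ^ n) y₀) - inner ℂ η ((U ^ n) ξ)‖ ≤ δ) :
    ∃ ζ : H, (∀ n : ℤ, ‖f ((T ^ n) y₀) - inner ℂ η ((U ^ n) ζ)‖ ≤ δ) ∧
      ∀ 𝒱 : Ultrafilter ℤ, Tendsto (fun n : ℤ => (T ^ n) y₀) 𝒱 (𝓝 y₀) → WL U 𝒱 ζ = ζ := by
  obtain ⟨ζ, hζ, hmin⟩ := exists_min
    {ζ : H | ∀ n : ℤ, ‖f ((T ^ n) y₀) - inner ℂ η ((U ^ n) ζ)‖ ≤ δ} ⟨ξ, hξ⟩ (by
      have h1 : {ζ : H | ∀ n : ℤ, ‖f ((T ^ n) y₀) - inner ℂ η ((U ^ n) ζ)‖ ≤ δ}
          = ⋂ n : ℤ, {ζ : H | ‖f ((T ^ n) y₀) - inner ℂ η ((U ^ n) ζ)‖ ≤ δ} := by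
        ext ζ
        simp
      rw [h1]
      refine isClosed_iInter fun n => isClosed_le ?_ continuous_const
      exact (continuous_const.sub
        (continuous_const.inner (U ^ n).continuous)).norm)
    (by
      intro a ha b hb s t hs ht hst n
      have e : f ((T ^ n) y₀) - inner ℂ η ((U ^ n) ((s : ℂ) • a + (t : ℂ) • b))
          = (s : ℂ) * (f ((T ^ n) y₀) - inner ℂ η ((U ^ n) a))
            + (t : ℂ) * (f ((T ^ n) y₀) - inner ℂ η ((U ^ n) b)) := by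
        have hst' : (s : ℂ) + (t : ℂ) = 1 := by exact_mod_cast hst
        rw [map_add, map_smul, map_smul, inner_add_right, inner_smul_right, inner_smul_right]
        linear_combination (-(f ((T ^ n) y₀))) * hst'
      rw [e]
      refine (norm_add_le _ _).trans ?_
      rw [norm_mul, norm_mul, Complex.norm_real, Complex.norm_real, Real.norm_eq_abs,
        Real.norm_eq_abs, abs_of_nonneg hs, abs_of_nonneg ht]
      calc _ ≤ s * δ + t * δ := add_le_add (mul_le_mul_of_nonneg_left (ha n) hs)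
            (mul_le_mul_of_nonneg_left (hb n) ht)
        _ = δ := by rw [← add_mul, hst, one_mul])
  refine ⟨ζ, hζ, fun 𝒱 hV => hmin _ ?_ (norm_wl U 𝒱 ζ)⟩
  intro m
  have h1 : Tendsto (fun n : ℤ => f ((T ^ (m + n)) y₀) - inner ℂ η ((U ^ (m + n)) ζ)) 𝒱
      (𝓝 (f ((T ^ m) y₀) - inner ℂ η ((U ^ m) (WL U 𝒱 ζ)))) := by
    refine Tendsto.sub ?_ ?_
    · have h2 := ((hf.comp (T ^ m).continuous).tendsto y₀).comp hV
      refine h2.congr fun n => ?_
      rw [homeo_zpow_add_apply]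
      rfl
    · rw [inner_zpow']
      refine (WL_tendsto U 𝒱 ζ _).congr fun n => ?_
      rw [← inner_zpow', ← zpow_add_apply]
  exact le_of_tendsto h1.norm (Eventually.of_forall fun n => hζ (m + n))

end average

/-- A unitary operator with two vectors. -/
structure Rep where
  /-- the space -/
  H : Type
  /-- its norm -/
  i1 : NormedAddCommGroup H
  /-- its inner product -/
  i2 : InnerProductSpace ℂ H
  i3 : CompleteSpace H
  /-- the unitary -/
  U : H ≃ₗᵢ[ℂ] H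
  /-- first vector -/
  η : H
  /-- second vector -/
  ζ : H

attribute [instance] Rep.i1 Rep.i2 Rep.i3

section sum

variable {E : ℕ → Type} [∀ i, NormedAddCommGroup (E i)] [∀ i, InnerProductSpace ℂ (E i)]

lemma two_pos' : 0 < (2 : ENNReal).toReal := by norm_num

lemma lpm_mem (V : ∀ i, E i ≃ₗᵢ[ℂ] E i) (x : lp E 2) : Memℓp (fun i => V i (x i)) 2 := by
  rw [memℓp_gen_iff two_pos']
  have := (memℓp_gen_iff two_pos').1 (lp.memℓp x)
  simpa only [LinearIsometryEquiv.norm_map] using this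

/-- Coordinatewise isometry. -/
def lpm (V : ∀ i, E i ≃ₗᵢ[ℂ] E i) (x : lp E 2) : lp E 2 :=
  ⟨fun i => V i (x i), lpm_mem V x⟩

lemma lpm_apply (V : ∀ i, E i ≃ₗᵢ[ℂ] E i) (x : lp E 2) (i : ℕ) : lpm V x i = V i (x i) := rfl

/-- The direct sum of unitary operators. -/
def lpU (V : ∀ i, E i ≃ₗᵢ[ℂ] E i) : lp E 2 ≃ₗᵢ[ℂ] lp E 2 where
  toFun := lpm V
  invFun := lpm fun i => (V i).symm
  left_inv x := by
    ext i
    rw [lpm_apply, lpm_apply, LinearIsometryEquiv.symm_apply_apply]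
  right_inv x := by
    ext i
    rw [lpm_apply, lpm_apply, LinearIsometryEquiv.apply_symm_apply]
  map_add' x y := by
    ext i
    rw [lpm_apply, lp.coeFn_add, Pi.add_apply, map_add, lp.coeFn_add, Pi.add_apply, lpm_apply,
      lpm_apply]
  map_smul' c x := by
    ext i
    rw [lpm_apply, lp.coeFn_smul, Pi.smul_apply, map_smul, RingHom.id_apply, lp.coeFn_smul,
      Pi.smul_apply, lpm_apply]
  norm_map' x := by
    change ‖lpm V x‖ = ‖x‖
    rw [lp.norm_eq_tsum_rpow two_pos', lp.norm_eq_tsum_rpow two_pos']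
    simp only [lpm_apply, LinearIsometryEquiv.norm_map]

lemma lpU_apply (V : ∀ i, E i ≃ₗᵢ[ℂ] E i) (x : lp E 2) (i : ℕ) : lpU V x i = V i (x i) := rfl

lemma lpU_symm_apply (V : ∀ i, E i ≃ₗᵢ[ℂ] E i) (x : lp E 2) (i : ℕ) :
    (lpU V).symm x i = (V i).symm (x i) := rfl

lemma lpU_zpow (V : ∀ i, E i ≃ₗᵢ[ℂ] E i) (n : ℤ) : ∀ (x : lp E 2) (i : ℕ),
    ((lpU V ^ n) x) i = (V i ^ n) (x i) := by
  induction n using Int.induction_on with
  | zero => intro x i; simp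
  | succ n ih =>
    intro x i
    rw [add_comm (n : ℤ) 1, zpow_add_apply, zpow_one, lpU_apply, ih, zpow_add_apply, zpow_one]
  | pred n ih =>
    intro x i
    have h1 : ∀ (x : lp E 2) (i : ℕ), ((lpU V ^ (-1 : ℤ)) x) i = (V i ^ (-1 : ℤ)) (x i) := by
      intro x i
      rw [zpow_neg, zpow_one, zpow_neg, zpow_one]
      exact lpU_symm_apply V x i
    rw [sub_eq_add_neg, add_comm (-(n : ℤ)) (-1), zpow_add_apply, h1, ih, zpow_add_apply]

end sum

end

end Pool.Agent.H694R3.Gf
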