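import Mathlib
import Pool.Agent.H694R3.Gf3

open Filter Topology ComplexConjugate TopologicalSpace

namespace Pool.Agent.H694R3.Gf

open Pool.Agent.H694R3.Hs

noncomputable section

/-- The vector generating the extension. -/
lemma exists_vector {Y : Type*} [MetricSpace Y] [SeparableSpace Y] [Nonempty Y] (T : Y ≃ₜ Y)
    (y₀ : Y) (hH : ∀ F : C(Y, ℂ), IsHFun fun n : ℤ => F ((T ^ n) y₀)) :
    ∃ (H : Type) (_ : NormedAddCommGroup H) (_ : InnerProductSpace ℂ H) (_ : CompleteSpace H)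
      (U : H ≃ₗᵢ[ℂ] H) (z : H),
      (∀ 𝒱 : Ultrafilter ℤ, Tendsto (fun n : ℤ => (T ^ n) y₀) 𝒱 (𝓝 y₀) → WL U 𝒱 z = z) ∧
      ∀ (j : ℕ) (ε : ℝ), 0 < ε → ∃ η : H, ∀ n : ℤ,
        ‖((dist ((T ^ n) y₀) (denseSeq Y j) : ℝ) : ℂ) - inner ℂ η ((U ^ n) z)‖ ≤ ε := by
  have h1 : ∀ i : ℕ, ∃ R : Rep, (∀ n : ℤ,
      ‖((dist ((T ^ n) y₀) (denseSeq Y i.unpair.1) : ℝ) : ℂ) - inner ℂ R.η ((R.U ^ n) R.ζ)‖
        ≤ 1 / ((i.unpair.2 : ℝ) + 1)) ∧
      ∀ 𝒱 : Ultrafilter ℤ, Tendsto (fun n : ℤ => (T ^ n) y₀) 𝒱 (𝓝 y₀) →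
        WL R.U 𝒱 R.ζ = R.ζ := by
    intro i
    let F : C(Y, ℂ) := ⟨fun y => ((dist y (denseSeq Y i.unpair.1) : ℝ) : ℂ), by fun_prop⟩
    obtain ⟨b, hb, hb2⟩ := hH F (1 / ((i.unpair.2 : ℝ) + 1)) (by positivity)
    obtain ⟨H, _, _, _, U, η, ξ, h⟩ := hb.coeff
    obtain ⟨ζ, hζ1, hζ2⟩ := average T y₀ F F.continuous (1 / ((i.unpair.2 : ℝ) + 1)) U η ξ
      (fun n => by rw [← h]; exact hb2 n)
    exact ⟨⟨H, inferInstance, inferInstance, inferInstance, U, η, ζ⟩, hζ1, hζ2⟩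
  choose R hR1 hR2 using h1
  let c : ℕ → ℝ := fun i => (1 / 2) ^ i / (1 + ‖(R i).ζ‖)
  have hc : ∀ i, 0 < c i := fun i => by
    have := norm_nonneg (R i).ζ
    positivity
  have hcn : ∀ i, ‖(c i : ℂ) • (R i).ζ‖ ≤ (1 / 2) ^ i := by
    intro i
    have h2 := norm_nonneg (R i).ζ
    rw [norm_smul, Complex.norm_real, Real.norm_eq_abs, abs_of_pos (hc i)]
    change (1 / 2) ^ i / (1 + ‖(R i).ζ‖) * ‖(R i).ζ‖ ≤ (1 / 2) ^ i
    rw [div_mul_eq_mul_div, div_le_iff₀ (by positivity)]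
    exact mul_le_mul_of_nonneg_left (by linarith) (by positivity)
  have hmem : Memℓp (fun i => (c i : ℂ) • (R i).ζ) 2 := by
    rw [memℓp_gen_iff two_pos']
    refine Summable.of_nonneg_of_le (fun i => by positivity) (fun i => ?_)
      (summable_geometric_of_lt_one (r := (1 / 2 : ℝ)) (by norm_num) (by norm_num))
    have h3 : (1 / 2 : ℝ) ^ i ≤ 1 := pow_le_one₀ (by norm_num) (by norm_num)
    have h4 := hcn i
    have h5 := norm_nonneg ((c i : ℂ) • (R i).ζ)
    have h6 : (2 : ENNReal).toReal = ((2 : ℕ) : ℝ) := by norm_num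
    rw [h6, Real.rpow_natCast]
    nlinarith
  let z : lp (fun i => (R i).H) 2 := ⟨fun i => (c i : ℂ) • (R i).ζ, hmem⟩
  have hz : ∀ i, z i = (c i : ℂ) • (R i).ζ := fun i => rfl
  refine ⟨lp (fun i => (R i).H) 2, inferInstance, inferInstance, inferInstance,
    lpU (fun i => (R i).U), z, ?_, ?_⟩
  · intro 𝒱 hV
    ext i
    apply ext_inner_left ℂ
    intro a
    have h7 := WL_tendsto (lpU (fun i => (R i).U)) 𝒱 z (lp.single 2 i a)
    simp only [lp.inner_single_left, lpU_zpow] at h7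
    refine tendsto_nhds_unique h7 ?_
    have h8 := WL_tendsto (R i).U 𝒱 (z i) a
    have h9 : WL (R i).U 𝒱 (z i) = z i := by
      rw [hz, map_smul, hR2 i 𝒱 hV]
    rw [h9] at h8
    exact h8
  · intro j ε hε
    obtain ⟨k, hk⟩ := exists_nat_one_div_lt hε
    refine ⟨lp.single 2 (Nat.pair j k) (((c (Nat.pair j k) : ℝ) : ℂ)⁻¹ • (R (Nat.pair j k)).η),
      fun n => ?_⟩
    rw [lp.inner_single_left, lpU_zpow, hz, map_smul, inner_smul_left, inner_smul_right,
      map_inv₀, Complex.conj_ofReal, ← mul_assoc, inv_mul_cancel₀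
        (by exact_mod_cast (hc (Nat.pair j k)).ne'), one_mul]
    have h10 := hR1 (Nat.pair j k) n
    rw [Nat.unpair_pair] at h10
    exact h10.trans hk.le

section ext

universe v

variable {H : Type} [NormedAddCommGroup H] [InnerProductSpace ℂ H] [CompleteSpace H]
  (U : H ≃ₗᵢ[ℂ] H) (z : H) {Y : Type v} [TopologicalSpace Y] (T : Y ≃ₜ Y) (y₀ : Y)

/-- The orbit in the product. -/
def orb (n : ℤ) : (ℤ → ℂ) × Y := (fun m => inner ℂ z ((U ^ (m + n)) z), (T ^ n) y₀)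

/-- The extension space. -/
def XP : Set ((ℤ → ℂ) × Y) := closure (Set.range (orb U z T y₀))

/-- The shift on complex sequences. -/
def shC : (ℤ → ℂ) ≃ₜ (ℤ → ℂ) where
  toFun g m := g (m + 1)
  invFun g m := g (m - 1)
  left_inv g := by funext m; simp
  right_inv g := by funext m; simp
  continuous_toFun := by fun_prop
  continuous_invFun := by fun_prop

/-- The product map. -/
def DD : (ℤ → ℂ) × Y ≃ₜ (ℤ → ℂ) × Y := shC.prodCongr T

lemma DD_orb (n : ℤ) : DD T (orb U z T y₀ n) = orb U z T y₀ (n + 1) := by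
  refine Prod.ext ?_ ?_
  · funext m
    change inner ℂ z ((U ^ (m + 1 + n)) z) = inner ℂ z ((U ^ (m + (n + 1))) z)
    congr 3
    ring
  · change T ((T ^ n) y₀) = (T ^ (n + 1)) y₀
    rw [add_comm n 1, homeo_zpow_add_apply, zpow_one]

lemma DD_mem_iff (p : (ℤ → ℂ) × Y) : p ∈ XP U z T y₀ ↔ DD T p ∈ XP U z T y₀ := by
  have h : DD T '' (Set.range (orb U z T y₀)) = Set.range (orb U z T y₀) := by
    ext g
    constructor
    · rintro ⟨_, ⟨n, rfl⟩, rfl⟩
      exact ⟨n + 1, (DD_orb U z T y₀ n).symm⟩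
    · rintro ⟨n, rfl⟩
      refine ⟨_, ⟨n - 1, rfl⟩, ?_⟩
      rw [DD_orb, sub_add_cancel]
  unfold XP
  conv_rhs => rw [← h, ← Homeomorph.image_closure]
  exact ((DD T).injective.mem_set_image).symm

/-- The homeomorphism of the extension. -/
def SP : XP U z T y₀ ≃ₜ XP U z T y₀ := (DD T).subtype (DD_mem_iff U z T y₀)

lemma SP_fst (x : XP U z T y₀) (m : ℤ) : (SP U z T y₀ x).1.1 m = x.1.1 (m + 1) := rfl

lemma SP_snd (x : XP U z T y₀) : (SP U z T y₀ x).1.2 = T x.1.2 := rfl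

lemma compact_XP [CompactSpace Y] : CompactSpace (XP U z T y₀) := by
  rw [← isCompact_iff_compactSpace]
  have hK : IsCompact ((Set.univ.pi fun _ : ℤ => Metric.closedBall (0 : ℂ) (‖z‖ * ‖z‖)) ×ˢ
      (Set.univ : Set Y)) :=
    (isCompact_univ_pi fun _ => isCompact_closedBall _ _).prod isCompact_univ
  have hcl : IsClosed ((Set.univ.pi fun _ : ℤ => Metric.closedBall (0 : ℂ) (‖z‖ * ‖z‖)) ×ˢ
      (Set.univ : Set Y)) :=
    (isClosed_set_pi fun _ _ => Metric.isClosed_closedBall).prod isClosed_univ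
  refine hK.of_isClosed_subset isClosed_closure (closure_minimal ?_ hcl)
  rintro _ ⟨n, rfl⟩
  refine ⟨fun m _ => ?_, trivial⟩
  rw [mem_closedBall_zero_iff]
  change ‖inner ℂ z ((U ^ (m + n)) z)‖ ≤ _
  refine (norm_inner_le_norm _ _).trans ?_
  rw [LinearIsometryEquiv.norm_map]

lemma dense_XP : Dense (Set.range fun n : ℤ =>
    (⟨orb U z T y₀ n, subset_closure ⟨n, rfl⟩⟩ : XP U z T y₀)) := by
  rw [dense_iff_closure_eq, Set.eq_univ_iff_forall]
  intro x
  rw [closure_subtype, ← Set.range_comp]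
  exact x.2

lemma exists_ultra (x : XP U z T y₀) : ∃ 𝒰 : Ultrafilter ℤ,
    Tendsto (orb U z T y₀) 𝒰 (𝓝 (x : (ℤ → ℂ) × Y)) := by
  have h1 : (comap (orb U z T y₀) (𝓝 (x : (ℤ → ℂ) × Y))).NeBot := by
    refine comap_neBot fun t ht => ?_
    obtain ⟨y, hy, n, hn⟩ := mem_closure_iff_nhds.1 x.2 t ht
    exact ⟨n, by rw [hn]; exact hy⟩
  exact ⟨Ultrafilter.of _, tendsto_comap.mono_left (Ultrafilter.of_le _)⟩

/-- The closed cyclic space of `z`. -/
def cyc : Submodule ℂ H := (Submodule.span ℂ (Set.range fun m : ℤ => (U ^ m) z)).topologicalClosure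

lemma mem_cyc (m : ℤ) : (U ^ m) z ∈ cyc U z :=
  Submodule.le_topologicalClosure _ (Submodule.subset_span ⟨m, rfl⟩)

lemma cyc_complete : CompleteSpace (cyc U z) :=
  (Submodule.isClosed_topologicalClosure _ : IsClosed (cyc U z : Set H)).completeSpace_coe

lemma perp_of (w : H) (h : ∀ m : ℤ, inner ℂ z ((U ^ m) w) = 0) : w ∈ (cyc U z)ᗮ := by
  have h1 : cyc U z ≤ (Submodule.span ℂ {w})ᗮ := by
    refine Submodule.topologicalClosure_minimal _ ?_ (Submodule.isClosed_orthogonal _)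
    rw [Submodule.span_le]
    rintro _ ⟨m, rfl⟩
    rw [SetLike.mem_coe, Submodule.mem_orthogonal_singleton_iff_inner_left]
    rw [inner_zpow]
    exact h _
  rw [Submodule.mem_orthogonal]
  intro u hu
  exact (Submodule.mem_orthogonal_singleton_iff_inner_left).1 (h1 hu)

lemma cyc_uniq {v w : H} (hv : v ∈ cyc U z) (hw : w ∈ cyc U z)
    (h : ∀ m : ℤ, inner ℂ z ((U ^ m) v) = inner ℂ z ((U ^ m) w)) : v = w := by
  have h1 : v - w ∈ (cyc U z)ᗮ := by
    apply perp_of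
    intro m
    rw [map_sub, inner_sub_right, h, sub_self]
  have h2 : v - w ∈ cyc U z := Submodule.sub_mem _ hv hw
  have h3 := (Submodule.mem_orthogonal _ _).1 h1 _ h2
  exact sub_eq_zero.1 (inner_self_eq_zero.1 h3)

lemma WL_mem_cyc (𝒰 : Ultrafilter ℤ) : WL U 𝒰 z ∈ cyc U z := by
  have := cyc_complete U z
  rw [← Submodule.orthogonal_orthogonal (cyc U z), Submodule.mem_orthogonal]
  intro w hw
  refine tendsto_nhds_unique (WL_tendsto U 𝒰 z w) ?_
  have h1 : ∀ n : ℤ, inner ℂ w ((U ^ n) z) = 0 := fun n =>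
    (Submodule.mem_orthogonal' _ _).1 hw _ (mem_cyc U z n)
  simp only [h1]
  exact tendsto_const_nhds

lemma exists_alpha (x : XP U z T y₀) : ∃ v : H, (∀ m : ℤ, inner ℂ z ((U ^ m) v) = x.1.1 m) ∧
    v ∈ cyc U z ∧ ‖v‖ ≤ ‖z‖ ∧ ∃ 𝒰 : Ultrafilter ℤ,
      Tendsto (orb U z T y₀) 𝒰 (𝓝 (x : (ℤ → ℂ) × Y)) ∧ v = WL U 𝒰 z := by
  obtain ⟨𝒰, hU⟩ := exists_ultra U z T y₀ x
  refine ⟨WL U 𝒰 z, ?_, WL_mem_cyc U z 𝒰, norm_wl U 𝒰 z, 𝒰, hU, rfl⟩
  intro m
  rw [inner_zpow']
  refine tendsto_nhds_unique (WL_tendsto U 𝒰 z _) ?_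
  have h1 : Tendsto (fun n => (orb U z T y₀ n).1 m) 𝒰 (𝓝 (x.1.1 m)) :=
    (((continuous_apply m).comp continuous_fst).tendsto _).comp hU
  refine h1.congr fun n => ?_
  change inner ℂ z ((U ^ (m + n)) z) = _
  rw [zpow_add_apply, inner_zpow']

/-- The representation. -/
def al (x : XP U z T y₀) : H := (exists_alpha U z T y₀ x).choose

lemma al_inner (x : XP U z T y₀) (m : ℤ) : inner ℂ z ((U ^ m) (al U z T y₀ x)) = x.1.1 m :=
  (exists_alpha U z T y₀ x).choose_spec.1 m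

lemma al_mem (x : XP U z T y₀) : al U z T y₀ x ∈ cyc U z :=
  (exists_alpha U z T y₀ x).choose_spec.2.1

lemma al_norm (x : XP U z T y₀) : ‖al U z T y₀ x‖ ≤ ‖z‖ :=
  (exists_alpha U z T y₀ x).choose_spec.2.2.1

lemma al_ultra (x : XP U z T y₀) : ∃ 𝒰 : Ultrafilter ℤ,
      Tendsto (orb U z T y₀) 𝒰 (𝓝 (x : (ℤ → ℂ) × Y)) ∧ al U z T y₀ x = WL U 𝒰 z :=
  (exists_alpha U z T y₀ x).choose_spec.2.2.2

lemma zpow_mem_cyc {v : H} (hv : v ∈ cyc U z) : U v ∈ cyc U z := by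
  have h1 : cyc U z ≤ (cyc U z).comap (U : H →ₗ[ℂ] H) := by
    refine Submodule.topologicalClosure_minimal _ ?_ ?_
    · rw [Submodule.span_le]
      rintro _ ⟨m, rfl⟩
      change U ((U ^ m) z) ∈ cyc U z
      have := mem_cyc U z (1 + m)
      rwa [zpow_add_apply, zpow_one] at this
    · exact (Submodule.isClosed_topologicalClosure _ : IsClosed (cyc U z : Set H)).preimage
        U.continuous
  exact h1 hv

lemma al_SP (x : XP U z T y₀) : al U z T y₀ (SP U z T y₀ x) = U (al U z T y₀ x) := by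
  refine cyc_uniq U z (al_mem U z T y₀ _) (zpow_mem_cyc U z (al_mem U z T y₀ _)) fun m => ?_
  rw [al_inner, SP_fst, ← al_inner U z T y₀ x (m + 1), zpow_add_apply, zpow_one]

lemma al_cont (w : H) : Continuous fun x => inner ℂ w (al U z T y₀ x) := by
  have := cyc_complete U z
  have h1 : ∀ w ∈ Submodule.span ℂ (Set.range fun m : ℤ => (U ^ m) z),
      Continuous fun x => inner ℂ w (al U z T y₀ x) := by
    intro w hw
    induction hw using Submodule.span_induction with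
    | mem w hw =>
      obtain ⟨m, rfl⟩ := hw
      have h2 : (fun x => inner ℂ ((U ^ m) z) (al U z T y₀ x))
          = fun x : XP U z T y₀ => x.1.1 (-m) := by
        funext x
        rw [inner_zpow, al_inner]
      simp only [h2]
      exact (continuous_apply (-m)).comp (continuous_fst.comp continuous_subtype_val)
    | zero => simpa using continuous_const
    | add a b _ _ ha hb =>
      simp only [inner_add_left]
      exact ha.add hb
    | smul c a _ ha =>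
      simp only [inner_smul_left]
      exact continuous_const.mul ha
  have h2 : ∀ w ∈ cyc U z, Continuous fun x => inner ℂ w (al U z T y₀ x) := by
    intro w hw
    apply continuous_of_uniform_approx_of_continuous
    intro u hu
    obtain ⟨ε, hε, hu⟩ := Metric.mem_uniformity_dist.1 hu
    obtain ⟨w', hw', hd⟩ := Metric.mem_closure_iff.1 hw (ε / (‖z‖ + 1)) (by positivity)
    refine ⟨_, h1 w' hw', fun x => hu ?_⟩
    rw [dist_eq_norm, ← inner_sub_left]
    have h3 := al_norm U z T y₀ x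
    have h4 := norm_inner_le_norm (𝕜 := ℂ) (w - w') (al U z T y₀ x)
    rw [dist_eq_norm] at hd
    have h5 := norm_nonneg (w - w')
    have h6 := norm_nonneg z
    have h7 : ‖w - w'‖ * (‖z‖ + 1) < ε := by rwa [lt_div_iff₀ (by positivity)] at hd
    nlinarith
  have h3 : (fun x => inner ℂ w (al U z T y₀ x))
      = fun x => inner ℂ ((cyc U z).starProjection w) (al U z T y₀ x) := by
    funext x
    have h4 : w - (cyc U z).starProjection w ∈ (cyc U z)ᗮ :=
      Submodule.sub_starProjection_mem_orthogonal w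
    have h5 := (Submodule.mem_orthogonal' _ _).1 h4 _ (al_mem U z T y₀ x)
    rw [inner_sub_left, sub_eq_zero] at h5
    exact h5
  rw [h3]
  exact h2 _ (Submodule.starProjection_apply_mem _ w)

/-- Almost one-to-one. -/
lemma fibre_orb [T2Space Y] (hz : ∀ 𝒱 : Ultrafilter ℤ, Tendsto (fun n : ℤ => (T ^ n) y₀) 𝒱 (𝓝 y₀) →
    WL U 𝒱 z = z) (n : ℤ) (x : XP U z T y₀) (hx : x.1.2 = (T ^ n) y₀) :
    x = ⟨orb U z T y₀ n, subset_closure ⟨n, rfl⟩⟩ := by
  obtain ⟨𝒰, hU⟩ := exists_ultra U z T y₀ x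
  let 𝒱 : Ultrafilter ℤ := 𝒰.map fun k => -n + k
  have h1 : Tendsto (fun k : ℤ => (T ^ k) y₀) 𝒱 (𝓝 y₀) := by
    rw [Ultrafilter.coe_map, tendsto_map'_iff]
    have h2 : Tendsto (fun k => (orb U z T y₀ k).2) 𝒰 (𝓝 (x.1.2)) :=
      (continuous_snd.tendsto _).comp hU
    rw [hx] at h2
    have h3 := ((T ^ (-n)).continuous.tendsto _).comp h2
    rw [← homeo_zpow_add_apply, neg_add_cancel, zpow_zero] at h3
    refine h3.congr fun k => ?_
    change (T ^ (-n)) ((T ^ k) y₀) = (T ^ (-n + k)) y₀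
    rw [homeo_zpow_add_apply]
  have h4 := hz 𝒱 h1
  apply Subtype.ext
  refine Prod.ext ?_ hx
  funext m
  have h5 : Tendsto (fun k => (orb U z T y₀ k).1 m) 𝒰 (𝓝 (x.1.1 m)) :=
    (((continuous_apply m).comp continuous_fst).tendsto _).comp hU
  refine tendsto_nhds_unique h5 ?_
  have h6 := WL_tendsto U 𝒱 z ((U ^ (-(m + n))) z)
  rw [h4, Ultrafilter.coe_map, tendsto_map'_iff] at h6
  have e : inner ℂ ((U ^ (-(m + n))) z) z = (orb U z T y₀ n).1 m := by
    rw [← inner_zpow']; rfl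
  rw [e] at h6
  refine h6.congr fun k => ?_
  change inner ℂ ((U ^ (-(m + n))) z) ((U ^ (-n + k)) z) = inner ℂ z ((U ^ (m + k)) z)
  rw [← inner_zpow', ← zpow_add_apply]
  congr 3
  ring

end ext

/-- The set of points of injectivity is a `Gδ`. -/
lemma isGδ_inj {X Y : Type*} [TopologicalSpace X] [CompactSpace X] [MetrizableSpace X]
    [TopologicalSpace Y] [T2Space Y] (π : X → Y) (hπ : Continuous π) :
    IsGδ {x : X | ∀ x', π x' = π x → x' = x} := by
  let _ := metrizableSpaceMetric X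
  let A : ℕ → Set X := fun n =>
    Prod.fst '' {q : X × X | π q.2 = π q.1 ∧ 1 / ((n : ℝ) + 1) ≤ dist q.2 q.1}
  have hA : ∀ n, IsClosed (A n) := by
    intro n
    have h1 : IsClosed {q : X × X | π q.2 = π q.1 ∧ 1 / ((n : ℝ) + 1) ≤ dist q.2 q.1} :=
      (isClosed_eq (hπ.comp continuous_snd) (hπ.comp continuous_fst)).inter
        (isClosed_le continuous_const (continuous_snd.dist continuous_fst))
    exact (h1.isCompact.image continuous_fst).isClosed
  have h2 : {x : X | ∀ x', π x' = π x → x' = x} = ⋂ n, (A n)ᶜ := by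
    ext x
    simp only [Set.mem_iInter, Set.mem_compl_iff]
    constructor
    · rintro h n ⟨q, ⟨hq1, hq2⟩, rfl⟩
      have h3 := h q.2 hq1
      rw [h3, dist_self] at hq2
      have : (0 : ℝ) < 1 / ((n : ℝ) + 1) := by positivity
      linarith
    · intro h x' hx'
      by_contra hne
      obtain ⟨n, hn⟩ := exists_nat_one_div_lt (dist_pos.2 hne)
      exact h n ⟨(x, x'), ⟨hx', hn.le⟩, rfl⟩
  rw [h2]
  exact IsGδ.iInter_of_isOpen fun n => (hA n).isOpen_compl

end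

end Pool.Agent.H694R3.Gf
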