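import Mathlib

set_option autoImplicit false
open Set Topology

namespace Pool.Agent.H694R3.Inj

/-- `t` is the base of the configuration `x`: the letter `1` occurs at `t`, all its other occurrences are at
places `t + 2 ^ i`, and a letter `2` at `A` lies to the left of `t`, at distance more than every `2 ^ i`
that occurs. -/
def Base (x : ℤ → Fin 3) (t : ℤ) : Prop :=
  x t = 1 ∧ (∀ p, x p = 1 → p = t ∨ ∃ i : ℕ, p = t + 2 ^ i) ∧
    (∀ A, x A = 2 → A < t ∧ ∀ i : ℕ, x (t + 2 ^ i) = 1 → (2 : ℤ) ^ i < t - A)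

/-- The subshift. -/
def XX : Set (ℤ → Fin 3) :=
  {x | (∀ p q, x p = 2 → x q = 2 → p = q) ∧ ((∀ p, x p ≠ 1) ∨ ∃ t, Base x t)}

theorem tri (c : Fin 3) : c = 0 ∨ c = 1 ∨ c = 2 := by
  fin_cases c <;> simp

theorem two_pow_pos' (i : ℕ) : (0 : ℤ) < 2 ^ i := by positivity

theorem Base.le {x : ℤ → Fin 3} {t p : ℤ} (h : Base x t) (hp : x p = 1) : t ≤ p := by
  rcases h.2.1 p hp with rfl | ⟨i, rfl⟩
  · exact le_rfl
  · have := two_pow_pos' i
    omega

theorem Base.unique {x : ℤ → Fin 3} {t t' : ℤ} (h : Base x t) (h' : Base x t') : t = t' :=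
  le_antisymm (h.le h'.1) (h'.le h.1)

theorem pow_lt_aux {i j : ℕ} (h : (2 : ℤ) ^ i < 2 ^ j) : 2 * (2 : ℤ) ^ i ≤ 2 ^ j := by
  have hij : i < j := by
    by_contra hc
    push Not at hc
    have : (2 : ℤ) ^ j ≤ 2 ^ i := pow_le_pow_right₀ (by norm_num) hc
    omega
  have : (2 : ℤ) ^ (i + 1) ≤ 2 ^ j := pow_le_pow_right₀ (by norm_num) hij
  rw [pow_succ] at this
  omega

theorem Base.bounds {x : ℤ → Fin 3} {t p q : ℤ} (h : Base x t) (hp : x p = 1) (hq : x q = 1)
    (hpq : p < q) : 2 * p - q ≤ t := by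
  have h1 := h.le hp
  rcases h.2.1 p hp with h2 | ⟨i, hi⟩
  · omega
  · rcases h.2.1 q hq with h3 | ⟨j, hj⟩
    · omega
    · have h4 : (2 : ℤ) ^ i < 2 ^ j := by omega
      have h5 := pow_lt_aux h4
      omega

/-- the key arithmetic fact -/
theorem pow_key {i j n : ℕ} (h : (2 : ℤ) ^ j - 2 ^ i = 2 ^ (n + 2) - 2 ^ n) : i = n := by
  have hij : i < j := by
    by_contra hc
    push Not at hc
    have h1 : (2 : ℤ) ^ j ≤ 2 ^ i := pow_le_pow_right₀ (by norm_num) hc
    have h2 : (2 : ℤ) ^ (n + 2) = 4 * 2 ^ n := by rw [pow_add]; ring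
    have h3 := two_pow_pos' n
    omega
  obtain ⟨l, rfl⟩ : ∃ l, j = i + 1 + l := ⟨j - (i + 1), by omega⟩
  rcases lt_trichotomy i n with hlt | heq | hgt
  · exfalso
    obtain ⟨k, rfl⟩ : ∃ k, n = i + 1 + k := ⟨n - (i + 1), by omega⟩
    have h1 : (2 : ℤ) ^ i * (2 * 2 ^ l - 1) = 2 ^ i * (6 * 2 ^ k) := by
      have e1 : (2 : ℤ) ^ (i + 1 + l) = 2 ^ i * 2 * 2 ^ l := by rw [pow_add, pow_succ]
      have e2 : (2 : ℤ) ^ (i + 1 + k + 2) = 2 ^ i * 2 * 2 ^ k * 4 := by
        rw [pow_add, pow_add, pow_succ]; norm_num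
      have e3 : (2 : ℤ) ^ (i + 1 + k) = 2 ^ i * 2 * 2 ^ k := by rw [pow_add, pow_succ]
      rw [e1, e2, e3] at h
      linarith
    have h2 := mul_left_cancel₀ (two_pow_pos' i).ne' h1
    omega
  · exact heq
  · exfalso
    obtain ⟨k, rfl⟩ : ∃ k, i = n + 1 + k := ⟨i - (n + 1), by omega⟩
    have h1 : (2 : ℤ) ^ n * (2 * (2 ^ k * (2 * 2 ^ l - 1))) = 2 ^ n * 3 := by
      have e1 : (2 : ℤ) ^ (n + 1 + k + 1 + l) = 2 ^ n * 2 * 2 ^ k * 2 * 2 ^ l := by
        rw [pow_add, pow_succ, pow_add, pow_succ]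
      have e2 : (2 : ℤ) ^ (n + 1 + k) = 2 ^ n * 2 * 2 ^ k := by rw [pow_add, pow_succ]
      have e3 : (2 : ℤ) ^ (n + 2) = 2 ^ n * 4 := by rw [pow_add]; norm_num
      rw [e1, e2, e3] at h
      linarith
    have h2 := mul_left_cancel₀ (two_pow_pos' n).ne' h1
    omega

theorem pow_key' {j n : ℕ} (h : (2 : ℤ) ^ j = 2 ^ (n + 2) - 2 ^ n) : False := by
  have h2 : (2 : ℤ) ^ (n + 2) = 4 * 2 ^ n := by rw [pow_add]; ring
  have hn := two_pow_pos' n
  rcases lt_or_ge n j with hlt | hge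
  · obtain ⟨k, rfl⟩ : ∃ k, j = n + 1 + k := ⟨j - (n + 1), by omega⟩
    have h1 : (2 : ℤ) ^ n * (2 * 2 ^ k) = 2 ^ n * 3 := by
      have e2 : (2 : ℤ) ^ (n + 1 + k) = 2 ^ n * 2 * 2 ^ k := by rw [pow_add, pow_succ]
      rw [e2, h2] at h
      linarith
    have h3 := mul_left_cancel₀ (two_pow_pos' n).ne' h1
    omega
  · have h1 : (2 : ℤ) ^ j ≤ 2 ^ n := pow_le_pow_right₀ (by norm_num) hge
    omega

theorem Base.key {y : ℤ → Fin 3} {t t' : ℤ} {n : ℕ} (h : Base y t') (h1 : y (t + 2 ^ n) = 1)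
    (h2 : y (t + 2 ^ (n + 2)) = 1) : t' = t := by
  have hlt : (2 : ℤ) ^ n < 2 ^ (n + 2) := by
    have h2 : (2 : ℤ) ^ (n + 2) = 4 * 2 ^ n := by rw [pow_add]; ring
    have hn := two_pow_pos' n
    omega
  have hle := h.le h1
  rcases h.2.1 _ h2 with h3 | ⟨j, hj⟩
  · omega
  · rcases h.2.1 _ h1 with h4 | ⟨i, hi⟩
    · exfalso
      exact pow_key' (j := j) (n := n) (by omega)
    · have := pow_key (i := i) (j := j) (n := n) (by omega)
      subst this
      omega

theorem isClosed_XX : IsClosed XX := by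
  apply isClosed_of_closure_subset
  intro x hx
  have hF : ∀ F : Finset ℤ, ∃ y ∈ XX, ∀ u ∈ F, y u = x u := by
    intro F
    rw [mem_closure_iff] at hx
    have hopen : IsOpen {y : ℤ → Fin 3 | ∀ u ∈ F, y u = x u} := by
      have h1 : {y : ℤ → Fin 3 | ∀ u ∈ F, y u = x u} = ⋂ u ∈ F, (fun y : ℤ → Fin 3 => y u) ⁻¹' {x u} := by
        ext y
        simp
      rw [h1]
      apply isOpen_biInter_finset
      intro u _
      exact (isOpen_discrete _).preimage (continuous_apply u)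
    obtain ⟨y, hy1, hy2⟩ := hx _ hopen (by intro u _; rfl)
    exact ⟨y, hy2, hy1⟩
  refine ⟨?_, ?_⟩
  · intro p q hp hq
    obtain ⟨y, hy, hyF⟩ := hF {p, q}
    exact hy.1 p q ((hyF p (by simp)).trans hp) ((hyF q (by simp)).trans hq)
  · by_cases hno : ∀ p, x p ≠ 1
    · exact Or.inl hno
    right
    push Not at hno
    obtain ⟨p0, hp0⟩ := hno
    -- base of an approximant
    have hbase : ∀ y ∈ XX, ∀ p, y p = 1 → ∃ t, Base y t := by
      intro y hy p hp
      rcases hy.2 with h | h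
      · exact absurd hp (h p)
      · exact h
    by_cases huniq : ∀ p, x p = 1 → p = p0
    · refine ⟨p0, hp0, fun p hp => Or.inl (huniq p hp), ?_⟩
      intro A hA
      refine ⟨?_, ?_⟩
      · obtain ⟨y, hy, hyF⟩ := hF {A, p0}
        have hyA : y A = 2 := (hyF A (by simp)).trans hA
        have hyp : y p0 = 1 := (hyF p0 (by simp)).trans hp0
        obtain ⟨t, ht⟩ := hbase y hy p0 hyp
        have h1 := (ht.2.2 A hyA).1
        have h2 := ht.le hyp
        omega
      · intro i hi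
        have h1 := huniq _ hi
        have h2 := two_pow_pos' i
        omega
    · push Not at huniq
      obtain ⟨p1, hp1, hne⟩ := huniq
      obtain ⟨p, q, hp, hq, hpq⟩ : ∃ p q, x p = 1 ∧ x q = 1 ∧ p < q := by
        rcases lt_or_gt_of_ne hne with h | h
        · exact ⟨p1, p0, hp1, hp0, h⟩
        · exact ⟨p0, p1, hp0, hp1, h⟩
      obtain ⟨y0, hy0, hy0F⟩ := hF (Finset.Icc (2 * p - q) q)
      have hy0p : y0 p = 1 := (hy0F p (by simp; omega)).trans hp
      have hy0q : y0 q = 1 := (hy0F q (by simp; omega)).trans hq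
      obtain ⟨t0, ht0⟩ := hbase y0 hy0 p hy0p
      have hb0 := ht0.bounds hy0p hy0q hpq
      have hb0' := ht0.le hy0p
      have hxt0 : x t0 = 1 := (hy0F t0 (by simp; omega)).symm.trans ht0.1
      have hG : ∀ F : Finset ℤ, ∃ y ∈ XX, (∀ u ∈ F, y u = x u) ∧ Base y t0 := by
        intro F
        obtain ⟨y, hy, hyF⟩ := hF (F ∪ Finset.Icc (2 * p - q) q)
        have hyp : y p = 1 := (hyF p (by simp; omega)).trans hp
        have hyq : y q = 1 := (hyF q (by simp; omega)).trans hq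
        obtain ⟨t, ht⟩ := hbase y hy p hyp
        have hb := ht.bounds hyp hyq hpq
        have hb' := ht.le hyp
        have h1 : x t = 1 := (hyF t (by simp; omega)).symm.trans ht.1
        have h2 : y0 t = 1 := (hy0F t (by simp; omega)).trans h1
        have h3 := ht0.le h2
        have h4 : y t0 = 1 := (hyF t0 (by simp; omega)).trans hxt0
        have h5 := ht.le h4
        have h6 : t = t0 := by omega
        subst h6
        exact ⟨y, hy, fun u hu => hyF u (by simp [hu]), ht⟩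
      refine ⟨t0, hxt0, ?_, ?_⟩
      · intro u hu
        obtain ⟨y, hy, hyF, hyb⟩ := hG {u}
        exact hyb.2.1 u ((hyF u (by simp)).trans hu)
      · intro A hA
        refine ⟨?_, ?_⟩
        · obtain ⟨y, hy, hyF, hyb⟩ := hG {A}
          exact (hyb.2.2 A ((hyF A (by simp)).trans hA)).1
        · intro i hi
          obtain ⟨y, hy, hyF, hyb⟩ := hG {A, t0 + 2 ^ i}
          exact (hyb.2.2 A ((hyF A (by simp)).trans hA)).2 i ((hyF _ (by simp)).trans hi)

theorem Base.shift {x : ℤ → Fin 3} {t : ℤ} (h : Base x t) (k : ℤ) :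
    Base (fun i => x (i + k)) (t - k) := by
  refine ⟨?_, ?_, ?_⟩
  · have : t - k + k = t := by ring
    simp only [this]
    exact h.1
  · intro p hp
    rcases h.2.1 _ hp with h1 | ⟨i, hi⟩
    · left; omega
    · right; exact ⟨i, by omega⟩
  · intro A hA
    obtain ⟨h1, h2⟩ := h.2.2 _ hA
    refine ⟨by omega, ?_⟩
    intro i hi
    have h3 : t - k + 2 ^ i + k = t + 2 ^ i := by ring
    simp only [h3] at hi
    have := h2 i hi
    omega

theorem shift_mem {x : ℤ → Fin 3} (h : x ∈ XX) (k : ℤ) : (fun i => x (i + k)) ∈ XX := by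
  refine ⟨?_, ?_⟩
  · intro p q hp hq
    have := h.1 _ _ hp hq
    omega
  · rcases h.2 with h1 | ⟨t, ht⟩
    · left
      intro p
      exact h1 _
    · right
      exact ⟨_, ht.shift k⟩

theorem shift_mem_iff (x : ℤ → Fin 3) : x ∈ XX ↔ (fun i => x (i + 1)) ∈ XX := by
  refine ⟨fun h => shift_mem h 1, fun h => ?_⟩
  have := shift_mem h (-1)
  simpa using this

/-- Curtis-Hedlund-Lyndon -/
theorem chl (f : (ℤ → Fin 3) → (ℤ → Fin 3)) (hf : ContinuousOn f XX)
    (hcom : ∀ x ∈ XX, ∀ k : ℤ, f (fun i => x (i + k)) = fun i => f x (i + k)) :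
    ∃ r : ℕ, ∀ x ∈ XX, ∀ x' ∈ XX, ∀ v : ℤ,
      (∀ u : ℤ, v - r ≤ u → u ≤ v + r → x u = x' u) → f x v = f x' v := by
  classical
  have hloc : ∀ x ∈ XX, ∃ F : Finset ℤ, ∀ x' ∈ XX, (∀ u ∈ F, x' u = x u) → f x' 0 = f x 0 := by
    intro x hx
    have h1 : ContinuousWithinAt (fun x => f x 0) XX x := by
      have h2 : Continuous (fun g : ℤ → Fin 3 => g 0) := continuous_apply 0
      exact (h2.comp_continuousOn hf) x hx
    have h2 : {b | b = f x 0} ∈ 𝓝 (f x 0) := by
      rw [nhds_discrete]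
      simp
    have h3 := h1 h2
    rw [Filter.mem_map, mem_nhdsWithin] at h3
    obtain ⟨U, hU, hxU, hsub⟩ := h3
    obtain ⟨I, u, hI, hIU⟩ := isOpen_pi_iff.mp hU x hxU
    refine ⟨I, ?_⟩
    intro x' hx' hag
    have h4 : x' ∈ U := by
      apply hIU
      intro a ha
      rw [hag a ha]
      exact (hI a ha).2
    exact hsub ⟨h4, hx'⟩
  choose! F hF using hloc
  have hXc : IsCompact XX := isClosed_XX.isCompact
  obtain ⟨t, ht, hcov⟩ := hXc.elim_nhds_subcover (fun z => {x' | ∀ u ∈ F z, x' u = z u}) (by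
    intro z _
    apply IsOpen.mem_nhds
    · have h1 : {x' : ℤ → Fin 3 | ∀ u ∈ F z, x' u = z u} =
          ⋂ u ∈ F z, (fun x' : ℤ → Fin 3 => x' u) ⁻¹' {z u} := by
        ext x'
        simp
      rw [h1]
      apply isOpen_biInter_finset
      intro u _
      exact (isOpen_discrete _).preimage (continuous_apply u)
    · intro u _
      rfl)
  let Fa := t.biUnion F
  refine ⟨Fa.sup (fun u => u.natAbs), ?_⟩
  intro x hx x' hx' v hag
  have hy : (fun u => x (u + v)) ∈ XX := shift_mem hx v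
  have hy' : (fun u => x' (u + v)) ∈ XX := shift_mem hx' v
  have e1 : f (fun u => x (u + v)) 0 = f x v := by
    rw [hcom x hx v]
    simp
  have e2 : f (fun u => x' (u + v)) 0 = f x' v := by
    rw [hcom x' hx' v]
    simp
  have h1 := hcov hy
  rw [Set.mem_iUnion₂] at h1
  obtain ⟨z, hz, hyz⟩ := h1
  have hyz1 : ∀ u ∈ F z, x (u + v) = z u := hyz
  have hyz' : ∀ u ∈ F z, x' (u + v) = z u := by
    intro u hu
    rw [← hyz1 u hu]
    symm
    have hb : u.natAbs ≤ Fa.sup (fun u => u.natAbs) :=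
      Finset.le_sup (f := fun u : ℤ => u.natAbs) (Finset.mem_biUnion.mpr ⟨z, hz, hu⟩)
    have hb' : (u.natAbs : ℤ) ≤ ((Fa.sup (fun u => u.natAbs) : ℕ) : ℤ) := by exact_mod_cast hb
    apply hag
    · omega
    · omega
  rw [← e1, ← e2, hF z (ht z hz) _ hy hyz1, hF z (ht z hz) _ hy' hyz']

end Pool.Agent.H694R3.Inj
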