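import Pool.Agent.H694R3.InjDefs

set_option autoImplicit false
open Set Topology

namespace Pool.Agent.H694R3.Inj

structure Endo (f : (ℤ → Fin 3) → (ℤ → Fin 3)) (r : ℕ) : Prop where
  maps : MapsTo f XX XX
  com : ∀ x ∈ XX, ∀ k : ℤ, f (fun i => x (i + k)) = fun i => f x (i + k)
  loc : ∀ x ∈ XX, ∀ x' ∈ XX, ∀ v : ℤ,
    (∀ u : ℤ, v - r ≤ u → u ≤ v + r → x u = x' u) → f x v = f x' v
  surj : SurjOn f XX XX

def zz : ℤ → Fin 3 := fun _ => 0
def sing (p : ℤ) : ℤ → Fin 3 := fun i => if i = p then 1 else 0
def al (A : ℤ) : ℤ → Fin 3 := fun i => if i = A then 2 else 0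

theorem zz_mem : zz ∈ XX := by
  refine ⟨?_, Or.inl ?_⟩
  · intro p q h; simp [zz] at h
  · intro p; simp [zz]

theorem sing_base (p : ℤ) : Base (sing p) p := by
  refine ⟨by simp [sing], ?_, ?_⟩
  · intro q hq
    left
    by_contra hc
    simp [sing, hc] at hq
  · intro A hA
    exfalso
    by_cases h : A = p <;> simp [sing, h] at hA

theorem sing_mem (p : ℤ) : sing p ∈ XX := by
  refine ⟨?_, Or.inr ⟨p, sing_base p⟩⟩
  intro A q hA
  exfalso
  by_cases h : A = p <;> simp [sing, h] at hA

theorem al_mem (A : ℤ) : al A ∈ XX := by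
  refine ⟨?_, Or.inl ?_⟩
  · intro p q hp hq
    have h1 : p = A := by
      by_contra hc
      simp [al, hc] at hp
    have h2 : q = A := by
      by_contra hc
      simp [al, hc] at hq
    omega
  · intro p hp
    by_cases h : p = A <;> simp [al, h] at hp

theorem sing_shift (p k : ℤ) : (fun i => sing p (i + k)) = sing (p - k) := by
  funext i
  simp only [sing]
  by_cases h : i + k = p
  · rw [if_pos h, if_pos (by omega)]
  · rw [if_neg h, if_neg (by omega)]

theorem al_shift (p k : ℤ) : (fun i => al p (i + k)) = al (p - k) := by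
  funext i
  simp only [al]
  by_cases h : i + k = p
  · rw [if_pos h, if_pos (by omega)]
  · rw [if_neg h, if_neg (by omega)]

/-- a configuration without letter 1 is zero or a single letter 2 -/
theorem noOne_cases {x : ℤ → Fin 3} (hx : x ∈ XX) (h : ∀ p, x p ≠ 1) : x = zz ∨ ∃ A, x = al A := by
  by_cases h2 : ∃ A, x A = 2
  · obtain ⟨A, hA⟩ := h2
    right
    refine ⟨A, ?_⟩
    funext i
    by_cases hi : i = A
    · subst hi; simp [al, hA]
    · rcases tri (x i) with h3 | h3 | h3
      · simp [al, hi, h3]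
      · exact absurd h3 (h i)
      · exact absurd (hx.1 _ _ h3 hA) hi
  · left
    push Not at h2
    funext i
    rcases tri (x i) with h3 | h3 | h3
    · simp [zz, h3]
    · exact absurd h3 (h i)
    · exact absurd h3 (h2 i)

theorem base_of_one {x : ℤ → Fin 3} (hx : x ∈ XX) {p : ℤ} (h : x p = 1) : ∃ t, Base x t := by
  rcases hx.2 with h1 | h1
  · exact absurd h (h1 p)
  · exact h1

/-- two-point set with difference a power of two, and cluster -/
def trip (n : ℕ) : ℤ → Fin 3 := fun i => if i = 0 ∨ i = 2 ^ n ∨ i = 2 ^ (n + 1) then 1 else 0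

theorem trip_base (n : ℕ) : Base (trip n) 0 := by
  refine ⟨by simp [trip], ?_, ?_⟩
  · intro q hq
    by_contra hc
    push Not at hc
    have h1 : ¬ (q = 0 ∨ q = 2 ^ n ∨ q = 2 ^ (n + 1)) := by
      rintro (h | h | h)
      · exact hc.1 h
      · exact hc.2 n (by omega)
      · exact hc.2 (n + 1) (by omega)
    simp [trip, h1] at hq
  · intro A hA
    exfalso
    by_cases h : (A = 0 ∨ A = 2 ^ n ∨ A = 2 ^ (n + 1)) <;> simp [trip, h] at hA

theorem trip_mem (n : ℕ) : trip n ∈ XX := by
  refine ⟨?_, Or.inr ⟨0, trip_base n⟩⟩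
  intro A q hA
  exfalso
  by_cases h : (A = 0 ∨ A = 2 ^ n ∨ A = 2 ^ (n + 1)) <;> simp [trip, h] at hA

/-- far to the right of the base only isolated letters 1 are seen -/
theorem window {x : ℤ → Fin 3} {t v : ℤ} {m r : ℕ} (hm : 2 * (r : ℤ) < 2 ^ m)
    (hb : Base x t) (hv : t + 2 ^ m + r < v) :
    ∃ p, ∀ u, v - r ≤ u → u ≤ v + r → x u = sing p u := by
  have hno2 : ∀ u, t < u → x u ≠ 2 := by
    intro u hu h
    have := (hb.2.2 u h).1
    omega
  have hmp := two_pow_pos' m
  by_cases h : ∃ p, v - r ≤ p ∧ p ≤ v + r ∧ x p = 1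
  · obtain ⟨p, hp1, hp2, hp3⟩ := h
    refine ⟨p, ?_⟩
    intro u hu1 hu2
    by_cases hup : u = p
    · subst hup; simp [sing, hp3]
    · rcases tri (x u) with h3 | h3 | h3
      · simp [sing, hup, h3]
      · exfalso
        rcases hb.2.1 _ h3 with h4 | ⟨i, hi⟩
        · omega
        · rcases hb.2.1 _ hp3 with h5 | ⟨j, hj⟩
          · omega
          · rcases lt_trichotomy ((2 : ℤ) ^ i) (2 ^ j) with h6 | h6 | h6
            · have := pow_lt_aux h6
              omega
            · omega
            · have := pow_lt_aux h6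
              omega
      · exact absurd h3 (hno2 u (by omega))
  · push Not at h
    refine ⟨v + r + 1, ?_⟩
    intro u hu1 hu2
    have hne : u ≠ v + r + 1 := by omega
    rcases tri (x u) with h3 | h3 | h3
    · simp [sing, hne, h3]
    · exact absurd h3 (h u hu1 hu2)
    · exact absurd h3 (hno2 u (by omega))

namespace Endo

variable {f : (ℤ → Fin 3) → (ℤ → Fin 3)} {r : ℕ}

theorem zero (E : Endo f r) : f zz = zz := by
  have hmem := E.maps zz_mem
  have hconst : ∀ v, f zz v = f zz 0 := by
    intro v
    have h := E.com zz zz_mem v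
    have h1 : (fun i => zz (i + v)) = zz := rfl
    rw [h1] at h
    have := congrFun h 0
    simpa using this.symm
  rcases tri (f zz 0) with h | h | h
  · funext v
    rw [hconst v, h]
    rfl
  · exfalso
    obtain ⟨t, ht⟩ := base_of_one hmem h
    have h1 : f zz (t - 1) = 1 := by rw [hconst, h]
    have := ht.le h1
    omega
  · exfalso
    have h1 : f zz 1 = 2 := by rw [hconst, h]
    have := hmem.1 _ _ h h1
    omega

theorem zero_window (E : Endo f r) {x : ℤ → Fin 3} (hx : x ∈ XX) {v : ℤ}
    (h : ∀ u : ℤ, v - r ≤ u → u ≤ v + r → x u = 0) : f x v = 0 := by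
  rw [E.loc x hx zz zz_mem v (by intro u h1 h2; rw [h u h1 h2]; rfl), E.zero]
  rfl

theorem sing_eq (E : Endo f r) (p v : ℤ) : f (sing p) v = f (sing 0) (v - p) := by
  have h := E.com (sing 0) (sing_mem 0) (-p)
  rw [sing_shift] at h
  have h1 : (0 : ℤ) - -p = p := by ring
  rw [h1] at h
  rw [h]
  rfl

theorem al_eq (E : Endo f r) (p v : ℤ) : f (al p) v = f (al 0) (v - p) := by
  have h := E.com (al 0) (al_mem 0) (-p)
  rw [al_shift] at h
  have h1 : (0 : ℤ) - -p = p := by ring
  rw [h1] at h
  rw [h]
  rfl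

theorem sing_supp (E : Endo f r) {p v : ℤ} (h : f (sing p) v ≠ 0) : p - r ≤ v ∧ v ≤ p + r := by
  by_contra hc
  apply h
  apply E.zero_window (sing_mem p)
  intro u h1 h2
  have : u ≠ p := by
    rintro rfl
    omega
  simp [sing, this]

theorem al_supp (E : Endo f r) {p v : ℤ} (h : f (al p) v ≠ 0) : p - r ≤ v ∧ v ≤ p + r := by
  by_contra hc
  apply h
  apply E.zero_window (al_mem p)
  intro u h1 h2
  have : u ≠ p := by
    rintro rfl
    omega
  simp [al, this]

/-- the image of an isolated letter 1 is an isolated letter 1 -/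
theorem sing_image (E : Endo f r) : ∃ β, f (sing 0) = sing β := by
  obtain ⟨m, hm⟩ : ∃ m : ℕ, 2 * (r : ℤ) < 2 ^ m := by
    refine ⟨2 * r, ?_⟩
    have : 2 * r < 2 ^ (2 * r) := Nat.lt_two_pow_self
    exact_mod_cast this
  have hmp := two_pow_pos' m
  -- image of `trip n`
  have htrip : ∀ u, f (sing 0) u ≠ 0 → f (trip (m + 1)) u = f (sing 0) u ∧
      f (trip (m + 1)) (2 ^ (m + 1) + u) = f (sing 0) u := by
    intro u hu
    have hs := E.sing_supp hu
    have e1 : (2 : ℤ) ^ (m + 1) = 2 * 2 ^ m := by rw [pow_succ]; ring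
    have e2 : (2 : ℤ) ^ (m + 1 + 1) = 4 * 2 ^ m := by rw [pow_succ, pow_succ]; ring
    constructor
    · apply E.loc _ (trip_mem _) _ (sing_mem 0)
      intro w h1 h2
      have h3 : (w = 0 ∨ w = 2 ^ (m + 1) ∨ w = 2 ^ (m + 1 + 1)) ↔ w = 0 := by
        constructor
        · rintro (h | h | h)
          · exact h
          · omega
          · omega
        · intro h; exact Or.inl h
      simp only [trip, sing, h3]
    · have h4 : f (sing 0) u = f (sing (2 ^ (m + 1))) (2 ^ (m + 1) + u) := by
        rw [E.sing_eq (2 ^ (m + 1)) (2 ^ (m + 1) + u)]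
        congr 1
        ring
      rw [h4]
      apply E.loc _ (trip_mem _) _ (sing_mem _)
      intro w h1 h2
      have h3 : (w = 0 ∨ w = 2 ^ (m + 1) ∨ w = 2 ^ (m + 1 + 1)) ↔ w = 2 ^ (m + 1) := by
        constructor
        · rintro (h | h | h)
          · omega
          · exact h
          · omega
        · intro h; exact Or.inr (Or.inl h)
      simp only [trip, sing, h3]
  have hmemT := E.maps (trip_mem (m + 1))
  have c1 : ∀ u, f (sing 0) u ≠ 2 := by
    intro u hu
    obtain ⟨h1, h2⟩ := htrip u (by rw [hu]; decide)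
    have := hmemT.1 _ _ (h1.trans hu) (h2.trans hu)
    have := two_pow_pos' (m + 1)
    omega
  have c2 : ∀ u w, f (sing 0) u = 1 → f (sing 0) w = 1 → u < w → False := by
    intro u w hu hw huw
    obtain ⟨h1, h2⟩ := htrip u (by rw [hu]; decide)
    obtain ⟨h3, h4⟩ := htrip w (by rw [hw]; decide)
    have hs1 := E.sing_supp (p := 0) (v := u) (by rw [hu]; decide)
    have hs2 := E.sing_supp (p := 0) (v := w) (by rw [hw]; decide)
    have e1 : (2 : ℤ) ^ (m + 1) = 2 * 2 ^ m := by rw [pow_succ]; ring
    obtain ⟨t, ht⟩ := base_of_one hmemT (h1.trans hu)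
    have hle := ht.le (h1.trans hu)
    have hb := ht.bounds (h2.trans hu) (h4.trans hw) (by omega)
    omega
  have c3 : ∃ β, f (sing 0) β = 1 := by
    by_contra hc
    push Not at hc
    have hz : f (sing 0) = zz := by
      funext u
      rcases tri (f (sing 0) u) with h | h | h
      · rw [h]; rfl
      · exact absurd h (hc u)
      · exact absurd h (c1 u)
    have hzp : ∀ p v, f (sing p) v = 0 := by
      intro p v
      rw [E.sing_eq, hz]
      rfl
    -- target
    obtain ⟨x, hx, hfx⟩ := E.surj (trip_mem (m + 3))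
    have e1 : (2 : ℤ) ^ (m + 3) = 8 * 2 ^ m := by rw [pow_add]; ring
    have e2 : (2 : ℤ) ^ (m + 3 + 1) = 16 * 2 ^ m := by rw [pow_succ, pow_add]; ring
    have t0 : f x 0 ≠ 0 := by rw [hfx]; simp [trip]
    have t1 : f x (2 ^ (m + 3)) ≠ 0 := by rw [hfx]; simp [trip]
    have t2 : f x (2 ^ (m + 3 + 1)) ≠ 0 := by rw [hfx]; simp [trip]
    by_cases hno : ∀ p, x p ≠ 1
    · rcases noOne_cases hx hno with h | ⟨A, h⟩
      · rw [h, E.zero] at t0
        exact t0 rfl
      · rw [h] at t0 t1
        have h1 := E.al_supp t0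
        have h2 := E.al_supp t1
        omega
    · push Not at hno
      obtain ⟨p, hp⟩ := hno
      obtain ⟨t, ht⟩ := base_of_one hx hp
      -- support of the image
      have hright : ∀ v, f x v ≠ 0 → v ≤ t + 2 ^ m + r := by
        intro v hv
        by_contra hcon
        push Not at hcon
        obtain ⟨p, hp⟩ := window hm ht hcon
        exact hv ((E.loc _ hx _ (sing_mem p) v hp).trans (hzp p v))
      have hleft : ∃ A, ∀ v, f x v ≠ 0 → t - r ≤ v ∨ (A - r ≤ v ∧ v ≤ A + r) := by
        by_cases hA : ∃ A, x A = 2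
        · obtain ⟨A, hA⟩ := hA
          refine ⟨A, ?_⟩
          intro v hv
          by_contra hcon
          push Not at hcon
          apply hv
          rw [E.loc x hx (al A) (al_mem A) v ?_]
          · by_contra h
            have := E.al_supp h
            omega
          · intro u h1 h2
            by_cases hu : u = A
            · subst hu; simp [al, hA]
            · rcases tri (x u) with h3 | h3 | h3
              · simp [al, hu, h3]
              · have := ht.le h3
                omega
              · exact absurd (hx.1 _ _ h3 hA) hu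
        · push Not at hA
          refine ⟨0, ?_⟩
          intro v hv
          by_contra hcon
          push Not at hcon
          apply hv
          apply E.zero_window hx
          intro u h1 h2
          rcases tri (x u) with h3 | h3 | h3
          · exact h3
          · have := ht.le h3
            omega
          · exact absurd h3 (hA u)
      obtain ⟨A, hA⟩ := hleft
      have r0 := hright _ t0
      have r1 := hright _ t1
      have r2 := hright _ t2
      have l0 := hA _ t0
      have l1 := hA _ t1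
      have l2 := hA _ t2
      omega
  obtain ⟨β, hβ⟩ := c3
  refine ⟨β, ?_⟩
  funext u
  by_cases hu : u = β
  · subst hu; simp [sing, hβ]
  · rcases tri (f (sing 0) u) with h | h | h
    · simp [sing, hu, h]
    · exfalso
      rcases lt_or_gt_of_ne hu with h1 | h1
      · exact c2 _ _ h hβ h1
      · exact c2 _ _ hβ h h1
    · exact absurd h (c1 u)

end Endo

end Pool.Agent.H694R3.Inj
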