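import Pool.Agent.H694R3.InjMain

set_option autoImplicit false
open Set Topology

namespace Pool.Agent.H694R3.Inj

/-- normalised configurations with both letters and distance at most `D` -/
def ZD (D : ℤ) : Set (ℤ → Fin 3) :=
  {x | x ∈ XX ∧ x 0 = 2 ∧ ∃ t, Base x t ∧ t ≤ D}

theorem ZD_supp {D : ℤ} {x : ℤ → Fin 3} (hx : x ∈ ZD D) {u : ℤ} (hu : u ∉ Finset.Icc (0 : ℤ) (2 * D)) :
    x u = 0 := by
  obtain ⟨hm, h0, t, ht, htD⟩ := hx
  have h1 := (ht.2.2 0 h0).1
  rw [Finset.mem_Icc] at hu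
  rcases tri (x u) with h | h | h
  · exact h
  · exfalso
    rcases ht.2.1 u h with h2 | ⟨i, hi⟩
    · omega
    · have h3 := (ht.2.2 0 h0).2 i (by rw [← hi]; exact h)
      have := two_pow_pos' i
      omega
  · exfalso
    have := hm.1 _ _ h h0
    omega

theorem ZD_finite (D : ℤ) : (ZD D).Finite := by
  apply Set.Finite.of_injOn (f := fun x : ℤ → Fin 3 => fun u : Finset.Icc (0 : ℤ) (2 * D) => x u)
    (t := univ) (fun _ _ => mem_univ _) _ finite_univ
  intro x hx y hy hxy
  funext u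
  by_cases hu : u ∈ Finset.Icc (0 : ℤ) (2 * D)
  · exact congrFun hxy ⟨u, hu⟩
  · rw [ZD_supp hx hu, ZD_supp hy hu]

namespace NEndo

variable {f : (ℤ → Fin 3) → (ℤ → Fin 3)} {r m : ℕ}

theorem pre (N : NEndo f r m) {D : ℤ} (hD : 2 * (r : ℤ) ≤ D) {y : ℤ → Fin 3} (hy : y ∈ ZD D) :
    ∃ x ∈ ZD D, ∃ k : ℤ, ∀ i, f x (i + k) = y i := by
  obtain ⟨hym, hy0, ty, hty, htD⟩ := hy
  obtain ⟨w, hw, hfw⟩ := N.surj hym
  obtain ⟨t, B, ht, hB⟩ := N.pre_cases hw (by rw [hfw]; exact hy0) (by rw [hfw]; exact hty.1)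
  have hle : t - B ≤ D := by
    rcases lt_or_ge (2 * (r : ℤ)) (t - B) with hd | hd
    · have h1 := N.far_base hw ht hB hd
      rw [hfw] at h1
      have h2 := h1.unique hty
      have h3 := N.far_two hw ht hB hd (B := 0) (by rw [hfw]; exact hy0)
      rw [N.al_fix] at h3
      have h4 : (0 : ℤ) = B := by
        by_contra hc
        simp [al, hc] at h3
      omega
    · omega
  refine ⟨fun i => w (i + B), ⟨shift_mem hw B, by simpa using hB, t - B, ht.shift B, hle⟩, -B, ?_⟩
  intro i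
  rw [N.com w hw B]
  simp [hfw]

theorem count (N : NEndo f r m) {D : ℤ} (hD : 2 * (r : ℤ) ≤ D) :
    (∀ x ∈ ZD D, (∃ p, f x p = 1) ∧ ∃ p, f x p = 2) ∧
    ∀ x ∈ ZD D, ∀ x' ∈ ZD D, ∀ j : ℤ, (∀ i, f x i = f x' (i + j)) → x = x' ∧ j = 0 := by
  classical
  have hpre : ∀ y : ZD D, ∃ x : ZD D, ∃ k : ℤ, ∀ i, f x.1 (i + k) = y.1 i := by
    intro y
    obtain ⟨x, hx, k, hk⟩ := N.pre hD y.2
    exact ⟨⟨x, hx⟩, k, hk⟩
  choose ψ κ hψ using hpre
  have htwo : ∀ y : ZD D, f (ψ y).1 (κ y) = 2 := by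
    intro y
    have h := hψ y 0
    rw [zero_add] at h
    rw [h]
    exact y.2.2.1
  have hinj : Function.Injective ψ := by
    intro y y' h
    have h1 := htwo y
    have h2 := htwo y'
    rw [← h] at h2
    have h3 := (N.maps (ψ y).2.1).1 _ _ h1 h2
    apply Subtype.ext
    funext i
    rw [← hψ y i, ← hψ y' i, ← h, h3]
  have : Finite (ZD D) := (ZD_finite D).to_subtype
  have hsurj : Function.Surjective ψ := Finite.surjective_of_injective hinj
  constructor
  · intro x hx
    obtain ⟨y, hy⟩ := hsurj ⟨x, hx⟩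
    have h1 := hψ y
    have h2 := htwo y
    rw [hy] at h1 h2
    obtain ⟨t, ht, _⟩ := y.2.2.2
    exact ⟨⟨t + κ y, (h1 t).trans ht.1⟩, ⟨_, h2⟩⟩
  · intro x hx x' hx' j hj
    obtain ⟨y, hy⟩ := hsurj ⟨x, hx⟩
    obtain ⟨y', hy'⟩ := hsurj ⟨x', hx'⟩
    have h1 := hψ y
    have h2 := htwo y
    have h1' := hψ y'
    have h2' := htwo y'
    rw [hy] at h1 h2
    rw [hy'] at h1' h2'
    simp only at h1 h2 h1' h2'
    have h3 : f x' (κ y + j) = 2 := by rw [← hj, h2]
    have h4 := (N.maps hx'.1).1 _ _ h3 h2'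
    have h5 : y = y' := by
      apply Subtype.ext
      funext i
      rw [← h1, ← h1', hj]
      congr 1
      omega
    subst h5
    have h6 : (⟨x, hx⟩ : ZD D) = ⟨x', hx'⟩ := hy.symm.trans hy'
    refine ⟨congrArg Subtype.val h6, by omega⟩

/-- injectivity on configurations having both letters -/
theorem inj_both (N : NEndo f r m) {x x' : ℤ → Fin 3} (hx : x ∈ XX) (hx' : x' ∈ XX) {t t' A A' : ℤ}
    (ht : Base x t) (ht' : Base x' t') (hA : x A = 2) (hA' : x' A' = 2) (hf : f x = f x') : x = x' := by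
  set D : ℤ := max (2 * (r : ℤ)) (max (t - A) (t' - A')) with hD
  have hz : (fun i => x (i + A)) ∈ ZD D :=
    ⟨shift_mem hx A, by simpa using hA, t - A, ht.shift A, by omega⟩
  have hz' : (fun i => x' (i + A')) ∈ ZD D :=
    ⟨shift_mem hx' A', by simpa using hA', t' - A', ht'.shift A', by omega⟩
  obtain ⟨h1, h2⟩ := (N.count (D := D) (by omega)).2 _ hz _ hz' (A - A') (by
    intro i
    rw [N.com x hx A, N.com x' hx' A', hf]
    simp only
    congr 1
    ring)
  funext i
  have h3 : x (i - A + A) = x' (i - A + A') := congrFun h1 (i - A)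
  have e1 : i - A + A = i := by ring
  have e2 : i - A + A' = i := by omega
  rw [e1, e2] at h3
  exact h3

theorem both_image (N : NEndo f r m) {x : ℤ → Fin 3} (hx : x ∈ XX) {t A : ℤ}
    (ht : Base x t) (hA : x A = 2) : (∃ p, f x p = 1) ∧ ∃ p, f x p = 2 := by
  set D : ℤ := max (2 * (r : ℤ)) (t - A) with hD
  have hz : (fun i => x (i + A)) ∈ ZD D :=
    ⟨shift_mem hx A, by simpa using hA, t - A, ht.shift A, by omega⟩
  obtain ⟨⟨p, hp⟩, ⟨q, hq⟩⟩ := (N.count (D := D) (by omega)).1 _ hz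
  rw [N.com x hx A] at hp hq
  exact ⟨⟨_, hp⟩, ⟨_, hq⟩⟩

/-- cut a configuration without letter 2 after the cluster, and add a far letter 2 -/
def addA (m r : ℕ) (t : ℤ) (x : ℤ → Fin 3) : ℤ → Fin 3 :=
  fun i => if i = t - 2 ^ m - 2 * r - 1 then 2 else if i ≤ t + 2 ^ m then x i else 0

theorem addA_two {t : ℤ} {x : ℤ → Fin 3} (h2 : ∀ A, x A ≠ 2) {p : ℤ} (h : addA m r t x p = 2) :
    p = t - 2 ^ m - 2 * r - 1 := by
  by_contra hc
  unfold addA at h
  rw [if_neg hc] at h
  by_cases h3 : p ≤ t + 2 ^ m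
  · rw [if_pos h3] at h
    exact h2 _ h
  · rw [if_neg h3] at h
    exact absurd h (by decide)

theorem addA_one {t : ℤ} {x : ℤ → Fin 3} {p : ℤ} (h : addA m r t x p = 1) :
    p ≤ t + 2 ^ m ∧ x p = 1 := by
  unfold addA at h
  by_cases hc : p = t - 2 ^ m - 2 * r - 1
  · rw [if_pos hc] at h
    exact absurd h (by decide)
  · rw [if_neg hc] at h
    by_cases h3 : p ≤ t + 2 ^ m
    · rw [if_pos h3] at h
      exact ⟨h3, h⟩
    · rw [if_neg h3] at h
      exact absurd h (by decide)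

theorem addA_base {t : ℤ} {x : ℤ → Fin 3} (ht : Base x t) (h2 : ∀ A, x A ≠ 2) :
    Base (addA m r t x) t := by
  have hmp := two_pow_pos' m
  refine ⟨?_, ?_, ?_⟩
  · unfold addA
    rw [if_neg (by omega), if_pos (by omega)]
    exact ht.1
  · intro p hp
    exact ht.2.1 p (addA_one hp).2
  · intro A hA
    have h3 := addA_two h2 hA
    refine ⟨by omega, ?_⟩
    intro i hi
    have h4 := (addA_one hi).1
    omega

theorem addA_mem {t : ℤ} {x : ℤ → Fin 3} (ht : Base x t) (h2 : ∀ A, x A ≠ 2) :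
    addA m r t x ∈ XX :=
  ⟨fun p q hp hq => (addA_two h2 hp).trans (addA_two h2 hq).symm, Or.inr ⟨t, addA_base ht h2⟩⟩

theorem gap {t : ℤ} {x : ℤ → Fin 3} (ht : Base x t) (h2 : ∀ A, x A ≠ 2) {u : ℤ}
    (h : t + 2 ^ m < u) (h' : u < t + 2 * 2 ^ m) : x u = 0 := by
  have hmp := two_pow_pos' m
  rcases tri (x u) with h3 | h3 | h3
  · exact h3
  · exfalso
    rcases ht.2.1 u h3 with h4 | ⟨i, hi⟩
    · omega
    · have := pow_lt_aux (i := m) (j := i) (by omega)
      omega
  · exact absurd h3 (h2 u)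

/-- injectivity on configurations having no letter 2 -/
theorem inj_noA (N : NEndo f r m) {x x' : ℤ → Fin 3} (hx : x ∈ XX) (hx' : x' ∈ XX) {t t' : ℤ}
    (ht : Base x t) (ht' : Base x' t') (h2 : ∀ A, x A ≠ 2) (h2' : ∀ A, x' A ≠ 2)
    (hf : f x = f x') : x = x' := by
  have hb := (N.noA hx ht h2).1
  have hb' := (N.noA hx' ht' h2').1
  rw [hf] at hb
  have htt := hb.unique hb'
  subst htt
  have hmp := two_pow_pos' m
  have hm := N.hm
  -- values of the modified configurations
  have hmid : ∀ z : ℤ → Fin 3, Base z t → (∀ A, z A ≠ 2) → ∀ u, t - 2 * r ≤ u →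
      u ≤ t + 2 ^ m + 2 * r → addA m r t z u = z u := by
    intro z hz hz2 u hu1 hu2
    unfold addA
    rw [if_neg (by omega)]
    by_cases h3 : u ≤ t + 2 ^ m
    · rw [if_pos h3]
    · rw [if_neg h3, gap (m := m) hz hz2 (by omega) (by omega)]
  have hlow : ∀ z : ℤ → Fin 3, Base z t → (∀ A, z A ≠ 2) → ∀ u, u < t →
      addA m r t z u = al (t - 2 ^ m - 2 * r - 1) u := by
    intro z hz hz2 u hu
    unfold addA al
    by_cases h3 : u = t - 2 ^ m - 2 * r - 1
    · rw [if_pos h3, if_pos h3]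
    · rw [if_neg h3, if_neg h3, if_pos (by omega)]
      rcases tri (z u) with h4 | h4 | h4
      · exact h4
      · have := hz.le h4
        omega
      · exact absurd h4 (hz2 u)
  have hhigh : ∀ z : ℤ → Fin 3, ∀ u, t + 2 ^ m < u → addA m r t z u = 0 := by
    intro z u hu
    unfold addA
    rw [if_neg (by omega), if_neg (by omega)]
  have hw := addA_mem (m := m) (r := r) ht h2
  have hw' := addA_mem (m := m) (r := r) ht' h2'
  have hfw : f (addA m r t x) = f (addA m r t x') := by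
    funext v
    rcases lt_or_ge v (t - r) with h3 | h3
    · apply N.loc _ hw _ hw'
      intro u hu1 hu2
      rw [hlow x ht h2 u (by omega), hlow x' ht' h2' u (by omega)]
    · rcases le_or_gt v (t + 2 ^ m + r) with h4 | h4
      · rw [N.loc _ hw x hx v (by
            intro u hu1 hu2
            exact hmid x ht h2 u (by omega) (by omega)),
          N.loc _ hw' x' hx' v (by
            intro u hu1 hu2
            exact hmid x' ht' h2' u (by omega) (by omega)), hf]
      · apply N.loc _ hw _ hw'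
        intro u hu1 hu2
        rw [hhigh x u (by omega), hhigh x' u (by omega)]
  have hA : ∀ z : ℤ → Fin 3, addA m r t z (t - 2 ^ m - 2 * r - 1) = 2 := by
    intro z
    unfold addA
    rw [if_pos rfl]
  have heq := N.inj_both hw hw' (addA_base ht h2) (addA_base ht' h2') (hA x) (hA x') hfw
  funext u
  rcases le_or_gt u (t + 2 ^ m + r) with h3 | h3
  · rcases lt_or_ge u t with h4 | h4
    · have e1 : x u = 0 := by
        rcases tri (x u) with h5 | h5 | h5
        · exact h5
        · have := ht.le h5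
          omega
        · exact absurd h5 (h2 u)
      have e2 : x' u = 0 := by
        rcases tri (x' u) with h5 | h5 | h5
        · exact h5
        · have := ht'.le h5
          omega
        · exact absurd h5 (h2' u)
      rw [e1, e2]
    · rw [← hmid x ht h2 u (by omega) (by omega), ← hmid x' ht' h2' u (by omega) (by omega), heq]
  · rw [← N.right_fix hx ht h3, ← N.right_fix hx' ht' h3, hf]

theorem injOn (N : NEndo f r m) : InjOn f XX := by
  intro x hx x' hx' hf
  have hcase : ∀ z ∈ XX, (f z = z ∧ ∀ p, z p ≠ 1) ∨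
      (∃ t, Base z t ∧ (∀ A, z A ≠ 2) ∧ Base (f z) t ∧ ∀ A, f z A ≠ 2) ∨
      (∃ t A, Base z t ∧ z A = 2 ∧ (∃ p, f z p = 1) ∧ ∃ p, f z p = 2) := by
    intro z hz
    by_cases hno : ∀ p, z p ≠ 1
    · left
      refine ⟨?_, hno⟩
      rcases noOne_cases hz hno with h | ⟨A, h⟩
      · rw [h, N.zero]
      · rw [h, N.al_fix]
    · push Not at hno
      obtain ⟨p, hp⟩ := hno
      obtain ⟨t, ht⟩ := base_of_one hz hp
      by_cases hA : ∃ A, z A = 2
      · obtain ⟨A, hA⟩ := hA
        right; right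
        obtain ⟨h1, h2⟩ := N.both_image hz ht hA
        exact ⟨t, A, ht, hA, h1, h2⟩
      · push Not at hA
        right; left
        obtain ⟨h1, h2⟩ := N.noA hz ht hA
        exact ⟨t, ht, hA, h1, h2⟩
  rcases hcase x hx with ⟨h1, h2⟩ | ⟨t, ht, h1, h2, h3⟩ | ⟨t, A, ht, hA, ⟨p, hp⟩, ⟨q, hq⟩⟩
  · rcases hcase x' hx' with ⟨h1', h2'⟩ | ⟨t', ht', h1', h2', h3'⟩ | ⟨t', A', ht', hA', ⟨p', hp'⟩, ⟨q', hq'⟩⟩
    · rw [← h1, ← h1', hf]
    · have h4 := h2'.1
      rw [← hf, h1] at h4
      exact absurd h4 (h2 _)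
    · rw [← hf, h1] at hp'
      exact absurd hp' (h2 _)
  · rcases hcase x' hx' with ⟨h1', h2'⟩ | ⟨t', ht', h1', h2', h3'⟩ | ⟨t', A', ht', hA', ⟨p', hp'⟩, ⟨q', hq'⟩⟩
    · have h4 := h2.1
      rw [hf, h1'] at h4
      exact absurd h4 (h2' _)
    · exact N.inj_noA hx hx' ht ht' h1 h1' hf
    · rw [← hf] at hq'
      exact absurd hq' (h3 _)
  · rcases hcase x' hx' with ⟨h1', h2'⟩ | ⟨t', ht', h1', h2', h3'⟩ | ⟨t', A', ht', hA', ⟨p', hp'⟩, ⟨q', hq'⟩⟩
    · rw [hf, h1'] at hp
      exact absurd hp (h2' _)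
    · rw [hf] at hq
      exact absurd hq (h3' _)
    · exact N.inj_both hx hx' ht ht' hA hA' hf

end NEndo

/-- every surjective endomorphism of `XX` is injective -/
theorem injunctive (f : (ℤ → Fin 3) → (ℤ → Fin 3)) (hmaps : MapsTo f XX XX) (hc : ContinuousOn f XX)
    (hcom : ∀ x ∈ XX, f (fun i => x (i + 1)) = fun i => f x (i + 1)) (hs : SurjOn f XX XX) :
    InjOn f XX := by
  -- all shifts
  have hnat : ∀ n : ℕ, ∀ x ∈ XX, f (fun i => x (i + (n : ℤ))) = fun i => f x (i + n) := by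
    intro n
    induction n with
    | zero => intro x _; simp
    | succ n ih =>
      intro x hx
      have h1 := hcom _ (shift_mem hx n)
      rw [ih x hx] at h1
      have e1 : (fun i => x (i + ((n + 1 : ℕ) : ℤ))) = fun i => x (i + 1 + (n : ℤ)) := by
        funext i
        congr 1
        push_cast
        ring
      rw [e1, h1]
      funext i
      congr 1
      push_cast
      ring
  have hint : ∀ x ∈ XX, ∀ k : ℤ, f (fun i => x (i + k)) = fun i => f x (i + k) := by
    intro x hx k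
    rcases le_or_gt 0 k with hk | hk
    · obtain ⟨n, rfl⟩ := Int.eq_ofNat_of_zero_le hk
      exact hnat n x hx
    · obtain ⟨n, hn⟩ := Int.eq_ofNat_of_zero_le (show 0 ≤ -k by omega)
      have h1 := hnat n _ (shift_mem hx k)
      have e1 : (fun i => x (i + (n : ℤ) + k)) = x := by
        funext i
        congr 1
        omega
      rw [e1] at h1
      rw [h1]
      funext i
      simp only
      congr 1
      omega
  obtain ⟨r, hr⟩ := chl f hc hint
  have E : Endo f r := ⟨hmaps, hint, hr, hs⟩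
  obtain ⟨β, hβ⟩ := E.sing_image
  -- normalised map
  set g : (ℤ → Fin 3) → (ℤ → Fin 3) := fun x i => f x (i + β) with hg
  have hR : ∃ R : ℕ, (r : ℤ) + |β| ≤ R := by
    refine ⟨r + β.natAbs, ?_⟩
    rw [Int.abs_eq_natAbs]
    push_cast
    exact le_rfl
  obtain ⟨R, hR⟩ := hR
  obtain ⟨m, hm⟩ : ∃ m : ℕ, 2 * (R : ℤ) < 2 ^ m := by
    refine ⟨2 * R, ?_⟩
    have : 2 * R < 2 ^ (2 * R) := Nat.lt_two_pow_self
    exact_mod_cast this
  have N : NEndo g R m := by
    refine ⟨⟨?_, ?_, ?_, ?_⟩, ?_, hm⟩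
    · intro x hx
      exact shift_mem (hmaps hx) β
    · intro x hx k
      simp only [hg]
      rw [hint x hx k]
      funext i
      congr 1
      ring
    · intro x hx x' hx' v hag
      simp only [hg]
      apply hr x hx x' hx'
      intro u h1 h2
      have h3 := abs_le.1 (le_refl |β|)
      exact hag u (by omega) (by omega)
    · intro y hy
      obtain ⟨x, hx, hfx⟩ := hs (shift_mem hy (-β))
      refine ⟨x, hx, ?_⟩
      funext i
      simp only [hg]
      rw [hfx]
      simp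
    · simp only [hg]
      rw [hβ]
      funext i
      simp [sing]
  intro x hx x' hx' hf
  apply N.injOn hx hx'
  simp only [hg]
  rw [hf]

/-- the endomorphism moving the letter 2 one step to the left -/
def tau (x : ℤ → Fin 3) : ℤ → Fin 3 :=
  fun i => if x i = 1 then 1 else if x (i + 1) = 2 then 2 else 0

theorem tau_one {x : ℤ → Fin 3} {i : ℤ} : tau x i = 1 ↔ x i = 1 := by
  unfold tau
  by_cases h : x i = 1
  · simp [h]
  · by_cases h2 : x (i + 1) = 2 <;> simp [h, h2]

theorem tau_two {x : ℤ → Fin 3} (hx : x ∈ XX) {i : ℤ} : tau x i = 2 ↔ x (i + 1) = 2 := by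
  unfold tau
  by_cases h2 : x (i + 1) = 2
  · have h : x i ≠ 1 := by
      intro h
      obtain ⟨t, ht⟩ := base_of_one hx h
      have h3 := ht.le h
      have h4 := (ht.2.2 _ h2).1
      omega
    simp [h, h2]
  · by_cases h : x i = 1 <;> simp [h, h2]

theorem tau_maps : MapsTo tau XX XX := by
  intro x hx
  refine ⟨?_, ?_⟩
  · intro p q hp hq
    rw [tau_two hx] at hp hq
    have := hx.1 _ _ hp hq
    omega
  · rcases hx.2 with h | ⟨t, ht⟩
    · left
      intro p hp
      exact h p (tau_one.1 hp)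
    · right
      refine ⟨t, tau_one.2 ht.1, ?_, ?_⟩
      · intro p hp
        exact ht.2.1 p (tau_one.1 hp)
      · intro A hA
        rw [tau_two hx] at hA
        obtain ⟨h1, h2⟩ := ht.2.2 _ hA
        refine ⟨by omega, ?_⟩
        intro i hi
        have := h2 i (tau_one.1 hi)
        omega

theorem tau_cont : Continuous tau := by
  apply continuous_pi
  intro i
  have h : Continuous (fun x : ℤ → Fin 3 => (x i, x (i + 1))) :=
    (continuous_apply i).prodMk (continuous_apply (i + 1))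
  have h2 : Continuous (fun c : Fin 3 × Fin 3 => if c.1 = 1 then (1 : Fin 3) else if c.2 = 2 then 2 else 0) :=
    continuous_of_discreteTopology
  exact h2.comp h

theorem tau_injOn : InjOn tau XX := by
  intro x hx y hy h
  have h1 : ∀ i, x i = 1 ↔ y i = 1 := by
    intro i
    rw [← tau_one (x := x), ← tau_one (x := y), h]
  have h2 : ∀ i, x i = 2 ↔ y i = 2 := by
    intro i
    have h3 := tau_two hx (i := i - 1)
    have h4 := tau_two hy (i := i - 1)
    rw [sub_add_cancel] at h3 h4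
    rw [← h3, ← h4, h]
  funext i
  rcases tri (x i) with h3 | h3 | h3
  · rcases tri (y i) with h4 | h4 | h4
    · rw [h3, h4]
    · rw [(h1 i).2 h4, h4]
    · rw [(h2 i).2 h4, h4]
  · rw [h3, (h1 i).1 h3]
  · rw [h3, (h2 i).1 h3]

theorem tau_not_surj : ¬ SurjOn tau XX XX := by
  intro hs
  have h01 : (0 : ℤ) < 1 := by norm_num
  have hI : ∀ i ∈ (∅ : Set ℕ), (2 : ℤ) ^ i < 1 - 0 := by
    intro i hi
    exact absurd hi (by simp)
  obtain ⟨x, hx, hfx⟩ := hs (NEndo.cfg_mem h01 hI)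
  have y0 : tau x 0 = 2 := by rw [hfx]; exact (NEndo.cfg_two h01).2 rfl
  have y1 : tau x 1 = 1 := by rw [hfx]; exact NEndo.cfg_one.2 (Or.inl rfl)
  rw [tau_two hx] at y0
  rw [tau_one] at y1
  rw [zero_add, y1] at y0
  exact absurd y0 (by decide)

end Pool.Agent.H694R3.Inj
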