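import Pool.Agent.H694R3.InjEndo

set_option autoImplicit false
open Set Topology

namespace Pool.Agent.H694R3.Inj

structure NEndo (f : (ℤ → Fin 3) → (ℤ → Fin 3)) (r m : ℕ) : Prop extends Endo f r where
  sing0 : f (sing 0) = sing 0
  hm : 2 * (r : ℤ) < 2 ^ m

/-- delete the letter 2 -/
def del (x : ℤ → Fin 3) : ℤ → Fin 3 := fun i => if x i = 2 then 0 else x i

theorem del_one {x : ℤ → Fin 3} {p : ℤ} : del x p = 1 ↔ x p = 1 := by
  unfold del
  rcases tri (x p) with h | h | h <;> simp [h]

theorem del_two {x : ℤ → Fin 3} {p : ℤ} : del x p ≠ 2 := by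
  unfold del
  rcases tri (x p) with h | h | h <;> simp [h]

theorem del_base {x : ℤ → Fin 3} {t : ℤ} (h : Base x t) : Base (del x) t := by
  refine ⟨del_one.2 h.1, ?_, ?_⟩
  · intro p hp
    exact h.2.1 p (del_one.1 hp)
  · intro A hA
    exact absurd hA del_two

theorem del_mem {x : ℤ → Fin 3} {t : ℤ} (h : Base x t) : del x ∈ XX :=
  ⟨fun _ _ hp => absurd hp del_two, Or.inr ⟨t, del_base h⟩⟩

namespace NEndo

variable {f : (ℤ → Fin 3) → (ℤ → Fin 3)} {r m : ℕ}

theorem sing_fix (N : NEndo f r m) (p : ℤ) : f (sing p) = sing p := by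
  funext v
  rw [N.toEndo.sing_eq, N.sing0]
  simp only [sing]
  by_cases h : v = p
  · rw [if_pos h, if_pos (by omega)]
  · rw [if_neg h, if_neg (by omega)]

theorem right_fix (N : NEndo f r m) {x : ℤ → Fin 3} (hx : x ∈ XX) {t v : ℤ} (ht : Base x t)
    (hv : t + 2 ^ m + r < v) : f x v = x v := by
  obtain ⟨p, hp⟩ := window N.hm ht hv
  rw [N.loc x hx (sing p) (sing_mem p) v hp, N.sing_fix, hp v (by omega) (by omega)]

/-- configurations without letter 2: the base is preserved, and no letter 2 is created -/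
theorem noA (N : NEndo f r m) {x : ℤ → Fin 3} (hx : x ∈ XX) {t : ℤ} (ht : Base x t)
    (hA : ∀ A, x A ≠ 2) : Base (f x) t ∧ ∀ A, f x A ≠ 2 := by
  have hmp := two_pow_pos' m
  have hm := N.hm
  have e1 : (2 : ℤ) ^ (m + 1) = 2 * 2 ^ m := by rw [pow_succ]; ring
  have e3 : (2 : ℤ) ^ (m + 1 + 2) = 8 * 2 ^ m := by rw [pow_add, pow_succ]; ring
  set x' : ℤ → Fin 3 := fun i => if i ≤ t + 2 ^ m then x i else
    if i = t + 2 ^ (m + 1) ∨ i = t + 2 ^ (m + 1 + 2) then 1 else 0 with hx'
  have x'le : ∀ u, u ≤ t + 2 ^ m → x' u = x u := by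
    intro u hu
    simp only [hx', if_pos hu]
  have x'gt : ∀ u, t + 2 ^ m < u → x' u = if u = t + 2 ^ (m + 1) ∨ u = t + 2 ^ (m + 1 + 2) then 1 else 0 := by
    intro u hu
    simp only [hx', if_neg (not_le.2 hu)]
  have x'no2 : ∀ u, x' u ≠ 2 := by
    intro u hu
    rcases le_or_gt u (t + 2 ^ m) with h | h
    · rw [x'le u h] at hu
      exact hA u hu
    · rw [x'gt u h] at hu
      by_cases h2 : (u = t + 2 ^ (m + 1) ∨ u = t + 2 ^ (m + 1 + 2))
      · rw [if_pos h2] at hu
        exact absurd hu (by decide)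
      · rw [if_neg h2] at hu
        exact absurd hu (by decide)
  have hb' : Base x' t := by
    refine ⟨?_, ?_, ?_⟩
    · rw [x'le t (by omega)]
      exact ht.1
    · intro p hp
      rcases le_or_gt p (t + 2 ^ m) with h | h
      · rw [x'le p h] at hp
        exact ht.2.1 p hp
      · rw [x'gt p h] at hp
        right
        by_cases h2 : (p = t + 2 ^ (m + 1) ∨ p = t + 2 ^ (m + 1 + 2))
        · rcases h2 with h2 | h2
          · exact ⟨_, h2⟩
          · exact ⟨_, h2⟩
        · rw [if_neg h2] at hp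
          exact absurd hp (by decide)
    · intro A hA2
      exact absurd hA2 (x'no2 A)
  have hx'm : x' ∈ XX := ⟨fun _ _ hp => absurd hp (x'no2 _), Or.inr ⟨t, hb'⟩⟩
  have hag : ∀ u, u ≤ t + 2 ^ m + 2 * r → x u = x' u := by
    intro u hu
    rcases le_or_gt u (t + 2 ^ m) with h | h
    · rw [x'le u h]
    · rw [x'gt u h, if_neg (by omega)]
      rcases tri (x u) with h3 | h3 | h3
      · exact h3
      · exfalso
        rcases ht.2.1 u h3 with h4 | ⟨i, hi⟩
        · omega
        · have := pow_lt_aux (i := m) (j := i) (by omega)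
          omega
      · exact absurd h3 (hA u)
  have hleft : ∀ v, v ≤ t + 2 ^ m + r → f x v = f x' v := by
    intro v hv
    apply N.loc x hx x' hx'm
    intro u h1 h2
    exact hag u (by omega)
  have hfx'm := N.maps hx'm
  have r1 : f x' (t + 2 ^ (m + 1)) = 1 := by
    rw [N.right_fix hx'm hb' (by omega), x'gt _ (by omega), if_pos (Or.inl rfl)]
  have r2 : f x' (t + 2 ^ (m + 1 + 2)) = 1 := by
    rw [N.right_fix hx'm hb' (by omega), x'gt _ (by omega), if_pos (Or.inr rfl)]
  obtain ⟨t', ht'⟩ := base_of_one hfx'm r1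
  have htt := ht'.key r1 r2
  subst htt
  have hno : ∀ A, f x A ≠ 2 := by
    intro A h
    rcases le_or_gt A (t' + 2 ^ m + r) with h1 | h1
    · rw [hleft A h1] at h
      obtain ⟨h2, h3⟩ := ht'.2.2 A h
      have h4 := h3 (m + 1 + 2) r2
      have h5 : f x' A = 0 := by
        apply N.zero_window hx'm
        intro u h6 h7
        rcases tri (x' u) with h8 | h8 | h8
        · exact h8
        · have := hb'.le h8
          omega
        · exact absurd h8 (x'no2 u)
      rw [h5] at h
      exact absurd h (by decide)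
    · rw [N.right_fix hx ht h1] at h
      exact hA A h
  refine ⟨⟨?_, ?_, ?_⟩, hno⟩
  · rw [hleft t' (by omega)]
    exact ht'.1
  · intro p hp
    rcases le_or_gt p (t' + 2 ^ m + r) with h1 | h1
    · rw [hleft p h1] at hp
      exact ht'.2.1 p hp
    · rw [N.right_fix hx ht h1] at hp
      exact ht.2.1 p hp
  · intro A h
    exact absurd h (hno A)

/-- locality for configurations with a far letter 2 -/
theorem split_right (N : NEndo f r m) {x : ℤ → Fin 3} (hx : x ∈ XX) {t A v : ℤ} (ht : Base x t)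
    (hA : x A = 2) (hd : 2 * (r : ℤ) < t - A) (hv : t - r ≤ v) : f x v = f (del x) v := by
  apply N.loc x hx _ (del_mem ht)
  intro u h1 h2
  unfold del
  rw [if_neg]
  intro h
  have := hx.1 _ _ h hA
  omega

theorem split_left (N : NEndo f r m) {x : ℤ → Fin 3} (hx : x ∈ XX) {t A v : ℤ} (ht : Base x t)
    (hA : x A = 2) (hv : v < t - r) : f x v = f (al A) v := by
  apply N.loc x hx _ (al_mem A)
  intro u h1 h2
  by_cases hu : u = A
  · subst hu; simp [al, hA]
  · rcases tri (x u) with h3 | h3 | h3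
    · simp [al, hu, h3]
    · have := ht.le h3
      omega
    · exact absurd (hx.1 _ _ h3 hA) hu

/-- support of the image of a configuration whose letter 2 is close to the base -/
theorem near_supp (N : NEndo f r m) {x : ℤ → Fin 3} (hx : x ∈ XX) {t A v : ℤ} (ht : Base x t)
    (hA : x A = 2) (hd : t - A ≤ 2 * (r : ℤ)) (hv : f x v ≠ 0) : A - r ≤ v ∧ v ≤ A + 5 * r := by
  by_contra hc
  apply hv
  apply N.zero_window hx
  intro u h1 h2
  rcases tri (x u) with h3 | h3 | h3
  · exact h3
  · exfalso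
    have h4 := (ht.2.2 A hA).1
    rcases ht.2.1 u h3 with h5 | ⟨i, hi⟩
    · omega
    · have h6 := (ht.2.2 A hA).2 i (by rw [← hi]; exact h3)
      have := two_pow_pos' i
      omega
  · exfalso
    have := hx.1 _ _ h3 hA
    omega

/-- configuration: letter 2 at `A`, base `t`, and letters 1 at the positions `t + 2 ^ i`, `i ∈ I` -/
noncomputable def cfg (A t : ℤ) (I : Set ℕ) : ℤ → Fin 3 := by
  classical
  exact fun p => if p = t ∨ ∃ i ∈ I, p = t + 2 ^ i then 1 else if p = A then 2 else 0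

theorem cfg_one {A t : ℤ} {I : Set ℕ} {p : ℤ} : cfg A t I p = 1 ↔ (p = t ∨ ∃ i ∈ I, p = t + 2 ^ i) := by
  unfold cfg
  by_cases h : (p = t ∨ ∃ i ∈ I, p = t + 2 ^ i)
  · rw [if_pos h]
    exact ⟨fun _ => h, fun _ => rfl⟩
  · rw [if_neg h]
    constructor
    · intro h3
      by_cases h2 : p = A
      · rw [if_pos h2] at h3
        exact absurd h3 (by decide)
      · rw [if_neg h2] at h3
        exact absurd h3 (by decide)
    · intro h3
      exact absurd h3 h

theorem cfg_two {A t : ℤ} {I : Set ℕ} {p : ℤ} (hAt : A < t) : cfg A t I p = 2 ↔ p = A := by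
  unfold cfg
  by_cases h : (p = t ∨ ∃ i ∈ I, p = t + 2 ^ i)
  · have hne : p ≠ A := by
      rcases h with h | ⟨i, _, h⟩
      · omega
      · have := two_pow_pos' i
        omega
    rw [if_pos h]
    constructor
    · intro h3
      exact absurd h3 (by decide)
    · intro h3
      exact absurd h3 hne
  · rw [if_neg h]
    by_cases h2 : p = A
    · rw [if_pos h2]
      exact ⟨fun _ => h2, fun _ => rfl⟩
    · rw [if_neg h2]
      constructor
      · intro h3
        exact absurd h3 (by decide)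
      · intro h3
        exact absurd h3 h2

theorem cfg_base {A t : ℤ} {I : Set ℕ} (hAt : A < t) (hI : ∀ i ∈ I, (2 : ℤ) ^ i < t - A) :
    Base (cfg A t I) t := by
  refine ⟨cfg_one.2 (Or.inl rfl), ?_, ?_⟩
  · intro p hp
    rcases cfg_one.1 hp with h | ⟨i, _, h⟩
    · exact Or.inl h
    · exact Or.inr ⟨i, h⟩
  · intro B hB
    rw [cfg_two hAt] at hB
    subst hB
    refine ⟨hAt, ?_⟩
    intro i hi
    rcases cfg_one.1 hi with h | ⟨j, hj, h⟩
    · have := two_pow_pos' i
      omega
    · have := hI j hj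
      omega

theorem cfg_mem {A t : ℤ} {I : Set ℕ} (hAt : A < t) (hI : ∀ i ∈ I, (2 : ℤ) ^ i < t - A) :
    cfg A t I ∈ XX := by
  refine ⟨?_, Or.inr ⟨t, cfg_base hAt hI⟩⟩
  intro p q hp hq
  rw [cfg_two hAt] at hp hq
  omega

/-- the image of a single letter 2 contains no letter 1 -/
theorem al_noOne (N : NEndo f r m) (u : ℤ) : f (al 0) u ≠ 1 := by
  intro hu
  have hs := N.al_supp (p := 0) (v := u) (by rw [hu]; decide)
  have hmp := two_pow_pos' m
  have hm := N.hm
  have e1 : (2 : ℤ) ^ (m + 1) = 2 * 2 ^ m := by rw [pow_succ]; ring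
  have e3 : (2 : ℤ) ^ (m + 1 + 2) = 8 * 2 ^ m := by rw [pow_add, pow_succ]; ring
  set t : ℤ := 16 * 2 ^ m with ht
  have hI : ∀ i ∈ ({m + 1, m + 1 + 2} : Set ℕ), (2 : ℤ) ^ i < t - 0 := by
    intro i hi
    simp only [mem_insert_iff, mem_singleton_iff] at hi
    rcases hi with rfl | rfl <;> omega
  have h0t : (0 : ℤ) < t := by omega
  have hb := cfg_base h0t hI
  have hmem := cfg_mem h0t hI
  have hA : cfg 0 t {m + 1, m + 1 + 2} 0 = 2 := (cfg_two h0t).2 rfl
  have r1 : f (cfg 0 t {m + 1, m + 1 + 2}) (t + 2 ^ (m + 1)) = 1 := by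
    rw [N.right_fix hmem hb (by omega), cfg_one]
    right
    exact ⟨m + 1, by simp, rfl⟩
  have r2 : f (cfg 0 t {m + 1, m + 1 + 2}) (t + 2 ^ (m + 1 + 2)) = 1 := by
    rw [N.right_fix hmem hb (by omega), cfg_one]
    right
    exact ⟨m + 1 + 2, by simp, rfl⟩
  obtain ⟨t', ht'⟩ := base_of_one (N.maps hmem) r1
  have htt := ht'.key r1 r2
  have h2 : f (cfg 0 t {m + 1, m + 1 + 2}) u = 1 := by
    rw [N.split_left hmem hb hA (by omega), hu]
  have := ht'.le h2
  omega

theorem al_noOne' (N : NEndo f r m) (A u : ℤ) : f (al A) u ≠ 1 := by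
  rw [N.al_eq]
  exact N.al_noOne _

/-- base of the image of a configuration with a far letter 2 -/
theorem far_base (N : NEndo f r m) {x : ℤ → Fin 3} (hx : x ∈ XX) {t A : ℤ} (ht : Base x t)
    (hA : x A = 2) (hd : 2 * (r : ℤ) < t - A) : Base (f x) t := by
  have hdel := N.noA (del_mem ht) (del_base ht) (fun _ => del_two)
  have h1 : f x t = 1 := by
    rw [N.split_right hx ht hA hd (by omega)]
    exact hdel.1.1
  obtain ⟨t', ht'⟩ := base_of_one (N.maps hx) h1
  have hle := ht'.le h1
  have heq : t' = t := by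
    by_contra hne
    have h2 := ht'.1
    rcases lt_or_ge t' (t - r) with h3 | h3
    · rw [N.split_left hx ht hA h3] at h2
      exact N.al_noOne' _ _ h2
    · rw [N.split_right hx ht hA hd h3] at h2
      have := hdel.1.le h2
      omega
  rw [← heq]
  exact ht'

/-- position of the letter 2 in the image of a configuration with a far letter 2 -/
theorem far_two (N : NEndo f r m) {x : ℤ → Fin 3} (hx : x ∈ XX) {t A B : ℤ} (ht : Base x t)
    (hA : x A = 2) (hd : 2 * (r : ℤ) < t - A) (hB : f x B = 2) : f (al A) B = 2 := by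
  have hdel := N.noA (del_mem ht) (del_base ht) (fun _ => del_two)
  rcases lt_or_ge B (t - r) with h3 | h3
  · rw [N.split_left hx ht hA h3] at hB
    exact hB
  · rw [N.split_right hx ht hA hd h3] at hB
    exact absurd hB (hdel.2 B)

/-- trichotomy for preimages of configurations having both letters -/
theorem pre_cases (N : NEndo f r m) {x : ℤ → Fin 3} (hx : x ∈ XX) {A p : ℤ} (hA : f x A = 2)
    (hp : f x p = 1) : ∃ t B, Base x t ∧ x B = 2 := by
  by_cases hno : ∀ p, x p ≠ 1
  · exfalso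
    rcases noOne_cases hx hno with h | ⟨B, h⟩
    · rw [h, N.zero] at hp
      exact absurd (show (0 : Fin 3) = 1 from hp) (by decide)
    · rw [h] at hp
      exact N.al_noOne' _ _ hp
  · push Not at hno
    obtain ⟨q, hq⟩ := hno
    obtain ⟨t, ht⟩ := base_of_one hx hq
    by_cases hB : ∃ B, x B = 2
    · obtain ⟨B, hB⟩ := hB
      exact ⟨t, B, ht, hB⟩
    · push Not at hB
      exact absurd hA ((N.noA hx ht hB).2 A)

/-- the image of a single letter 2 is not zero -/
theorem al_ne (N : NEndo f r m) : ∃ κ, f (al 0) κ = 2 := by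
  by_contra hc
  push Not at hc
  have hz : ∀ A v, f (al A) v = 0 := by
    intro A v
    rw [N.al_eq]
    rcases tri (f (al 0) (v - A)) with h | h | h
    · exact h
    · exact absurd h (N.al_noOne _)
    · exact absurd h (hc _)
  set K : ℤ := 8 * r + 8 with hK
  have h0K : (0 : ℤ) < K := by omega
  have hI : ∀ i ∈ (∅ : Set ℕ), (2 : ℤ) ^ i < K - 0 := by
    intro i hi
    exact absurd hi (by simp)
  obtain ⟨x, hx, hfx⟩ := N.surj (cfg_mem h0K hI)
  have y0 : f x 0 = 2 := by rw [hfx]; exact (cfg_two h0K).2 rfl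
  have yK : f x K = 1 := by rw [hfx]; exact cfg_one.2 (Or.inl rfl)
  obtain ⟨t, A, ht, hA⟩ := N.pre_cases hx y0 yK
  rcases lt_or_ge (2 * (r : ℤ)) (t - A) with hd | hd
  · have h1 := N.far_two hx ht hA hd y0
    rw [hz] at h1
    exact absurd h1 (by decide)
  · have h1 := N.near_supp hx ht hA hd (v := 0) (by rw [y0]; decide)
    have h2 := N.near_supp hx ht hA hd (v := K) (by rw [yK]; decide)
    omega

theorem al_fix0 (N : NEndo f r m) : f (al 0) 0 = 2 := by
  obtain ⟨κ, hκ⟩ := N.al_ne
  have hs := N.al_supp (p := 0) (v := κ) (by rw [hκ]; decide)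
  have hmp := two_pow_pos' m
  have hm := N.hm
  -- uniqueness of κ
  have huniq : ∀ v, f (al 0) v = 2 → v = κ := by
    intro v hv
    exact (N.maps (al_mem 0)).1 _ _ hv hκ
  have h1 : κ ≤ 0 := by
    have e1 : (2 : ℤ) ^ (m + 1) = 2 * 2 ^ m := by rw [pow_succ]; ring
    set t : ℤ := 2 ^ (m + 1) + 1 with ht
    have h0t : (0 : ℤ) < t := by omega
    have hI : ∀ i ∈ ({m + 1} : Set ℕ), (2 : ℤ) ^ i < t - 0 := by
      intro i hi
      simp only [mem_singleton_iff] at hi
      subst hi
      omega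
    have hb := cfg_base h0t hI
    have hmem := cfg_mem h0t hI
    have hA : cfg 0 t {m + 1} 0 = 2 := (cfg_two h0t).2 rfl
    have hfb := N.far_base hmem hb hA (by omega)
    have hk : f (cfg 0 t {m + 1}) κ = 2 := by
      rw [N.split_left hmem hb hA (by omega), hκ]
    have hr : f (cfg 0 t {m + 1}) (t + 2 ^ (m + 1)) = 1 := by
      rw [N.right_fix hmem hb (by omega), cfg_one]
      right
      exact ⟨m + 1, by simp, rfl⟩
    have := (hfb.2.2 κ hk).2 (m + 1) hr
    omega
  have h2 : 0 ≤ κ := by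
    have e1 : (2 : ℤ) ^ (m + 3) = 8 * 2 ^ m := by rw [pow_add]; ring
    set t : ℤ := 2 ^ (m + 3) + 1 with ht
    have h0t : (0 : ℤ) < t := by omega
    have hI : ∀ i ∈ ({m + 3} : Set ℕ), (2 : ℤ) ^ i < t - 0 := by
      intro i hi
      simp only [mem_singleton_iff] at hi
      subst hi
      omega
    have hb := cfg_base h0t hI
    obtain ⟨x, hx, hfx⟩ := N.surj (cfg_mem h0t hI)
    have y0 : f x 0 = 2 := by rw [hfx]; exact (cfg_two h0t).2 rfl
    have yt : f x t = 1 := by rw [hfx]; exact cfg_one.2 (Or.inl rfl)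
    have yn : f x (t + 2 ^ (m + 3)) = 1 := by
      rw [hfx, cfg_one]
      right
      exact ⟨m + 3, by simp, rfl⟩
    obtain ⟨t', A, ht', hA⟩ := N.pre_cases hx y0 yt
    rcases lt_or_ge (2 * (r : ℤ)) (t' - A) with hd | hd
    · have h1 := N.far_two hx ht' hA hd y0
      have h3 := N.far_base hx ht' hA hd
      rw [hfx] at h3
      have h4 := h3.unique hb
      subst h4
      rw [N.al_eq] at h1
      have h5 := huniq _ h1
      have h6 := N.right_fix hx ht' (v := t + 2 ^ (m + 3)) (by omega)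
      rw [yn] at h6
      have h7 := (ht'.2.2 A hA).2 (m + 3) h6.symm
      omega
    · have h1 := N.near_supp hx ht' hA hd (v := 0) (by rw [y0]; decide)
      have h2 := N.near_supp hx ht' hA hd (v := t + 2 ^ (m + 3)) (by rw [yn]; decide)
      omega
  have h3 : κ = 0 := by omega
  rw [h3] at hκ
  exact hκ

theorem al_fix (N : NEndo f r m) (A : ℤ) : f (al A) = al A := by
  funext v
  rw [N.al_eq]
  have hmem := N.maps (al_mem 0)
  simp only [al]
  by_cases h : v = A
  · rw [if_pos h]
    subst h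
    simpa using N.al_fix0
  · rw [if_neg h]
    rcases tri (f (al 0) (v - A)) with h1 | h1 | h1
    · exact h1
    · exact absurd h1 (N.al_noOne _)
    · have := hmem.1 _ _ h1 N.al_fix0
      omega

end NEndo

end Pool.Agent.H694R3.Inj
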